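import Mathlib
open MeasureTheory Real ProbabilityTheory Set Filter
open scoped ENNReal Topology

set_option maxHeartbeats 1000000

namespace H330GGC

/-- the analytic data -/
structure Dat where
  w : Measure ℝ
  N : Measure (ℝ × ℝ)
  k : ℝ
  hk : 0 ≤ k
  hw : ∀ᵐ t ∂w, 0 ≤ t
  hfin : ∀ c : ℝ, 0 < c → ∫⁻ t, ENNReal.ofReal (Real.exp (-(c * t))) ∂w ≠ ∞
  hne : w ≠ 0
  hN : ∀ᵐ x ∂N, 0 ≤ x.1 ∧ 0 ≤ x.2
  hmul : ∀ c c' : ℝ, 0 < c → 0 < c' →
    (∫⁻ t, ENNReal.ofReal (Real.exp (-(c * t))) ∂w) * (∫⁻ t, ENNReal.ofReal (Real.exp (-(c' * t))) ∂w)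
     = ∫⁻ x, ENNReal.ofReal (Real.exp (-(x.1 * (c * c') + x.2 * (c + c') ^ 2))) ∂N
  hmono : ∀ c c' : ℝ, 0 < c → c ≤ c' →
    c ^ k * (∫⁻ t, ENNReal.ofReal (Real.exp (-(c * t))) ∂w).toReal
      ≤ c' ^ k * (∫⁻ t, ENNReal.ofReal (Real.exp (-(c' * t))) ∂w).toReal

namespace Dat
variable (D : Dat)

/-- the holomorphic Laplace transform -/
noncomputable def P (z : ℂ) : ℂ := complexMGF (fun t : ℝ => -t) D.w z

noncomputable def E (c : ℝ) : ℝ := mgf (fun t : ℝ => -t) D.w c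

lemma integrable_exp {c : ℝ} (hc : 0 < c) : Integrable (fun t : ℝ => Real.exp (-(c * t))) D.w := by
  refine ⟨by fun_prop, ?_⟩
  rw [hasFiniteIntegral_iff_ofReal (Eventually.of_forall (fun t => (Real.exp_pos _).le))]
  exact lt_top_iff_ne_top.mpr (D.hfin c hc)

lemma E_eq {c : ℝ} : D.E c = ∫ t, Real.exp (-(c * t)) ∂D.w := by
  unfold E mgf
  congr 1
  ext t
  ring_nf

lemma E_toReal {c : ℝ} : (∫⁻ t, ENNReal.ofReal (Real.exp (-(c * t))) ∂D.w).toReal = D.E c := by
  rw [E_eq, integral_eq_lintegral_of_nonneg_ae (Eventually.of_forall (fun t => (Real.exp_pos _).le))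
    (by fun_prop)]

lemma E_ofReal {c : ℝ} (hc : 0 < c) :
    (∫⁻ t, ENNReal.ofReal (Real.exp (-(c * t))) ∂D.w) = ENNReal.ofReal (D.E c) := by
  rw [← E_toReal, ENNReal.ofReal_toReal (D.hfin c hc)]

lemma E_pos {c : ℝ} (hc : 0 < c) : 0 < D.E c := by
  have : NeZero D.w := ⟨D.hne⟩
  rw [E_eq]
  exact integral_exp_pos (f := fun t : ℝ => -(c * t)) (D.integrable_exp hc)

lemma mem_set {c : ℝ} (hc : 0 < c) : c ∈ interior (integrableExpSet (fun t : ℝ => -t) D.w) := by
  have h1 : Set.Ioi (0:ℝ) ⊆ integrableExpSet (fun t : ℝ => -t) D.w := by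
    intro x hx
    have := D.integrable_exp hx
    unfold integrableExpSet
    simp only [mem_ofPred_eq]
    convert this using 2
    ring_nf
  exact interior_mono h1 (by rw [interior_Ioi]; exact hc)

lemma P_ofReal (c : ℝ) : D.P c = D.E c := by
  unfold P E
  exact complexMGF_ofReal c

lemma P_hasDerivAt {z : ℂ} (hz : 0 < z.re) :
    HasDerivAt D.P (∫ t : ℝ, ((-t : ℝ) : ℂ) * Complex.exp (z * ((-t : ℝ) : ℂ)) ∂D.w) z :=
  hasDerivAt_complexMGF (D.mem_set hz)

lemma P_analyticAt {z : ℂ} (hz : 0 < z.re) : AnalyticAt ℂ D.P z :=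
  analyticAt_complexMGF (D.mem_set hz)

lemma P_conj (z : ℂ) : D.P (starRingEnd ℂ z) = starRingEnd ℂ (D.P z) := by
  unfold P complexMGF
  rw [← integral_conj]
  congr 1
  ext t
  rw [← Complex.exp_conj]
  simp

lemma N_int {a b : ℝ} (ha : 0 < a) (hb : 0 < b) :
    Integrable (fun x : ℝ × ℝ => Real.exp (-(x.1 * a + x.2 * b))) D.N := by
  refine ⟨by fun_prop, ?_⟩
  rw [hasFiniteIntegral_iff_ofReal (Eventually.of_forall (fun t => (Real.exp_pos _).le))]
  set ρ := min a (b / 4) with hρ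
  have hρ0 : 0 < ρ := lt_min ha (by linarith)
  have h1 := D.hmul (Real.sqrt ρ) (Real.sqrt ρ) (Real.sqrt_pos.mpr hρ0) (Real.sqrt_pos.mpr hρ0)
  have h2 : ∫⁻ x, ENNReal.ofReal (Real.exp (-(x.1 * a + x.2 * b))) ∂D.N ≤
      ∫⁻ x, ENNReal.ofReal (Real.exp (-(x.1 * (√ρ * √ρ) + x.2 * (√ρ + √ρ) ^ 2))) ∂D.N := by
    apply lintegral_mono_ae
    filter_upwards [D.hN] with x hx
    apply ENNReal.ofReal_le_ofReal
    apply Real.exp_le_exp.mpr
    have e1 : √ρ * √ρ = ρ := Real.mul_self_sqrt hρ0.le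
    have e2 : (√ρ + √ρ) ^ 2 = 4 * ρ := by nlinarith
    rw [e1, e2]
    have h3 : ρ ≤ a := min_le_left _ _
    have h4 : 4 * ρ ≤ b := by have := min_le_right a (b / 4); linarith
    nlinarith [mul_le_mul_of_nonneg_left h3 hx.1, mul_le_mul_of_nonneg_left h4 hx.2]
  refine lt_of_le_of_lt h2 ?_
  rw [← h1]
  exact ENNReal.mul_lt_top (lt_top_iff_ne_top.mpr (D.hfin _ (Real.sqrt_pos.mpr hρ0)))
    (lt_top_iff_ne_top.mpr (D.hfin _ (Real.sqrt_pos.mpr hρ0)))

/-- real multiplication formula -/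
lemma E_mul {c c' : ℝ} (hc : 0 < c) (hc' : 0 < c') :
    D.E c * D.E c' = ∫ x, Real.exp (-(x.1 * (c * c') + x.2 * (c + c') ^ 2)) ∂D.N := by
  have h := D.hmul c c' hc hc'
  rw [integral_eq_lintegral_of_nonneg_ae (Eventually.of_forall (fun t => (Real.exp_pos _).le))
    (by fun_prop), ← h, ENNReal.toReal_mul, E_toReal, E_toReal]

/-- the measure with density -/
noncomputable def Nr (r : ℝ) : Measure (ℝ × ℝ) :=
  D.N.withDensity (fun x => ENNReal.ofReal (Real.exp (-(x.1 * r ^ 2))))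

lemma Nr_integral (r : ℝ) (g : ℝ × ℝ → ℂ) :
    ∫ x, g x ∂(D.Nr r) = ∫ x, (Real.exp (-(x.1 * r ^ 2)) : ℂ) * g x ∂D.N := by
  unfold Nr
  rw [integral_withDensity_eq_integral_toReal_smul (by fun_prop)
    (Eventually.of_forall (fun x => ENNReal.ofReal_lt_top))]
  congr 1
  ext x
  rw [ENNReal.toReal_ofReal (Real.exp_pos _).le]
  simp

lemma Nr_mem {r s : ℝ} (hr : 0 < r) (hs : 0 < s) :
    s ∈ interior (integrableExpSet (fun x : ℝ × ℝ => -x.2) (D.Nr r)) := by
  have h1 : Set.Ioi (0:ℝ) ⊆ integrableExpSet (fun x : ℝ × ℝ => -x.2) (D.Nr r) := by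
    intro s hs
    unfold integrableExpSet
    simp only [mem_ofPred_eq]
    unfold Nr
    rw [integrable_withDensity_iff_integrable_smul' (by fun_prop)
      (Eventually.of_forall (fun x => ENNReal.ofReal_lt_top))]
    have := D.N_int (a := r ^ 2) (b := s) (by positivity) hs
    convert this using 2 with x
    rw [ENNReal.toReal_ofReal (Real.exp_pos _).le, smul_eq_mul, ← Real.exp_add]
    congr 1; ring
  exact interior_mono h1 (by rw [interior_Ioi]; exact hs)

/-- the identity on complex points -/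
lemma P_norm_sq_aux {r α : ℝ} (hr : 0 < r) (hα : |α| < π / 2) :
    D.P (r * Complex.exp (α * Complex.I)) * D.P (r * Complex.exp (-(α * Complex.I)))
      = complexMGF (fun x : ℝ × ℝ => -x.2) (D.Nr r) (4 * r ^ 2 * Complex.cos α ^ 2) := by
  -- choose a rectangle
  obtain ⟨a, ha1, ha2⟩ := exists_between hα
  have ha0 : 0 < a := lt_of_le_of_lt (abs_nonneg α) ha1
  have hcos : -1 < Real.cos (2 * a) := by
    have h1 : Real.cos π < Real.cos (2 * a) :=
      Real.cos_lt_cos_of_nonneg_of_le_pi (by linarith) le_rfl (by linarith)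
    rwa [Real.cos_pi] at h1
  obtain ⟨ε, hε0, hε⟩ : ∃ ε > 0, ∀ y : ℝ, |y| < ε → -1 < Real.cosh (2 * y) * Real.cos (2 * a) := by
    have hcont : Continuous (fun y : ℝ => Real.cosh (2 * y) * Real.cos (2 * a)) := by
      have := Real.continuous_cosh
      fun_prop
    have : ∀ᶠ y in 𝓝 (0:ℝ), -1 < Real.cosh (2 * y) * Real.cos (2 * a) := by
      apply hcont.continuousAt.eventually_const_lt
      simpa using hcos
    rw [Metric.eventually_nhds_iff] at this
    obtain ⟨ε, hε0, hε⟩ := this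
    refine ⟨ε, hε0, fun y hy => hε ?_⟩
    simpa [Real.dist_eq] using hy
  set U : Set ℂ := (Set.Ioo (-a) a) ×ℂ (Set.Ioo (-ε) ε) with hU
  have hUconv : Convex ℝ U :=
    ((convex_Ioo (-a) a).linear_preimage Complex.reLm).inter
      ((convex_Ioo (-ε) ε).linear_preimage Complex.imLm)
  have hUpre : IsPreconnected U := hUconv.isPreconnected
  have hcosz : ∀ z ∈ U, 0 < (Complex.cos z ^ 2).re := by
    intro z hz
    rw [hU, Complex.mem_reProdIm] at hz
    obtain ⟨hz1, hz2⟩ := hz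
    have e1 : (Complex.cos z ^ 2).re = 1 / 2 + (Real.cos (2 * z.re) * Real.cosh (2 * z.im)) / 2 := by
      rw [Complex.cos_sq, Complex.add_re]
      have h2z : Complex.cos (2 * z) = ((Real.cos (2 * z.re) * Real.cosh (2 * z.im) : ℝ) : ℂ)
          - ((Real.sin (2 * z.re) * Real.sinh (2 * z.im) : ℝ) : ℂ) * Complex.I := by
        rw [Complex.cos_eq (2 * z), show (2 * z).re = 2 * z.re by simp,
          show (2 * z).im = 2 * z.im by simp]
        push_cast
        ring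
      have h2r : (Complex.cos (2 * z)).re = Real.cos (2 * z.re) * Real.cosh (2 * z.im) := by
        rw [h2z]
        simp only [Complex.sub_re, Complex.ofReal_re, Complex.mul_re, Complex.I_re, Complex.ofReal_im,
          Complex.I_im]
        ring
      have h2 : (Complex.cos (2 * z) / 2).re = (Complex.cos (2 * z)).re / 2 := by
        rw [show (2:ℂ) = ((2:ℝ):ℂ) by norm_num, Complex.div_ofReal_re]
      rw [h2, h2r]
      norm_num
    rw [e1]
    have h1 : Real.cos (2 * a) ≤ Real.cos (2 * z.re) := by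
      rw [← Real.cos_abs (2 * z.re)]
      apply Real.cos_le_cos_of_nonneg_of_le_pi (abs_nonneg _) (by linarith)
      rw [abs_le]; constructor <;> linarith [hz1.1, hz1.2]
    have h2 := hε z.im (by rw [abs_lt]; exact ⟨hz2.1, hz2.2⟩)
    have h3 : 0 < Real.cosh (2 * z.im) := Real.cosh_pos _
    nlinarith [mul_le_mul_of_nonneg_left h1 h3.le]
  have hre : ∀ z ∈ U, 0 < (r * Complex.exp (z * Complex.I)).re ∧ 0 < (r * Complex.exp (-(z * Complex.I))).re := by
    intro z hz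
    rw [hU, Complex.mem_reProdIm] at hz
    obtain ⟨hz1, hz2⟩ := hz
    have hc : 0 < Real.cos z.re := Real.cos_pos_of_mem_Ioo ⟨by linarith [hz1.1], by linarith [hz1.2]⟩
    constructor
    · rw [Complex.re_ofReal_mul, Complex.exp_re]
      simp only [Complex.mul_re, Complex.mul_im, Complex.I_re, Complex.I_im]
      simp only [mul_zero, mul_one, zero_sub, add_zero, zero_add]
      positivity
    · rw [Complex.re_ofReal_mul, Complex.exp_re]
      simp only [Complex.neg_re, Complex.neg_im, Complex.mul_re, Complex.mul_im, Complex.I_re, Complex.I_im]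
      simp only [mul_zero, mul_one, zero_sub, add_zero, zero_add, Real.cos_neg]
      positivity
  have hL : AnalyticOnNhd ℂ (fun z : ℂ => D.P (r * Complex.exp (z * Complex.I)) *
      D.P (r * Complex.exp (-(z * Complex.I)))) U := by
    intro z hz
    obtain ⟨h1, h2⟩ := hre z hz
    apply AnalyticAt.mul
    · exact (D.P_analyticAt h1).comp_of_eq (by fun_prop) rfl
    · exact (D.P_analyticAt h2).comp_of_eq (by fun_prop) rfl
  have hR : AnalyticOnNhd ℂ (fun z : ℂ => complexMGF (fun x : ℝ × ℝ => -x.2) (D.Nr r)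
      (4 * r ^ 2 * Complex.cos z ^ 2)) U := by
    intro z hz
    have h1 := hcosz z hz
    have h2 : 0 < (4 * (r:ℂ) ^ 2 * Complex.cos z ^ 2).re := by
      have : (4 * (r:ℂ) ^ 2 * Complex.cos z ^ 2) = ((4 * r ^ 2 : ℝ) : ℂ) * Complex.cos z ^ 2 := by
        push_cast; ring
      rw [this, Complex.re_ofReal_mul]
      positivity
    have h3 : AnalyticAt ℂ (complexMGF (fun x : ℝ × ℝ => -x.2) (D.Nr r)) (4 * r ^ 2 * Complex.cos z ^ 2) :=
      analyticAt_complexMGF (D.Nr_mem hr h2)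
    exact h3.comp_of_eq (f := fun z : ℂ => (4 * (r:ℂ) ^ 2 * Complex.cos z ^ 2)) (by fun_prop) rfl
  have h0U : (0:ℂ) ∈ U := by
    rw [hU, Complex.mem_reProdIm]
    simp [ha0, hε0]
  have hfreq : ∃ᶠ z in 𝓝[≠] (0:ℂ), (fun z : ℂ => D.P (r * Complex.exp (z * Complex.I)) *
      D.P (r * Complex.exp (-(z * Complex.I)))) z = (fun z : ℂ => complexMGF (fun x : ℝ × ℝ => -x.2) (D.Nr r)
      (4 * r ^ 2 * Complex.cos z ^ 2)) z := by
    have himag : ∀ τ : ℝ, D.P (r * Complex.exp ((τ * Complex.I) * Complex.I)) *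
      D.P (r * Complex.exp (-((τ * Complex.I) * Complex.I))) = complexMGF (fun x : ℝ × ℝ => -x.2) (D.Nr r)
      (4 * r ^ 2 * Complex.cos (τ * Complex.I) ^ 2) := by
      intro τ
      have e1 : (r:ℂ) * Complex.exp ((τ * Complex.I) * Complex.I) = ((r * Real.exp (-τ) : ℝ) : ℂ) := by
        rw [mul_assoc, Complex.I_mul_I]; push_cast; ring_nf
      have e2 : (r:ℂ) * Complex.exp (-((τ * Complex.I) * Complex.I)) = ((r * Real.exp τ : ℝ) : ℂ) := by
        rw [mul_assoc, Complex.I_mul_I]; push_cast; ring_nf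
      have e3 : (4 * (r:ℂ) ^ 2 * Complex.cos (τ * Complex.I) ^ 2) = ((4 * r ^ 2 * Real.cosh τ ^ 2 : ℝ) : ℂ) := by
        rw [Complex.cos_mul_I]; push_cast; ring
      rw [e1, e2, e3, P_ofReal, P_ofReal, ← Complex.ofReal_mul,
        D.E_mul (by positivity) (by positivity)]
      unfold complexMGF
      rw [Nr_integral, ← integral_complex_ofReal]
      congr 1
      ext x
      rw [← Complex.ofReal_mul]
      push_cast
      rw [← Complex.exp_add]
      congr 1
      have h7 : Complex.exp (-(τ:ℂ)) * Complex.exp τ = 1 := by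
        rw [← Complex.exp_add]; simp
      have h8 : Complex.cosh τ = (Complex.exp τ + Complex.exp (-τ)) / 2 := rfl
      rw [h8]
      linear_combination (-(x.1:ℂ) * r ^ 2) * h7
    have ht : Tendsto (fun n : ℕ => (((1 / ((n:ℝ) + 1) : ℝ) : ℂ) * Complex.I)) atTop (𝓝[≠] (0:ℂ)) := by
      rw [tendsto_nhdsWithin_iff]
      constructor
      · have h1 : Tendsto (fun n : ℕ => (((1 / ((n:ℝ) + 1) : ℝ) : ℂ))) atTop (𝓝 ((0:ℝ):ℂ)) :=
          (Complex.continuous_ofReal.tendsto 0).comp tendsto_one_div_add_atTop_nhds_zero_nat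
        have h2 := h1.mul_const Complex.I
        simpa using h2
      · apply Eventually.of_forall
        intro n
        simp only [mem_compl_iff, mem_singleton_iff, mul_eq_zero, Complex.I_ne_zero, or_false]
        rw [Complex.ofReal_eq_zero]
        positivity
    apply ht.frequently
    apply Frequently.of_forall
    intro n
    exact himag _
  have heq := hL.eqOn_of_preconnected_of_frequently_eq hR hUpre h0U hfreq
  have hαU : (α:ℂ) ∈ U := by
    rw [hU, Complex.mem_reProdIm]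
    simp only [Complex.ofReal_re, Complex.ofReal_im, mem_Ioo]
    rw [abs_lt] at ha1
    exact ⟨ha1, by linarith, hε0⟩
  exact heq hαU

/-- the norm formula -/
lemma P_norm_sq {c : ℂ} (hc : 0 < c.re) :
    ‖D.P c‖ ^ 2 = ∫ x, Real.exp (-(x.1 * ‖c‖ ^ 2 + x.2 * (4 * c.re ^ 2))) ∂D.N := by
  have hc0 : c ≠ 0 := by rintro rfl; simp at hc
  have hr : 0 < ‖c‖ := norm_pos_iff.mpr hc0
  have harg : |c.arg| < π / 2 := Complex.abs_arg_lt_pi_div_two_iff.mpr (Or.inl hc)
  have h := D.P_norm_sq_aux hr harg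
  have e1 : (‖c‖ : ℂ) * Complex.exp (c.arg * Complex.I) = c := Complex.norm_mul_exp_arg_mul_I c
  have e2 : (‖c‖ : ℂ) * Complex.exp (-(c.arg * Complex.I)) = starRingEnd ℂ c := by
    have := congrArg (starRingEnd ℂ) e1
    rw [map_mul, Complex.conj_ofReal, ← Complex.exp_conj, map_mul, Complex.conj_ofReal,
      Complex.conj_I, mul_neg] at this
    exact this
  have e3 : (Complex.cos c.arg) = ((c.re / ‖c‖ : ℝ) : ℂ) := by
    rw [← Complex.ofReal_cos, Complex.cos_arg hc0]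
  rw [e1, e2, P_conj, Complex.mul_conj, e3] at h
  have e4 : (4 * (‖c‖:ℂ) ^ 2 * ((c.re / ‖c‖ : ℝ) : ℂ) ^ 2) = ((4 * c.re ^ 2 : ℝ) : ℂ) := by
    have : (‖c‖ : ℂ) ≠ 0 := by exact_mod_cast hr.ne'
    push_cast
    field_simp
  rw [e4] at h
  unfold complexMGF at h
  rw [Nr_integral] at h
  have e5 : (∫ x : ℝ × ℝ, (Real.exp (-(x.1 * ‖c‖ ^ 2)) : ℂ) *
      Complex.exp (((4 * c.re ^ 2 : ℝ) : ℂ) * ((-x.2 : ℝ) : ℂ)) ∂D.N)
      = ((∫ x, Real.exp (-(x.1 * ‖c‖ ^ 2 + x.2 * (4 * c.re ^ 2))) ∂D.N : ℝ) : ℂ) := by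
    rw [← integral_complex_ofReal]
    congr 1
    ext x
    rw [← Complex.ofReal_mul, ← Complex.ofReal_exp, ← Complex.ofReal_mul, ← Real.exp_add]
    congr 2
    ring
  rw [e5] at h
  have h' := Complex.ofReal_inj.mp h
  rw [← h', Complex.normSq_eq_norm_sq]

lemma P_norm_mono {c c' : ℂ} (hc : 0 < c.re) (hcc : c.re ≤ c'.re) (hn : ‖c‖ = ‖c'‖) :
    ‖D.P c'‖ ≤ ‖D.P c‖ := by
  have hc' : 0 < c'.re := lt_of_lt_of_le hc hcc
  have h1 := D.P_norm_sq hc
  have h2 := D.P_norm_sq hc'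
  have hr : 0 < ‖c‖ := by
    apply norm_pos_iff.mpr
    rintro rfl
    simp at hc
  have h3 : ‖D.P c'‖ ^ 2 ≤ ‖D.P c‖ ^ 2 := by
    rw [h1, h2]
    apply integral_mono_ae
    · apply D.N_int
      · rw [← hn]; positivity
      · positivity
    · apply D.N_int
      · positivity
      · positivity
    · filter_upwards [D.hN] with x hx
      apply Real.exp_le_exp.mpr
      rw [hn]
      have : c.re ^ 2 ≤ c'.re ^ 2 := by nlinarith
      nlinarith [hx.2, mul_le_mul_of_nonneg_left this hx.2]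
  exact le_of_sq_le_sq h3 (norm_nonneg _)

lemma E_le_P {c : ℂ} (hc : 0 < c.re) : D.E ‖c‖ ≤ ‖D.P c‖ := by
  have h := D.P_norm_mono (c := c) (c' := (‖c‖ : ℂ)) hc (by simpa using Complex.re_le_norm c) (by simp)
  rw [P_ofReal] at h
  have hr : 0 < ‖c‖ := by
    apply norm_pos_iff.mpr
    rintro rfl
    simp at hc
  rwa [Complex.norm_real, Real.norm_of_nonneg (D.E_pos hr).le] at h

lemma P_ne_zero {c : ℂ} (hc : 0 < c.re) : D.P c ≠ 0 := by
  have hr : 0 < ‖c‖ := by
    apply norm_pos_iff.mpr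
    rintro rfl
    simp at hc
  have := D.E_le_P hc
  have h2 := D.E_pos hr
  intro h
  rw [h, norm_zero] at this
  linarith

lemma E_doubling {r l : ℝ} (hr : 0 < r) (hl : 0 < l) (hl1 : l ≤ 1) :
    D.E (l * r) ≤ l ^ (-D.k) * D.E r := by
  have h := D.hmono (l * r) r (by positivity) (by nlinarith)
  rw [E_toReal, E_toReal, Real.mul_rpow hl.le hr.le] at h
  rw [Real.rpow_neg hl.le]
  have h1 : 0 < l ^ D.k := by positivity
  have h2 : 0 < r ^ D.k := by positivity
  have h3 : r ^ D.k * (l ^ D.k * D.E (l * r)) ≤ r ^ D.k * D.E r := by linarith [h]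
  have h4 := le_of_mul_le_mul_left h3 h2
  rw [inv_mul_eq_div, le_div_iff₀ h1]
  linarith

/-- derivative bound in a sector -/
lemma deriv_bound {η : ℝ} (hη : 0 < η) (hη1 : η ≤ 1) : ∃ C : ℝ, ∀ c : ℂ, 0 < c.re → η * ‖c‖ ≤ c.re →
    ‖c * deriv D.P c‖ ≤ C * ‖D.P c‖ := by
  refine ⟨(2 / η) * (η / 2) ^ (-D.k), ?_⟩
  intro c hc hcη
  have hr : 0 < ‖c‖ := by
    apply norm_pos_iff.mpr
    rintro rfl
    simp at hc
  rw [(D.P_hasDerivAt hc).deriv, norm_mul]
  have h1 : ‖∫ t : ℝ, ((-t : ℝ) : ℂ) * Complex.exp (c * ((-t : ℝ) : ℂ)) ∂D.w‖ ≤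
      ∫ t : ℝ, (2 / (η * ‖c‖)) * Real.exp (-((η / 2 * ‖c‖) * t)) ∂D.w := by
    apply norm_integral_le_of_norm_le
    · exact (D.integrable_exp (by positivity)).const_mul _
    · filter_upwards [D.hw] with t ht
      rw [norm_mul, Complex.norm_real, Complex.norm_exp, norm_neg, Real.norm_of_nonneg ht]
      have e1 : (c * ((-t : ℝ) : ℂ)).re = -(c.re * t) := by
        rw [Complex.re_mul_ofReal]; ring
      rw [e1]
      have h2 : Real.exp (-(c.re * t)) ≤ Real.exp (-(η * ‖c‖ * t)) := by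
        apply Real.exp_le_exp.mpr
        nlinarith
      have h3 : Real.exp (-(η * ‖c‖ * t)) = Real.exp (-((η / 2 * ‖c‖) * t)) * Real.exp (-((η / 2 * ‖c‖) * t)) := by
        rw [← Real.exp_add]; congr 1; ring
      set y := (η / 2 * ‖c‖) * t with hy
      have hy0 : 0 ≤ y := by positivity
      have h4 : y * Real.exp (-y) ≤ 1 := by
        have h5 := Real.add_one_le_exp y
        have h6 : Real.exp y * Real.exp (-y) = 1 := by rw [← Real.exp_add]; simp
        have h7 := Real.exp_pos (-y)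
        nlinarith
      have h5 : t = (2 / (η * ‖c‖)) * y := by
        rw [hy]; field_simp
      calc t * Real.exp (-(c.re * t)) ≤ t * Real.exp (-(η * ‖c‖ * t)) := by gcongr
        _ = (2 / (η * ‖c‖)) * ((y * Real.exp (-y)) * Real.exp (-y)) := by
            rw [h3]; nth_rewrite 1 [h5]; ring
        _ ≤ (2 / (η * ‖c‖)) * (1 * Real.exp (-y)) := by gcongr
        _ = _ := by ring
  rw [integral_const_mul, ← E_eq] at h1
  have h2 := D.E_doubling (r := ‖c‖) (l := η / 2) hr (by positivity) (by linarith)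
  have h3 := D.E_le_P hc
  have h4 : 0 < (η / 2) ^ (-D.k) := by positivity
  calc ‖c‖ * ‖∫ t : ℝ, ((-t : ℝ) : ℂ) * Complex.exp (c * ((-t : ℝ) : ℂ)) ∂D.w‖
      ≤ ‖c‖ * (2 / (η * ‖c‖) * D.E (η / 2 * ‖c‖)) := by gcongr
    _ = (2 / η) * D.E (η / 2 * ‖c‖) := by field_simp
    _ ≤ (2 / η) * ((η / 2) ^ (-D.k) * D.E ‖c‖) := by gcongr
    _ ≤ (2 / η) * ((η / 2) ^ (-D.k) * ‖D.P c‖) := by gcongr
    _ = _ := by ring

end Dat
end H330GGC
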