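import Pool.Agent.H330R3.GGC.A1
open MeasureTheory Real ProbabilityTheory Set Filter
open scoped ENNReal Topology

set_option maxHeartbeats 1000000

namespace H330GGC
namespace Dat
variable (D : Dat)

noncomputable def cc (s : ℂ) : ℂ := Complex.exp (-s / 2)

lemma norm_cc (s : ℂ) : ‖cc s‖ = Real.exp (-s.re / 2) := by
  unfold cc
  rw [Complex.norm_exp]
  congr 1
  rw [show (2:ℂ) = ((2:ℝ):ℂ) by norm_num, Complex.div_ofReal_re, Complex.neg_re]

lemma re_cc (s : ℂ) : (cc s).re = Real.exp (-s.re / 2) * Real.cos (s.im / 2) := by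
  unfold cc
  rw [Complex.exp_re, show (2:ℂ) = ((2:ℝ):ℂ) by norm_num, Complex.div_ofReal_re,
    Complex.div_ofReal_im, Complex.neg_re, Complex.neg_im, neg_div 2 s.im, Real.cos_neg]

lemma re_cc_pos {s : ℂ} (hs : |s.im| < π) : 0 < (cc s).re := by
  rw [re_cc]
  have : 0 < Real.cos (s.im / 2) := by
    rw [abs_lt] at hs
    exact Real.cos_pos_of_mem_Ioo ⟨by linarith [hs.1], by linarith [hs.2]⟩
  positivity

noncomputable def H (s : ℂ) : ℂ := D.k / 2 + (1 / 2) * (cc s * deriv D.P (cc s) / D.P (cc s))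

lemma H_analyticAt {s : ℂ} (hs : |s.im| < π) : AnalyticAt ℂ D.H s := by
  unfold H
  have h1 := re_cc_pos hs
  have hcc : AnalyticAt ℂ cc s := by unfold cc; fun_prop
  have hP : AnalyticAt ℂ (fun s => D.P (cc s)) s := (D.P_analyticAt h1).comp hcc
  have hP' : AnalyticAt ℂ (fun s => deriv D.P (cc s)) s := (D.P_analyticAt h1).deriv.comp hcc
  have := D.P_ne_zero h1
  fun_prop (disch := assumption)

lemma H_bound {p : ℝ} (hp0 : 0 < p) (hp : p < 1) : ∃ C : ℝ, 0 ≤ C ∧ ∀ s : ℂ, |s.im| ≤ p * π → ‖D.H s‖ ≤ C := by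
  set η := Real.cos (p * π / 2) with hη
  have hη0 : 0 < η := Real.cos_pos_of_mem_Ioo ⟨by nlinarith [Real.pi_pos], by nlinarith [Real.pi_pos]⟩
  obtain ⟨C, hC⟩ := D.deriv_bound hη0 (Real.cos_le_one _)
  refine ⟨|D.k| / 2 + |C| / 2, by positivity, ?_⟩
  intro s hs
  have hs' : |s.im| < π := by nlinarith [Real.pi_pos]
  have h1 := re_cc_pos hs'
  have h2 : η * ‖cc s‖ ≤ (cc s).re := by
    rw [norm_cc, re_cc, mul_comm]
    apply mul_le_mul_of_nonneg_left _ (Real.exp_pos _).le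
    rw [hη, ← Real.cos_abs (s.im / 2)]
    apply Real.cos_le_cos_of_nonneg_of_le_pi (abs_nonneg _) (by nlinarith [Real.pi_pos])
    rw [abs_div, abs_two]
    linarith
  have h3 := hC _ h1 h2
  have h4 : 0 < ‖D.P (cc s)‖ := norm_pos_iff.mpr (D.P_ne_zero h1)
  unfold H
  have h5 : ‖cc s * deriv D.P (cc s) / D.P (cc s)‖ ≤ |C| := by
    rw [norm_div, div_le_iff₀ h4]
    exact h3.trans (mul_le_mul_of_nonneg_right (le_abs_self C) h4.le)
  calc ‖(D.k:ℂ) / 2 + (1 / 2) * (cc s * deriv D.P (cc s) / D.P (cc s))‖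
      ≤ ‖(D.k:ℂ) / 2‖ + ‖(1 / 2) * (cc s * deriv D.P (cc s) / D.P (cc s))‖ := norm_add_le _ _
    _ = |D.k| / 2 + (1 / 2) * ‖cc s * deriv D.P (cc s) / D.P (cc s)‖ := by
        rw [norm_div, norm_mul, Complex.norm_real, Real.norm_eq_abs]
        norm_num
    _ ≤ |D.k| / 2 + (1 / 2) * |C| := by gcongr
    _ = _ := by ring

lemma H_im_nonneg {s : ℂ} (h0 : 0 < s.im) (h1 : s.im < π) : 0 ≤ (D.H s).im := by
  set x := s.re with hx
  set g : ℝ → ℝ := fun y => ‖D.P (cc (x + y * Complex.I))‖ ^ 2 with hg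
  have him : ∀ y : ℝ, ((x:ℂ) + y * Complex.I).im = y := by intro y; simp
  have hre : ∀ y : ℝ, ((x:ℂ) + y * Complex.I).re = x := by intro y; simp
  have hmono : MonotoneOn g (Set.Ioo 0 π) := by
    intro y hy y' hy' hyy
    simp only [hg]
    have hpos : 0 < (cc (x + y' * Complex.I)).re := by
      apply re_cc_pos
      rw [him, abs_lt]; constructor <;> linarith [hy'.1, hy'.2]
    have h := D.P_norm_mono (c := cc (x + y' * Complex.I)) (c' := cc (x + y * Complex.I)) hpos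
      (by
        rw [re_cc, re_cc, him, him, hre, hre]
        apply mul_le_mul_of_nonneg_left _ (Real.exp_pos _).le
        apply Real.cos_le_cos_of_nonneg_of_le_pi (by linarith [hy.1]) (by linarith [hy'.2]) (by linarith))
      (by rw [norm_cc, norm_cc, hre, hre])
    gcongr
  have hs : s = (x:ℂ) + s.im * Complex.I := (Complex.re_add_im s).symm
  have hpos : 0 < (cc ((x:ℂ) + s.im * Complex.I)).re := by
    apply re_cc_pos
    rw [him, abs_lt]; constructor <;> linarith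
  set c := cc ((x:ℂ) + s.im * Complex.I) with hc
  have hd : HasDerivAt (fun y : ℝ => D.P (cc (x + y * Complex.I)))
      (deriv D.P c * (c * (-(Complex.I) / 2))) s.im := by
    have h1 : HasDerivAt (fun z : ℂ => cc (x + z * Complex.I)) (c * (-(Complex.I) / 2)) (s.im : ℂ) := by
      unfold cc
      have h2 : HasDerivAt (fun z : ℂ => -((x:ℂ) + z * Complex.I) / 2) (-(Complex.I) / 2) (s.im : ℂ) := by
        have := (((hasDerivAt_id (s.im:ℂ)).mul_const Complex.I).const_add (x:ℂ)).neg.div_const 2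
        simpa using this
      exact h2.cexp
    have h3 : HasDerivAt (fun z : ℂ => D.P (cc (x + z * Complex.I)))
        (deriv D.P c * (c * (-(Complex.I) / 2))) (s.im : ℂ) := by
      have h4 : HasDerivAt D.P (deriv D.P c) (cc ((x:ℂ) + s.im * Complex.I)) :=
        (D.P_analyticAt hpos).differentiableAt.hasDerivAt
      exact h4.comp (s.im:ℂ) h1
    exact h3.comp_ofReal
  have hd2 := hd.norm_sq
  have hdn : 0 ≤ 2 * inner ℝ (D.P c) (deriv D.P c * (c * (-(Complex.I) / 2))) := by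
    have h1' := h1
    have h1 := hmono.derivWithin_nonneg (x := s.im)
    rw [derivWithin_of_isOpen isOpen_Ioo ⟨h0, h1'⟩] at h1
    have h2 : deriv g s.im = 2 * inner ℝ (D.P c) (deriv D.P c * (c * (-(Complex.I) / 2))) := hd2.deriv
    rwa [h2] at h1
  have hne := D.P_ne_zero hpos
  have hnp : 0 < ‖D.P c‖ ^ 2 := by
    have := norm_pos_iff.mpr hne
    positivity
  have key : 2 * inner ℝ (D.P c) (deriv D.P c * (c * (-(Complex.I) / 2))) = 2 * ‖D.P c‖ ^ 2 * (D.H s).im := by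
    rw [Complex.inner]
    have e1 : D.H s = D.k / 2 + (1 / 2) * (c * deriv D.P c / D.P c) := by
      unfold H; rw [hc, ← hs]
    have e2 : (D.H s).im = (1 / 2) * (c * deriv D.P c / D.P c).im := by
      rw [e1, Complex.add_im]
      have : ((D.k:ℂ) / 2).im = 0 := by
        rw [show (2:ℂ) = ((2:ℝ):ℂ) by norm_num, Complex.div_ofReal_im, Complex.ofReal_im, zero_div]
      rw [this, zero_add, show ((1:ℂ) / 2) = ((1/2:ℝ):ℂ) by push_cast; rfl, Complex.im_ofReal_mul]
    have e3 : starRingEnd ℂ (D.P c) * (c * deriv D.P c) = ((‖D.P c‖ ^ 2 : ℝ) : ℂ) * (c * deriv D.P c / D.P c) := by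
      have : ((‖D.P c‖ ^ 2 : ℝ) : ℂ) = starRingEnd ℂ (D.P c) * D.P c := by
        rw [← Complex.normSq_eq_conj_mul_self, Complex.normSq_eq_norm_sq]
      rw [this]
      field_simp
    have e4 : (deriv D.P c * (c * (-(Complex.I) / 2))) * starRingEnd ℂ (D.P c)
        = (starRingEnd ℂ (D.P c) * (c * deriv D.P c)) * (-(Complex.I) / 2) := by ring
    rw [e4, e3, e2]
    set z := c * deriv D.P c / D.P c with hz
    have e5 : ((((‖D.P c‖ ^ 2 : ℝ) : ℂ) * z) * (-(Complex.I) / 2)).re = ‖D.P c‖ ^ 2 * z.im / 2 := by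
      have : ((((‖D.P c‖ ^ 2 : ℝ) : ℂ) * z) * (-(Complex.I) / 2)) = ((‖D.P c‖ ^ 2 / 2 : ℝ) : ℂ) * (-(z * Complex.I)) := by
        push_cast; ring
      rw [this, Complex.re_ofReal_mul, Complex.neg_re, Complex.mul_I_re]
      ring
    rw [e5]
    ring
  rw [key] at hdn
  have : 0 ≤ (2 * ‖D.P c‖ ^ 2) * (D.H s).im := hdn
  exact nonneg_of_mul_nonneg_right this (by positivity)

lemma H_conj (s : ℂ) (hs : |s.im| < π) : D.H (starRingEnd ℂ s) = starRingEnd ℂ (D.H s) := by
  unfold H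
  have h1 : cc (starRingEnd ℂ s) = starRingEnd ℂ (cc s) := by
    unfold cc
    rw [← Complex.exp_conj, map_div₀, map_neg, Complex.conj_ofNat]
  have h2 : deriv D.P (starRingEnd ℂ (cc s)) = starRingEnd ℂ (deriv D.P (cc s)) := by
    have hpos := re_cc_pos hs
    rw [(D.P_hasDerivAt hpos).deriv, (D.P_hasDerivAt (z := starRingEnd ℂ (cc s)) (by simpa using hpos)).deriv,
      ← integral_conj]
    congr 1
    ext t
    rw [map_mul, Complex.conj_ofReal, ← Complex.exp_conj, map_mul, Complex.conj_ofReal]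
  rw [h1, h2, P_conj]
  simp [Complex.conj_ofNat]

end Dat
end H330GGC
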