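import Mathlib
open MeasureTheory Real Set Filter
open scoped ENNReal Topology

set_option maxHeartbeats 1000000

namespace H330GGC

/-- the quotient `(H s - H s0)/(exp (q (s - s0)) - 1)` with the singularity removed -/
noncomputable def Fq (H : ℂ → ℂ) (q s0 : ℝ) (s : ℂ) : ℂ :=
  dslope H s0 s / dslope (fun s : ℂ => Complex.exp (q * (s - s0))) s0 s

lemma Fq_eq (H : ℂ → ℂ) (q s0 : ℝ) {s : ℂ} (hs : s ≠ s0) :
    Fq H q s0 s = (H s - H s0) / (Complex.exp (q * (s - s0)) - 1) := by
  unfold Fq
  rw [dslope_of_ne _ hs, dslope_of_ne _ hs, slope_def_field, slope_def_field]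
  have : s - s0 ≠ 0 := sub_ne_zero.mpr hs
  rw [div_div_div_cancel_right₀ this]
  simp

lemma dslope_exp_ne {q s0 : ℝ} (hq : 0 < q) {s : ℂ} (hs : |s.im| < 2 * π / q) :
    dslope (fun s : ℂ => Complex.exp (q * (s - s0))) s0 s ≠ 0 := by
  by_cases h : s = s0
  · subst h
    rw [dslope_same]
    have : HasDerivAt (fun s : ℂ => Complex.exp (q * (s - s0))) (Complex.exp (q * ((s0:ℂ) - s0)) * (q * 1)) (s0:ℂ) := by
      have h1 : HasDerivAt (fun s : ℂ => (q:ℂ) * (s - s0)) (q * 1) (s0:ℂ) :=
        ((hasDerivAt_id (s0:ℂ)).sub_const (s0:ℂ)).const_mul (q:ℂ)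
      exact h1.cexp
    rw [this.deriv]
    simp [hq.ne']
  · rw [dslope_of_ne _ h, slope_def_field]
    have h1 : s - s0 ≠ 0 := sub_ne_zero.mpr h
    apply div_ne_zero _ h1
    simp only [sub_self, mul_zero, Complex.exp_zero]
    intro h2
    have h3 : Complex.exp (q * (s - s0)) = 1 := by linear_combination h2
    rw [Complex.exp_eq_one_iff] at h3
    obtain ⟨n, hn⟩ := h3
    have him := congrArg Complex.im hn
    have hre := congrArg Complex.re hn
    simp only [Complex.mul_re, Complex.mul_im, Complex.ofReal_re, Complex.ofReal_im, Complex.sub_re,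
      Complex.sub_im, Complex.I_re, Complex.I_im, Complex.intCast_re, Complex.intCast_im] at him hre
    norm_num at him hre
    rcases hre with hre | hre
    · exact hq.ne' hre
    · have hn0 : n = 0 := by
        have h5 : |q * s.im| < 2 * π := by
          rw [abs_mul, abs_of_pos hq]
          rw [lt_div_iff₀ hq] at hs
          linarith
        rw [him, abs_mul, abs_of_pos (by positivity : (0:ℝ) < 2 * π)] at h5
        have h6 : |(n:ℝ)| < 1 := by
          by_contra hcon
          push Not at hcon
          nlinarith [Real.pi_pos]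
        have h7 : |n| < 1 := by exact_mod_cast h6
        rwa [Int.abs_lt_one_iff] at h7
      rw [hn0] at him
      simp [hq.ne'] at him
      apply h
      apply Complex.ext
      · simpa using sub_eq_zero.mp hre
      · simpa using him

lemma Fq_differentiableOn {H : ℂ → ℂ} {q s0 b' : ℝ} (hq : 0 < q) (hb' : 0 < b') (hbq : b' ≤ 2 * π / q)
    (hH : DifferentiableOn ℂ H {s : ℂ | |s.im| < b'}) :
    DifferentiableOn ℂ (Fq H q s0) {s : ℂ | |s.im| < b'} := by
  have hopen : IsOpen {s : ℂ | |s.im| < b'} :=
    isOpen_lt (Complex.continuous_im.abs) continuous_const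
  have hmem : {s : ℂ | |s.im| < b'} ∈ 𝓝 (s0:ℂ) := hopen.mem_nhds (by simp [hb'])
  unfold Fq
  apply DifferentiableOn.div
  · rw [Complex.differentiableOn_dslope hmem]; exact hH
  · rw [Complex.differentiableOn_dslope hmem]
    have : Differentiable ℂ (fun s : ℂ => Complex.exp (q * (s - s0))) := by fun_prop
    exact this.differentiableOn
  · intro s hs
    exact dslope_exp_ne hq (lt_of_lt_of_le hs hbq)

noncomputable def ka (q s0 x : ℝ) : ℝ := 1 / (1 + Real.exp (q * (x - s0)))

lemma ka_pos (q s0 x : ℝ) : 0 < ka q s0 x := by unfold ka; positivity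

lemma ka_mono {q s0 s1 x : ℝ} (hq : 0 < q) (h : s1 ≤ s0) : ka q s1 x ≤ ka q s0 x := by
  unfold ka
  apply one_div_le_one_div_of_le (by positivity)
  have : Real.exp (q * (x - s0)) ≤ Real.exp (q * (x - s1)) := by
    apply Real.exp_le_exp.mpr
    nlinarith
  linarith

/-- value of the kernel on the boundary lines -/
lemma Fq_top (H : ℂ → ℂ) {q b : ℝ} (hb : 0 < b) (hqb : q * b = π) (s0 x : ℝ) :
    Fq H q s0 (x + b * Complex.I) = -(H (x + b * Complex.I) - H s0) * ka q s0 x := by
  rw [Fq_eq]
  · have : Complex.exp (q * ((x:ℂ) + b * Complex.I - s0)) = -(Real.exp (q * (x - s0)) : ℂ) := by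
      have e1 : (q:ℂ) * ((x:ℂ) + b * Complex.I - s0) = ((q * (x - s0) : ℝ) : ℂ) + π * Complex.I := by
        rw [← hqb]; push_cast; ring
      rw [e1, Complex.exp_add, Complex.exp_pi_mul_I]
      push_cast; ring
    rw [this]
    unfold ka
    have h2 : (1 + Real.exp (q * (x - s0)) : ℂ) ≠ 0 := by
      have : (0:ℝ) < 1 + Real.exp (q * (x - s0)) := by positivity
      exact_mod_cast this.ne'
    have h3 : (-(Real.exp (q * (x - s0)) : ℂ) - 1) ≠ 0 := by
      intro h; apply h2; linear_combination -h
    push_cast at h2 h3 ⊢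
    field_simp
    ring
  · intro h
    have := congrArg Complex.im h
    simp at this
    exact hb.ne' this

lemma Fq_bot (H : ℂ → ℂ) {q b : ℝ} (hb : 0 < b) (hqb : q * b = π) (s0 x : ℝ) :
    Fq H q s0 (x + (-b : ℝ) * Complex.I) = -(H (x + (-b : ℝ) * Complex.I) - H s0) * ka q s0 x := by
  rw [Fq_eq]
  · have : Complex.exp (q * ((x:ℂ) + (-b : ℝ) * Complex.I - s0)) = -(Real.exp (q * (x - s0)) : ℂ) := by
      have e1 : (q:ℂ) * ((x:ℂ) + (-b : ℝ) * Complex.I - s0) = ((q * (x - s0) : ℝ) : ℂ) + (-(π * Complex.I)) := by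
        rw [← hqb]; push_cast; ring
      rw [e1, Complex.exp_add, Complex.exp_neg, Complex.exp_pi_mul_I]
      push_cast; ring
    rw [this]
    unfold ka
    have h2 : (1 + Real.exp (q * (x - s0)) : ℂ) ≠ 0 := by
      have : (0:ℝ) < 1 + Real.exp (q * (x - s0)) := by positivity
      exact_mod_cast this.ne'
    have h3 : (-(Real.exp (q * (x - s0)) : ℂ) - 1) ≠ 0 := by
      intro h; apply h2; linear_combination -h
    push_cast at h2 h3 ⊢
    field_simp
    ring
  · intro h
    have := congrArg Complex.im h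
    simp at this
    exact hb.ne' this

end H330GGC

namespace H330GGC

lemma Fq_bound_right {H : ℂ → ℂ} {q s0 C R y : ℝ} (hq : 0 < q) (hR : s0 < R)
    (h0 : ‖H s0‖ ≤ C) (h1 : ‖H ((R:ℂ) + y * Complex.I)‖ ≤ C) :
    ‖Fq H q s0 ((R:ℂ) + y * Complex.I)‖ ≤ 2 * C / (Real.exp (q * (R - s0)) - 1) := by
  rw [Fq_eq]
  · rw [norm_div]
    have h2 : 0 < Real.exp (q * (R - s0)) - 1 := by
      have : 1 < Real.exp (q * (R - s0)) := Real.one_lt_exp_iff.mpr (by nlinarith)
      linarith
    have h3 : Real.exp (q * (R - s0)) - 1 ≤ ‖Complex.exp (q * ((R:ℂ) + y * Complex.I - s0)) - 1‖ := by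
      have h4 : ‖Complex.exp (q * ((R:ℂ) + y * Complex.I - s0))‖ = Real.exp (q * (R - s0)) := by
        rw [Complex.norm_exp]
        congr 1
        simp
      have h5 := norm_sub_norm_le (Complex.exp (q * ((R:ℂ) + y * Complex.I - s0))) 1
      rw [h4, norm_one] at h5
      exact h5
    have h6 : ‖H ((R:ℂ) + y * Complex.I) - H s0‖ ≤ 2 * C := by
      have := norm_sub_le (H ((R:ℂ) + y * Complex.I)) (H s0)
      linarith
    have h7 : 0 ≤ 2 * C := by have := norm_nonneg (H s0); linarith
    exact div_le_div₀ h7 h6 h2 h3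
  · intro h
    have := congrArg Complex.re h
    simp at this
    linarith

lemma Fq_bound_left {H : ℂ → ℂ} {q s0 C R y : ℝ} (hq : 0 < q) (hR : -R < s0)
    (h0 : ‖H s0‖ ≤ C) (h1 : ‖H ((-R:ℝ) + y * Complex.I)‖ ≤ C) :
    ‖Fq H q s0 ((-R:ℝ) + y * Complex.I) + (H ((-R:ℝ) + y * Complex.I) - H s0)‖ ≤
      2 * C * (Real.exp (-(q * (R + s0))) / (1 - Real.exp (-(q * (R + s0))))) := by
  rw [Fq_eq]
  · set e := Complex.exp (q * (((-R:ℝ):ℂ) + y * Complex.I - s0)) with he
    have hen : ‖e‖ = Real.exp (-(q * (R + s0))) := by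
      rw [he, Complex.norm_exp]
      congr 1
      simp
      ring
    have hlt : Real.exp (-(q * (R + s0))) < 1 := by
      rw [Real.exp_lt_one_iff]
      nlinarith
    have hne : e - 1 ≠ 0 := by
      intro h
      have : e = 1 := by linear_combination h
      rw [this, norm_one] at hen
      linarith
    have h2 : (H ((-R:ℝ) + y * Complex.I) - H s0) / (e - 1) + (H ((-R:ℝ) + y * Complex.I) - H s0)
        = (H ((-R:ℝ) + y * Complex.I) - H s0) * (e / (e - 1)) := by
      field_simp
      ring
    rw [h2, norm_mul, norm_div, hen]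
    have h6 : ‖H ((-R:ℝ) + y * Complex.I) - H s0‖ ≤ 2 * C := by
      have := norm_sub_le (H ((-R:ℝ) + y * Complex.I)) (H s0)
      linarith
    have h3 : 1 - Real.exp (-(q * (R + s0))) ≤ ‖e - 1‖ := by
      have h5 := norm_sub_norm_le (1:ℂ) e
      rw [hen, norm_one] at h5
      rw [norm_sub_rev]
      exact h5
    have h4 : 0 < 1 - Real.exp (-(q * (R + s0))) := by linarith
    have h7 : 0 ≤ 2 * C := by have := norm_nonneg (H s0); linarith
    gcongr
  · intro h
    have := congrArg Complex.re h
    simp at this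
    linarith

theorem strip_rep {H : ℂ → ℂ} {q b C : ℝ} (hq : 0 < q) (hb : 0 < b) (hqb : q * b = π)
    {b' : ℝ} (hbb' : b < b')
    (hH : DifferentiableOn ℂ H {s : ℂ | |s.im| < b'})
    (hC : ∀ s : ℂ, |s.im| ≤ b → ‖H s‖ ≤ C)
    (hconj : ∀ x : ℝ, H (x + (-b : ℝ) * Complex.I) = starRingEnd ℂ (H (x + b * Complex.I)))
    (hnn : ∀ x : ℝ, 0 ≤ (H (x + b * Complex.I)).im) {s0 s1 : ℝ} (h10 : s1 < s0) :
    Integrable (fun x : ℝ => (H (x + b * Complex.I)).im * (ka q s0 x - ka q s1 x)) ∧
    ∫ x : ℝ, (H (x + b * Complex.I)).im * (ka q s0 x - ka q s1 x) = b * ((H s0).re - (H s1).re) := by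
  set b'' := min b' (2 * b) with hb''
  have hb1 : b < b'' := lt_min hbb' (by linarith)
  have hb0 : 0 < b'' := by linarith
  have hbq : b'' ≤ 2 * π / q := by
    rw [← hqb]
    have : 2 * (q * b) / q = 2 * b := by field_simp
    rw [this]; exact min_le_right _ _
  have hH' : DifferentiableOn ℂ H {s : ℂ | |s.im| < b''} :=
    hH.mono (fun s hs => by
      have h1 : |s.im| < b'' := hs
      exact lt_of_lt_of_le h1 (min_le_left _ _))
  set F : ℂ → ℂ := fun s => Fq H q s0 s - Fq H q s1 s with hF
  have hFd : DifferentiableOn ℂ F {s : ℂ | |s.im| < b''} :=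
    (Fq_differentiableOn hq hb0 hbq hH').sub (Fq_differentiableOn hq hb0 hbq hH')
  set G : ℝ → ℝ := fun x : ℝ => (H (x + b * Complex.I)).im * (ka q s0 x - ka q s1 x) with hG
  have hGnn : ∀ x, 0 ≤ G x := fun x => mul_nonneg (hnn x) (by
    have := ka_mono (x := x) hq h10.le; linarith)
  have hHc : Continuous (fun x : ℝ => H (x + b * Complex.I)) := by
    have h1 := hH'.continuousOn
    apply h1.comp_continuous (by fun_prop)
    intro x
    show |((x:ℂ) + b * Complex.I).im| < b''
    simp [abs_of_pos hb]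
    exact hb1
  have hkac : ∀ s0, Continuous (fun x : ℝ => ka q s0 x) := by
    intro s0
    unfold ka
    apply Continuous.div (by fun_prop) (by fun_prop)
    intro x; positivity
  have hGc : Continuous G := by
    have h2 := hkac s0
    have h3 := hkac s1
    have h4 := Complex.continuous_im.comp hHc
    exact h4.mul (h2.sub h3)
  -- vertical integrals
  set V : ℝ → ℂ := fun R => ∫ y : ℝ in (-b)..b, F ((R:ℂ) + y * Complex.I) with hV
  have hrect : ∀ R : ℝ, 0 ≤ R → ((∫ x in (-R)..R, G x : ℝ) : ℂ) = (V (-R) - V R) / 2 := by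
    intro R hR
    have h := Complex.integral_boundary_rect_eq_zero_of_differentiableOn F (⟨-R, -b⟩ : ℂ) (⟨R, b⟩ : ℂ) (by
      apply hFd.mono
      intro s hs
      rw [Complex.mem_reProdIm] at hs
      have h2 := hs.2
      simp only at h2
      rw [uIcc_of_le (by linarith)] at h2
      show |s.im| < b''
      rw [abs_lt]
      constructor <;> linarith [h2.1, h2.2])
    simp only at h
    have h1 : (∫ x : ℝ in (-R)..R, F (x + (-b:ℝ) * Complex.I)) - (∫ x : ℝ in (-R)..R, F (x + b * Complex.I))
        = 2 * Complex.I * ((∫ x in (-R)..R, G x : ℝ) : ℂ) := by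
      have hc1 : ∀ β : ℝ, |β| < b'' → Continuous (fun x : ℝ => F (x + β * Complex.I)) := by
        intro β hβ
        apply hFd.continuousOn.comp_continuous (by fun_prop)
        intro x
        show |((x:ℂ) + β * Complex.I).im| < b''
        simpa using hβ
      rw [← intervalIntegral.integral_sub]
      · rw [← intervalIntegral.integral_ofReal, ← intervalIntegral.integral_const_mul]
        apply intervalIntegral.integral_congr
        intro x _
        simp only [hF, hG]
        rw [Fq_top H hb hqb, Fq_top H hb hqb, Fq_bot H hb hqb, Fq_bot H hb hqb, hconj x]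
        have h3 := Complex.sub_conj (H (x + b * Complex.I))
        push_cast at h3 ⊢
        linear_combination ((ka q s0 x : ℂ) - ka q s1 x) * h3
      · exact (hc1 (-b) (by rw [abs_neg, abs_of_pos hb]; exact hb1)).intervalIntegrable _ _
      · exact (hc1 b (by rw [abs_of_pos hb]; exact hb1)).intervalIntegrable _ _
    rw [h1] at h
    have h2 : (2 * Complex.I * ((∫ x in (-R)..R, G x : ℝ) : ℂ)) + Complex.I * V R - Complex.I * V (-R) = 0 := by
      have := h
      simp only [smul_eq_mul] at this
      rw [hV]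
      exact this
    have h3 : Complex.I * (2 * ((∫ x in (-R)..R, G x : ℝ) : ℂ) + V R - V (-R)) = 0 := by
      linear_combination h2
    have h4 := (mul_eq_zero.mp h3).resolve_left Complex.I_ne_zero
    linear_combination h4 / 2
  have hbd : ∀ s : ℝ, ‖H s‖ ≤ C := fun s => hC s (by simp [hb.le])
  have hbd2 : ∀ x y : ℝ, y ∈ Set.uIoc (-b) b → ‖H ((x:ℂ) + y * Complex.I)‖ ≤ C := by
    intro x y hy
    apply hC
    rw [uIoc_of_le (by linarith)] at hy
    simp only [Complex.add_im, Complex.ofReal_im, Complex.mul_im, Complex.ofReal_re, Complex.I_im,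
      mul_one, Complex.I_re, mul_zero, add_zero, zero_add]
    rw [abs_le]; constructor <;> linarith [hy.1, hy.2]
  have hexp : ∀ s : ℝ, Tendsto (fun R : ℝ => Real.exp (q * (R - s))) atTop atTop := by
    intro s
    apply Real.tendsto_exp_atTop.comp
    apply Tendsto.const_mul_atTop hq
    exact tendsto_atTop_add_const_right _ _ tendsto_id
  have hVR : Tendsto V atTop (𝓝 0) := by
    apply squeeze_zero_norm' (a := fun R => (2 * C / (Real.exp (q * (R - s0)) - 1) +
      2 * C / (Real.exp (q * (R - s1)) - 1)) * |b - (-b)|)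
    · filter_upwards [eventually_gt_atTop s0] with R hR
      apply intervalIntegral.norm_integral_le_of_norm_le_const
      intro y hy
      simp only [hF]
      refine (norm_sub_le _ _).trans ?_
      exact add_le_add (Fq_bound_right hq hR (hbd _) (hbd2 R y hy))
        (Fq_bound_right hq (h10.trans hR) (hbd _) (hbd2 R y hy))
    · have h1 : ∀ s : ℝ, Tendsto (fun R : ℝ => 2 * C / (Real.exp (q * (R - s)) - 1)) atTop (𝓝 0) := by
        intro s
        apply Tendsto.const_div_atTop
        exact tendsto_atTop_add_const_right _ _ (hexp s)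
      have := ((h1 s0).add (h1 s1)).mul_const |b - (-b)|
      simpa using this
  have hVL : Tendsto (fun R => V (-R)) atTop (𝓝 (2 * b * (H s0 - H s1))) := by
    rw [tendsto_iff_norm_sub_tendsto_zero]
    apply squeeze_zero' (g := fun R => (2 * C * (Real.exp (-(q * (R + s0))) / (1 - Real.exp (-(q * (R + s0))))) +
      2 * C * (Real.exp (-(q * (R + s1))) / (1 - Real.exp (-(q * (R + s1)))))) * |b - (-b)|)
    · exact Eventually.of_forall (fun R => norm_nonneg _)
    · filter_upwards [eventually_gt_atTop (-s1)] with R hR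
      have hi : V (-R) - 2 * b * (H s0 - H s1) = ∫ y : ℝ in (-b)..b,
          (F (((-R:ℝ):ℂ) + y * Complex.I) - (H s0 - H s1)) := by
        rw [intervalIntegral.integral_sub, intervalIntegral.integral_const]
        · simp only [hV]
          congr 1
          rw [Complex.real_smul]
          push_cast; ring
        · have hc : ContinuousOn (fun y : ℝ => F (((-R:ℝ):ℂ) + y * Complex.I)) (Set.uIcc (-b) b) := by
            apply hFd.continuousOn.comp (by fun_prop)
            intro y hy
            rw [uIcc_of_le (by linarith)] at hy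
            show |(((-R:ℝ):ℂ) + y * Complex.I).im| < b''
            simp only [Complex.add_im, Complex.ofReal_im, Complex.mul_im, Complex.ofReal_re, Complex.I_im,
              mul_one, Complex.I_re, mul_zero, add_zero, zero_add]
            rw [abs_lt]; constructor <;> linarith [hy.1, hy.2]
          exact hc.intervalIntegrable
        · exact intervalIntegrable_const
      rw [hi]
      apply intervalIntegral.norm_integral_le_of_norm_le_const
      intro y hy
      have e1 : F (((-R:ℝ):ℂ) + y * Complex.I) - (H s0 - H s1)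
          = (Fq H q s0 ((-R:ℝ) + y * Complex.I) + (H ((-R:ℝ) + y * Complex.I) - H s0))
           - (Fq H q s1 ((-R:ℝ) + y * Complex.I) + (H ((-R:ℝ) + y * Complex.I) - H s1)) := by
        simp only [hF]; ring
      rw [e1]
      refine (norm_sub_le _ _).trans ?_
      exact add_le_add (Fq_bound_left hq (by linarith) (hbd _) (hbd2 (-R) y hy))
        (Fq_bound_left hq (by linarith) (hbd _) (hbd2 (-R) y hy))
    · have h1 : ∀ s : ℝ, Tendsto (fun R : ℝ => 2 * C * (Real.exp (-(q * (R + s))) / (1 - Real.exp (-(q * (R + s)))))) atTop (𝓝 0) := by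
        intro s
        have h2 : Tendsto (fun R : ℝ => Real.exp (-(q * (R + s)))) atTop (𝓝 0) := by
          have := (hexp (-s))
          have h3 := tendsto_inv_atTop_zero.comp this
          refine h3.congr (fun R => ?_)
          simp only [Function.comp]
          rw [← Real.exp_neg]; congr 1; ring
        have h3 : Tendsto (fun R : ℝ => 1 - Real.exp (-(q * (R + s)))) atTop (𝓝 (1 - 0)) :=
          tendsto_const_nhds.sub h2
        have h4 := (h2.div h3 (by norm_num)).const_mul (2 * C)
        simpa using h4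
      have := ((h1 s0).add (h1 s1)).mul_const |b - (-b)|
      simpa using this
  -- the limit of the horizontal integrals
  have hlimC : Tendsto (fun R : ℝ => ((∫ x in (-R)..R, G x : ℝ) : ℂ)) atTop
      (𝓝 (b * (H s0 - H s1))) := by
    have h1 := (hVL.sub hVR).div_const 2
    have h2 : (2 * (b:ℂ) * (H s0 - H s1) - 0) / 2 = b * (H s0 - H s1) := by ring
    rw [h2] at h1
    apply h1.congr'
    filter_upwards [eventually_ge_atTop (0:ℝ)] with R hR
    rw [hrect R hR]
  have hlim : Tendsto (fun R : ℝ => ∫ x in (-R)..R, G x) atTop (𝓝 (b * ((H s0).re - (H s1).re))) := by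
    have h1 := (Complex.continuous_re.tendsto _).comp hlimC
    have h2 : ((b:ℂ) * (H s0 - H s1)).re = b * ((H s0).re - (H s1).re) := by
      rw [Complex.re_ofReal_mul, Complex.sub_re]
    rw [h2] at h1
    exact h1
  have hcover : AECover (volume : Measure ℝ) atTop (fun R : ℝ => Set.Ioc (-R) R) :=
    aecover_Ioc tendsto_neg_atTop_atBot tendsto_id
  have hlim2 : Tendsto (fun R : ℝ => ∫ x in Set.Ioc (-R) R, G x) atTop (𝓝 (b * ((H s0).re - (H s1).re))) := by
    apply hlim.congr'
    filter_upwards [eventually_ge_atTop (0:ℝ)] with R hR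
    rw [intervalIntegral.integral_of_le (by linarith)]
  have hfi : ∀ R : ℝ, IntegrableOn G (Set.Ioc (-R) R) := fun R =>
    (hGc.integrableOn_Icc (a := -R) (b := R)).mono_set Ioc_subset_Icc_self
  refine ⟨hcover.integrable_of_integral_tendsto_of_nonneg_ae _ hfi (Eventually.of_forall hGnn) hlim2, ?_⟩
  exact hcover.integral_eq_of_tendsto_of_nonneg_ae _ (Eventually.of_forall hGnn) hfi hlim2

end H330GGC
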