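import Pool.Agent.H330R3.GGC.A2
import Pool.Agent.H330R3.GGC.A3
open MeasureTheory Real ProbabilityTheory Set Filter
open scoped ENNReal Topology

set_option maxHeartbeats 1000000

namespace H330GGC

lemma lintegral_Iic_ftc {Λ h : ℝ → ℝ} (hd : ∀ s, HasDerivAt Λ (h s) s) (hc : Continuous h)
    (hnn : ∀ s, 0 ≤ h s) {ℓ : ℝ} (hl : Tendsto Λ atBot (𝓝 ℓ)) (S : ℝ) :
    ∫⁻ s in Set.Iic S, ENNReal.ofReal (h s) = ENNReal.ofReal (Λ S - ℓ) := by
  have hcover : AECover (volume.restrict (Set.Iic S)) atTop (fun n : ℕ => Set.Ioi (-(n:ℝ))) :=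
    aecover_Ioi (tendsto_neg_atTop_atBot.comp tendsto_natCast_atTop_atTop)
  have hint : ∀ n : ℕ, ∫ s in Set.Ioi (-(n:ℝ)), h s ∂(volume.restrict (Set.Iic S))
      = ∫ s in Set.Ioc (-(n:ℝ)) S, h s := by
    intro n
    rw [Measure.restrict_restrict measurableSet_Ioi]
    rfl
  have hfi : ∀ n : ℕ, IntegrableOn h (Set.Ioi (-(n:ℝ))) (volume.restrict (Set.Iic S)) := by
    intro n
    unfold IntegrableOn
    rw [Measure.restrict_restrict measurableSet_Ioi]
    exact (hc.integrableOn_Icc (a := -(n:ℝ)) (b := S)).mono_set Ioc_subset_Icc_self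
  have hlim : Tendsto (fun n : ℕ => ∫ s in Set.Ioi (-(n:ℝ)), h s ∂(volume.restrict (Set.Iic S))) atTop
      (𝓝 (Λ S - ℓ)) := by
    have h1 : Tendsto (fun n : ℕ => Λ S - Λ (-(n:ℝ))) atTop (𝓝 (Λ S - ℓ)) :=
      tendsto_const_nhds.sub (hl.comp (tendsto_neg_atTop_atBot.comp tendsto_natCast_atTop_atTop))
    apply h1.congr'
    have : ∀ᶠ n : ℕ in atTop, -S ≤ n := tendsto_natCast_atTop_atTop.eventually_ge_atTop (-S)
    filter_upwards [this] with n hn
    rw [hint n, ← intervalIntegral.integral_of_le (by linarith)]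
    rw [intervalIntegral.integral_eq_sub_of_hasDerivAt (fun s _ => hd s) (hc.intervalIntegrable _ _)]
  have hI := hcover.integrable_of_integral_tendsto_of_nonneg_ae _ hfi (Eventually.of_forall hnn) hlim
  have hE := hcover.integral_eq_of_tendsto _ hI hlim
  rw [← ofReal_integral_eq_lintegral_ofReal hI (Eventually.of_forall hnn), hE]

lemma lintegral_ka {q : ℝ} (hq : 0 < q) (x S : ℝ) :
    ∫⁻ s in Set.Iic S, ENNReal.ofReal (ka q s x) = ENNReal.ofReal (q⁻¹ * Real.log (1 + Real.exp (q * (S - x)))) := by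
  have h := lintegral_Iic_ftc (Λ := fun s => q⁻¹ * Real.log (1 + Real.exp (q * (s - x))))
    (h := fun s => ka q s x) (ℓ := 0) ?_ ?_ ?_ ?_ S
  · rw [h, sub_zero]
  · intro s
    have h1 : HasDerivAt (fun s => q * (s - x)) (q * 1) s := ((hasDerivAt_id s).sub_const x).const_mul q
    have h2 := ((h1.exp.const_add 1).log (by positivity)).const_mul q⁻¹
    have h3 : ka q s x = q⁻¹ * (Real.exp (q * (s - x)) * (q * 1) / (1 + Real.exp (q * (s - x)))) := by
      unfold ka
      have e1 : Real.exp (q * (x - s)) = (Real.exp (q * (s - x)))⁻¹ := by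
        rw [← Real.exp_neg]; congr 1; ring
      rw [e1]
      have := Real.exp_pos (q * (s - x))
      field_simp
      ring
    rw [h3]
    exact h2
  · unfold ka
    apply Continuous.div (by fun_prop) (by fun_prop)
    intro x; positivity
  · intro s; exact (ka_pos _ _ _).le
  · have h1 : Tendsto (fun s : ℝ => Real.exp (q * (s - x))) atBot (𝓝 0) := by
      apply Real.tendsto_exp_atBot.comp
      apply Tendsto.const_mul_atBot hq
      exact tendsto_atBot_add_const_right _ _ tendsto_id
    have h2 : Tendsto (fun s : ℝ => Real.log (1 + Real.exp (q * (s - x)))) atBot (𝓝 (Real.log (1 + 0))) := by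
      apply Tendsto.log (tendsto_const_nhds.add h1) (by norm_num)
    have h3 := h2.const_mul q⁻¹
    simpa using h3

namespace Dat
variable (D : Dat)

noncomputable def Lam (s : ℝ) : ℝ := D.k / 2 * s - Real.log (D.E (Real.exp (-s / 2)))

noncomputable def E' (c : ℝ) : ℝ := ∫ t, (-t) * Real.exp (c * (-t)) ∂D.w

lemma E_hasDerivAt {c : ℝ} (hc : 0 < c) : HasDerivAt D.E (D.E' c) c :=
  hasDerivAt_mgf (D.mem_set hc)

lemma E'_nonpos (c : ℝ) : D.E' c ≤ 0 := by
  unfold E'
  apply integral_nonpos_of_ae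
  filter_upwards [D.hw] with t ht
  have := Real.exp_pos (c * (-t))
  show (-t) * Real.exp (c * (-t)) ≤ 0
  nlinarith

noncomputable def h (s : ℝ) : ℝ :=
  D.k / 2 + (1 / 2) * (Real.exp (-s / 2) * D.E' (Real.exp (-s / 2)) / D.E (Real.exp (-s / 2)))

lemma cc_ofReal (s : ℝ) : cc (s : ℂ) = ((Real.exp (-s / 2) : ℝ) : ℂ) := by
  unfold cc; push_cast; rfl

lemma H_ofReal (s : ℝ) : D.H s = D.h s := by
  unfold H h
  have hpos : 0 < (cc (s:ℂ)).re := re_cc_pos (by simp [Real.pi_pos])
  rw [(D.P_hasDerivAt hpos).deriv, cc_ofReal, P_ofReal]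
  have : (∫ t : ℝ, ((-t : ℝ) : ℂ) * Complex.exp (((Real.exp (-s / 2) : ℝ) : ℂ) * ((-t : ℝ) : ℂ)) ∂D.w)
      = ((D.E' (Real.exp (-s / 2)) : ℝ) : ℂ) := by
    unfold E'
    rw [← integral_complex_ofReal]
    congr 1
    ext t
    push_cast
    rfl
  rw [this]
  push_cast
  rfl

lemma Lam_hasDerivAt (s : ℝ) : HasDerivAt D.Lam (D.h s) s := by
  unfold Lam h
  have h1 : HasDerivAt (fun s : ℝ => Real.exp (-s / 2)) (Real.exp (-s / 2) * (-1 / 2)) s := by
    have : HasDerivAt (fun s : ℝ => -s / 2) (-1 / 2) s := (hasDerivAt_id s).neg.div_const 2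
    exact this.exp
  have h2 : HasDerivAt (fun s : ℝ => D.E (Real.exp (-s / 2)))
      (D.E' (Real.exp (-s / 2)) * (Real.exp (-s / 2) * (-1 / 2))) s :=
    HasDerivAt.comp (h := fun s : ℝ => Real.exp (-s / 2)) s (D.E_hasDerivAt (Real.exp_pos _)) h1
  have h3 := h2.log (D.E_pos (Real.exp_pos _)).ne'
  have h4 := ((hasDerivAt_id s).const_mul (D.k / 2)).sub h3
  have h5 : D.k / 2 + (1 / 2) * (Real.exp (-s / 2) * D.E' (Real.exp (-s / 2)) / D.E (Real.exp (-s / 2)))
      = D.k / 2 * 1 - D.E' (Real.exp (-s / 2)) * (Real.exp (-s / 2) * (-1 / 2)) / D.E (Real.exp (-s / 2)) := by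
    ring
  rw [h5]
  exact h4

lemma Lam_mono : Monotone D.Lam := by
  intro s s' hss
  unfold Lam
  have hc : Real.exp (-s' / 2) ≤ Real.exp (-s / 2) := Real.exp_le_exp.mpr (by linarith)
  have h := D.hmono _ _ (Real.exp_pos _) hc
  rw [E_toReal, E_toReal] at h
  have h1 := D.E_pos (Real.exp_pos (-s' / 2))
  have h2 := D.E_pos (Real.exp_pos (-s / 2))
  have h3 := Real.log_le_log (by positivity) h
  rw [Real.log_mul (by positivity) h1.ne', Real.log_mul (by positivity) h2.ne',
    Real.log_rpow (Real.exp_pos _), Real.log_rpow (Real.exp_pos _), Real.log_exp, Real.log_exp] at h3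
  linarith

lemma h_nonneg (s : ℝ) : 0 ≤ D.h s := (D.Lam_hasDerivAt s).nonneg_of_monotone D.Lam_mono

lemma h_le (s : ℝ) : D.h s ≤ D.k / 2 := by
  unfold h
  have h1 := D.E_pos (Real.exp_pos (-s / 2))
  have h2 := D.E'_nonpos (Real.exp (-s / 2))
  have h3 : Real.exp (-s / 2) * D.E' (Real.exp (-s / 2)) / D.E (Real.exp (-s / 2)) ≤ 0 := by
    apply div_nonpos_of_nonpos_of_nonneg _ h1.le
    have := Real.exp_pos (-s / 2)
    nlinarith
  linarith

lemma H_diff : DifferentiableOn ℂ D.H {s : ℂ | |s.im| < π} := fun s hs =>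
  (D.H_analyticAt hs).differentiableAt.differentiableWithinAt

lemma h_cont : Continuous D.h := by
  have h1 : Continuous (fun s : ℝ => D.H (s:ℂ)) := by
    apply D.H_diff.continuousOn.comp_continuous Complex.continuous_ofReal
    intro x
    show |(x:ℂ).im| < π
    simp [Real.pi_pos]
  have h2 := Complex.continuous_re.comp h1
  convert h2 using 1
  ext s
  simp [H_ofReal]

lemma strip {p : ℝ} (hp0 : 0 < p) (hp1 : p < 1) {s0 s1 : ℝ} (h10 : s1 < s0) :
    Integrable (fun x : ℝ => (D.H (x + (p * π : ℝ) * Complex.I)).im * (ka p⁻¹ s0 x - ka p⁻¹ s1 x)) ∧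
    ∫ x : ℝ, (D.H (x + (p * π : ℝ) * Complex.I)).im * (ka p⁻¹ s0 x - ka p⁻¹ s1 x) = (p * π) * (D.h s0 - D.h s1) := by
  obtain ⟨C, hC0, hC⟩ := D.H_bound hp0 hp1
  have hpi := Real.pi_pos
  have h := strip_rep (H := D.H) (q := p⁻¹) (b := p * π) (C := C) (by positivity) (by positivity)
    (by field_simp) (b' := π) (by nlinarith) D.H_diff hC ?_ ?_ h10
  · rw [H_ofReal, H_ofReal] at h
    simpa using h
  · intro x
    rw [← D.H_conj]
    · congr 1
      rw [map_add, map_mul, Complex.conj_ofReal, Complex.conj_ofReal, Complex.conj_I]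
      push_cast; ring
    · simp only [Complex.add_im, Complex.ofReal_im, Complex.mul_im, Complex.ofReal_re, Complex.I_im,
        mul_one, Complex.I_re, mul_zero, add_zero, zero_add]
      rw [abs_of_pos (by positivity)]
      nlinarith
  · intro x
    apply D.H_im_nonneg
    · simp only [Complex.add_im, Complex.ofReal_im, Complex.mul_im, Complex.ofReal_re, Complex.I_im,
        mul_one, Complex.I_re, mul_zero, add_zero, zero_add]
      positivity
    · simp only [Complex.add_im, Complex.ofReal_im, Complex.mul_im, Complex.ofReal_re, Complex.I_im,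
        mul_one, Complex.I_re, mul_zero, add_zero, zero_add]
      nlinarith

lemma him_nonneg {p : ℝ} (hp0 : 0 < p) (hp1 : p < 1) (x : ℝ) :
    0 ≤ (D.H (x + (p * π : ℝ) * Complex.I)).im := by
  have hpi := Real.pi_pos
  apply D.H_im_nonneg
  · simp only [Complex.add_im, Complex.ofReal_im, Complex.mul_im, Complex.ofReal_re, Complex.I_im,
      mul_one, Complex.I_re, mul_zero, add_zero, zero_add]
    positivity
  · simp only [Complex.add_im, Complex.ofReal_im, Complex.mul_im, Complex.ofReal_re, Complex.I_im,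
      mul_one, Complex.I_re, mul_zero, add_zero, zero_add]
    nlinarith

lemma h_mono : Monotone D.h := by
  intro s1 s0 h10
  rcases h10.eq_or_lt with h | h
  · rw [h]
  · have h1 := (D.strip (p := 1/2) (by norm_num) (by norm_num) h).2
    have h2 : 0 ≤ ∫ x : ℝ, (D.H (x + ((1/2 : ℝ) * π : ℝ) * Complex.I)).im * (ka (1/2 : ℝ)⁻¹ s0 x - ka (1/2 : ℝ)⁻¹ s1 x) := by
      apply integral_nonneg
      intro x
      apply mul_nonneg (D.him_nonneg (by norm_num) (by norm_num) x)
      have := ka_mono (q := (1/2:ℝ)⁻¹) (x := x) (by norm_num) h.le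
      linarith
    rw [h1] at h2
    have h3 : 0 < (1/2 : ℝ) * π := by positivity
    have h4 := nonneg_of_mul_nonneg_right h2 h3
    linarith

lemma h_tendsto {ℓ : ℝ} (hl : Tendsto D.Lam atBot (𝓝 ℓ)) : Tendsto D.h atBot (𝓝 0) := by
  have h1 : Tendsto (fun s : ℝ => D.Lam (s + 1) - D.Lam s) atBot (𝓝 0) := by
    have h2 : Tendsto (fun s : ℝ => D.Lam (s + 1)) atBot (𝓝 ℓ) :=
      hl.comp (tendsto_atBot_add_const_right _ _ tendsto_id)
    simpa using h2.sub hl
  apply squeeze_zero (fun s => D.h_nonneg s) _ h1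
  intro s
  obtain ⟨ξ, hξ, hξe⟩ := exists_hasDerivAt_eq_slope D.Lam D.h (a := s) (b := s + 1) (by linarith)
    (fun x _ => (D.Lam_hasDerivAt x).continuousAt.continuousWithinAt)
    (fun x _ => D.Lam_hasDerivAt x)
  have : D.Lam (s + 1) - D.Lam s = D.h ξ := by
    rw [hξe]; ring
  rw [this]
  exact D.h_mono hξ.1.le

/-- representation of `h` -/
lemma h_rep {ℓ : ℝ} (hl : Tendsto D.Lam atBot (𝓝 ℓ)) {p : ℝ} (hp0 : 0 < p) (hp1 : p < 1) (s0 : ℝ) :
    ∫⁻ x : ℝ, ENNReal.ofReal ((D.H (x + (p * π : ℝ) * Complex.I)).im / (p * π)) * ENNReal.ofReal (ka p⁻¹ s0 x)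
      = ENNReal.ofReal (D.h s0) := by
  have hpi := Real.pi_pos
  have hb : 0 < p * π := by positivity
  set G : ℝ → ℝ := fun x => (D.H (x + (p * π : ℝ) * Complex.I)).im with hG
  have hGnn : ∀ x, 0 ≤ G x := fun x => D.him_nonneg hp0 hp1 x
  have hGc : Continuous G := by
    apply Complex.continuous_im.comp
    apply D.H_diff.continuousOn.comp_continuous (by fun_prop)
    intro x
    show |((x:ℂ) + (p * π : ℝ) * Complex.I).im| < π
    simp only [Complex.add_im, Complex.ofReal_im, Complex.mul_im, Complex.ofReal_re, Complex.I_im,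
      mul_one, Complex.I_re, mul_zero, add_zero, zero_add]
    rw [abs_of_pos hb]
    nlinarith
  have hkac : ∀ s, Continuous (fun x : ℝ => ka p⁻¹ s x) := by
    intro s
    unfold ka
    apply Continuous.div (by fun_prop) (by fun_prop)
    intro x; positivity
  -- for each n
  have hn : ∀ n : ℕ, ∫⁻ x : ℝ, ENNReal.ofReal (G x / (p * π) * (ka p⁻¹ s0 x - ka p⁻¹ (s0 - 1 - n) x))
      = ENNReal.ofReal (D.h s0 - D.h (s0 - 1 - n)) := by
    intro n
    obtain ⟨h1, h2⟩ := D.strip hp0 hp1 (s0 := s0) (s1 := s0 - 1 - n) (by have := Nat.cast_nonneg (α := ℝ) n; linarith)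
    have h3 : Integrable (fun x : ℝ => G x / (p * π) * (ka p⁻¹ s0 x - ka p⁻¹ (s0 - 1 - n) x)) := by
      have := h1.const_mul (p * π)⁻¹
      convert this using 2
      simp only [hG]
      ring
    rw [← ofReal_integral_eq_lintegral_ofReal h3]
    · congr 1
      have h4 : ∫ x : ℝ, G x / (p * π) * (ka p⁻¹ s0 x - ka p⁻¹ (s0 - 1 - n) x)
          = (p * π)⁻¹ * ∫ x : ℝ, (D.H (x + (p * π : ℝ) * Complex.I)).im * (ka p⁻¹ s0 x - ka p⁻¹ (s0 - 1 - n) x) := by
        rw [← integral_const_mul]
        congr 1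
        ext x
        simp only [hG]
        ring
      rw [h4, h2]
      field_simp
    · apply Eventually.of_forall
      intro x
      have := ka_mono (q := p⁻¹) (x := x) (s0 := s0) (s1 := s0 - 1 - n) (by positivity)
        (by have := Nat.cast_nonneg (α := ℝ) n; linarith)
      have h5 := hGnn x
      show 0 ≤ G x / (p * π) * (ka p⁻¹ s0 x - ka p⁻¹ (s0 - 1 - n) x)
      apply mul_nonneg (by positivity)
      linarith
  have hlimL : Tendsto (fun n : ℕ => ∫⁻ x : ℝ, ENNReal.ofReal (G x / (p * π) * (ka p⁻¹ s0 x - ka p⁻¹ (s0 - 1 - n) x)))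
      atTop (𝓝 (∫⁻ x : ℝ, ENNReal.ofReal (G x / (p * π) * ka p⁻¹ s0 x))) := by
    apply lintegral_tendsto_of_tendsto_of_monotone
    · intro n
      have h1 := hkac s0
      have h2 := hkac (s0 - 1 - n)
      apply Measurable.aemeasurable
      apply Measurable.ennreal_ofReal
      exact ((hGc.div_const _).mul (h1.sub h2)).measurable
    · apply Eventually.of_forall
      intro x n m hnm
      apply ENNReal.ofReal_le_ofReal
      have h1 := hGnn x
      have h2 := ka_mono (q := p⁻¹) (x := x) (s0 := s0 - 1 - n) (s1 := s0 - 1 - m) (by positivity)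
        (by have : (n:ℝ) ≤ m := by exact_mod_cast hnm
            linarith)
      apply mul_le_mul_of_nonneg_left _ (by positivity)
      linarith
    · apply Eventually.of_forall
      intro x
      apply ENNReal.tendsto_ofReal
      have h1 : Tendsto (fun n : ℕ => ka p⁻¹ (s0 - 1 - n) x) atTop (𝓝 0) := by
        unfold ka
        apply Tendsto.const_div_atTop
        apply tendsto_atTop_add_const_left
        apply Real.tendsto_exp_atTop.comp
        apply Tendsto.const_mul_atTop (by positivity)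
        have : Tendsto (fun n : ℕ => (x - s0 + 1) + (n:ℝ)) atTop atTop :=
          tendsto_atTop_add_const_left _ _ tendsto_natCast_atTop_atTop
        refine this.congr (fun n => ?_)
        ring
      have h2 := (tendsto_const_nhds (x := ka p⁻¹ s0 x)).sub h1
      have h3 := h2.const_mul (G x / (p * π))
      simpa using h3
  have hlimR : Tendsto (fun n : ℕ => ENNReal.ofReal (D.h s0 - D.h (s0 - 1 - n))) atTop
      (𝓝 (ENNReal.ofReal (D.h s0))) := by
    apply ENNReal.tendsto_ofReal
    have h1 : Tendsto (fun n : ℕ => D.h (s0 - 1 - n)) atTop (𝓝 0) := by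
      apply (D.h_tendsto hl).comp
      have : Tendsto (fun n : ℕ => (s0 - 1) + -(n:ℝ)) atTop atBot :=
        tendsto_atBot_add_const_left _ _ (tendsto_neg_atTop_atBot.comp tendsto_natCast_atTop_atTop)
      refine this.congr (fun n => ?_)
      ring
    simpa using (tendsto_const_nhds (x := D.h s0)).sub h1
  have heq := tendsto_nhds_unique (hlimL.congr hn) hlimR
  rw [← heq]
  apply lintegral_congr
  intro x
  rw [← ENNReal.ofReal_mul (by have := hGnn x; positivity)]

/-- the representation theorem -/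
theorem rep {ℓ : ℝ} (hl : Tendsto D.Lam atBot (𝓝 ℓ)) {p : ℝ} (hp0 : 0 < p) (hp1 : p < 1) :
    ∃ σ : Measure ℝ, σ Set.univ ≤ ENNReal.ofReal (D.k / 2) ∧
      ∀ S : ℝ, ∫⁻ x, ENNReal.ofReal (p * Real.log (1 + Real.exp ((S - x) / p))) ∂σ
        = ENNReal.ofReal (D.Lam S - ℓ) := by
  have hpi := Real.pi_pos
  have hb : 0 < p * π := by positivity
  set G : ℝ → ℝ := fun x => (D.H (x + (p * π : ℝ) * Complex.I)).im with hG
  have hGnn : ∀ x, 0 ≤ G x := fun x => D.him_nonneg hp0 hp1 x
  have hGc : Continuous G := by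
    apply Complex.continuous_im.comp
    apply D.H_diff.continuousOn.comp_continuous (by fun_prop)
    intro x
    show |((x:ℂ) + (p * π : ℝ) * Complex.I).im| < π
    simp only [Complex.add_im, Complex.ofReal_im, Complex.mul_im, Complex.ofReal_re, Complex.I_im,
      mul_one, Complex.I_re, mul_zero, add_zero, zero_add]
    rw [abs_of_pos hb]
    nlinarith
  have hGm : Measurable (fun x => ENNReal.ofReal (G x / (p * π))) := by
    have := hGc.measurable
    fun_prop
  have hkam : Measurable (fun y : ℝ × ℝ => ENNReal.ofReal (ka p⁻¹ y.1 y.2)) := by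
    unfold ka; fun_prop
  refine ⟨volume.withDensity (fun x => ENNReal.ofReal (G x / (p * π))), ?_, ?_⟩
  · rw [withDensity_apply _ MeasurableSet.univ, Measure.restrict_univ]
    have hlim : Tendsto (fun n : ℕ => ∫⁻ x : ℝ, ENNReal.ofReal (G x / (p * π)) * ENNReal.ofReal (ka p⁻¹ n x))
        atTop (𝓝 (∫⁻ x : ℝ, ENNReal.ofReal (G x / (p * π)))) := by
      apply lintegral_tendsto_of_tendsto_of_monotone
      · intro n
        apply Measurable.aemeasurable
        exact hGm.mul (hkam.comp (by fun_prop : Measurable (fun x : ℝ => ((n:ℝ), x))))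
      · apply Eventually.of_forall
        intro x n m hnm
        apply mul_le_mul_right
        apply ENNReal.ofReal_le_ofReal
        exact ka_mono (by positivity) (by exact_mod_cast hnm)
      · apply Eventually.of_forall
        intro x
        have h1 : Tendsto (fun n : ℕ => ka p⁻¹ n x) atTop (𝓝 1) := by
          unfold ka
          have h2 : Tendsto (fun n : ℕ => Real.exp (p⁻¹ * (x - n))) atTop (𝓝 0) := by
            apply Real.tendsto_exp_atBot.comp
            apply Tendsto.const_mul_atBot (by positivity)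
            exact tendsto_atBot_add_const_left _ _ (tendsto_neg_atTop_atBot.comp tendsto_natCast_atTop_atTop)
          have h3 : Tendsto (fun n : ℕ => 1 / (1 + Real.exp (p⁻¹ * (x - n)))) atTop (𝓝 (1 / (1 + 0))) :=
            Tendsto.div tendsto_const_nhds (tendsto_const_nhds.add h2) (by norm_num)
          simpa using h3
        have h2 := ENNReal.tendsto_ofReal h1
        have h3 := ENNReal.Tendsto.const_mul (a := ENNReal.ofReal (G x / (p * π))) h2 (Or.inl (by simp))
        simpa using h3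
    apply le_of_tendsto' hlim
    intro n
    rw [D.h_rep hl hp0 hp1]
    exact ENNReal.ofReal_le_ofReal (D.h_le _)
  · intro S
    rw [← lintegral_Iic_ftc D.Lam_hasDerivAt D.h_cont D.h_nonneg hl S]
    have h1 : ∀ s : ℝ, ENNReal.ofReal (D.h s) =
        ∫⁻ x : ℝ, ENNReal.ofReal (G x / (p * π)) * ENNReal.ofReal (ka p⁻¹ s x) :=
      fun s => (D.h_rep hl hp0 hp1 s).symm
    simp_rw [h1]
    rw [lintegral_lintegral_swap]
    · rw [lintegral_withDensity_eq_lintegral_mul _ hGm (by fun_prop)]
      apply lintegral_congr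
      intro x
      simp only [Pi.mul_apply]
      rw [lintegral_const_mul]
      · rw [lintegral_ka (by positivity), inv_inv, show p⁻¹ * (S - x) = (S - x) / p by ring]
      · exact hkam.comp (by fun_prop : Measurable (fun s : ℝ => (s, x)))
    · apply Measurable.aemeasurable
      exact (hGm.comp measurable_snd).mul hkam

end Dat
end H330GGC
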