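import Pool.Agent.H330R3.GGC.E2
import Pool.Agent.H330R3.GGC.A4
open MeasureTheory Real ProbabilityTheory Set Filter
open scoped ENNReal Topology

set_option maxHeartbeats 1000000

namespace H330GGC

/-- pointwise closure (on `(0,∞)`) of the Laplace transforms of finite gamma convolutions -/
def InG (φ : ℝ → ℝ) : Prop :=
  ∀ F : Finset ℝ, (∀ x ∈ F, 0 < x) → ∀ ε : ℝ, 0 < ε → ∃ K, PosL K ∧ ∀ x ∈ F, |φ x - GG K x| < ε

lemma InG.of_approx {φ : ℝ → ℝ} (h : ∀ F : Finset ℝ, (∀ x ∈ F, 0 < x) → ∀ ε : ℝ, 0 < ε →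
    ∃ ψ, InG ψ ∧ ∀ x ∈ F, |φ x - ψ x| < ε) : InG φ := by
  intro F hF ε hε
  obtain ⟨ψ, hψ, h1⟩ := h F hF (ε / 2) (by positivity)
  obtain ⟨K, hK, h2⟩ := hψ F hF (ε / 2) (by positivity)
  refine ⟨K, hK, fun x hx => ?_⟩
  have := abs_sub_le (φ x) (ψ x) (GG K x)
  linarith [h1 x hx, h2 x hx]

lemma InG.of_tendsto {φ : ℝ → ℝ} {ψ : ℕ → ℝ → ℝ} (h : ∀ n, InG (ψ n))
    (hl : ∀ x, 0 < x → Tendsto (fun n => ψ n x) atTop (𝓝 (φ x))) : InG φ := by
  apply InG.of_approx
  intro F hF ε hε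
  have : ∀ᶠ n in atTop, ∀ x ∈ F, |φ x - ψ n x| < ε := by
    rw [Filter.eventually_all_finset]
    intro x hx
    have := (Metric.tendsto_nhds.mp (hl x (hF x hx))) ε hε
    filter_upwards [this] with n hn
    rw [Real.dist_eq, abs_sub_comm] at hn
    exact hn
  obtain ⟨n, hn⟩ := this.exists
  exact ⟨ψ n, h n, hn⟩

lemma InG_GG {K : List (ℝ × ℝ)} (hK : PosL K) : InG (GG K) :=
  fun F _ ε hε => ⟨K, hK, fun x _ => by simpa using hε⟩

lemma InG.congr {φ ψ : ℝ → ℝ} (h : InG φ) (e : ∀ x, 0 < x → φ x = ψ x) : InG ψ := by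
  intro F hF ε hε
  obtain ⟨K, hK, h1⟩ := h F hF ε hε
  exact ⟨K, hK, fun x hx => by rw [← e x (hF x hx)]; exact h1 x hx⟩

lemma PosL.append {K L : List (ℝ × ℝ)} (hK : PosL K) (hL : PosL L) : PosL (K ++ L) := by
  intro x hx
  rcases List.mem_append.mp hx with h | h
  · exact hK x h
  · exact hL x h

lemma GG_append (K L : List (ℝ × ℝ)) (x : ℝ) : GG (K ++ L) x = GG K x * GG L x := by
  unfold GG; rw [List.map_append, List.prod_append]

lemma GG_le_one {K : List (ℝ × ℝ)} (hK : PosL K) {x : ℝ} (hx : 0 ≤ x) : GG K x ≤ 1 := by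
  induction K with
  | nil => simp [GG]
  | cons y K ih =>
    have h1 : 0 < y.1 := (hK y (by simp)).1
    have h2 : 0 < y.2 := (hK y (by simp)).2
    have hK' : PosL K := (fun y hy => hK y (by simp [hy]))
    have ih' := ih hK'
    have h3 := GG_pos hK' hx
    have e : GG (y :: K) x = (1 + y.1 * x) ^ (-y.2) * GG K x := by
      unfold GG; simp
    rw [e]
    have h4 : (1 + y.1 * x) ^ (-y.2) ≤ 1 := by
      apply Real.rpow_le_one_of_one_le_of_nonpos
      · have : 0 ≤ y.1 * x := by positivity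
        linarith
      · linarith
    have h5 : 0 ≤ (1 + y.1 * x) ^ (-y.2) := by positivity
    nlinarith

lemma InG.mul {φ ψ : ℝ → ℝ} (h1 : InG φ) (h2 : InG ψ) (hb : ∀ x, 0 < x → |ψ x| ≤ 1) :
    InG (fun x => φ x * ψ x) := by
  intro F hF ε hε
  obtain ⟨K, hK, hK1⟩ := h1 F hF (ε / 2) (by positivity)
  obtain ⟨L, hL, hL1⟩ := h2 F hF (ε / 2) (by positivity)
  refine ⟨K ++ L, hK.append hL, fun x hx => ?_⟩
  rw [GG_append]
  have hx0 := hF x hx
  have e : φ x * ψ x - GG K x * GG L x = (φ x - GG K x) * ψ x + GG K x * (ψ x - GG L x) := by ring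
  rw [e]
  have g1 := GG_pos hK hx0.le
  have g2 := GG_le_one hK hx0.le
  calc |(φ x - GG K x) * ψ x + GG K x * (ψ x - GG L x)|
      ≤ |(φ x - GG K x) * ψ x| + |GG K x * (ψ x - GG L x)| := abs_add_le _ _
    _ = |φ x - GG K x| * |ψ x| + |GG K x| * |ψ x - GG L x| := by rw [abs_mul, abs_mul]
    _ ≤ |φ x - GG K x| * 1 + 1 * |ψ x - GG L x| := by
        gcongr
        · exact hb x hx0
        · rw [abs_of_pos g1]; exact g2
    _ < ε := by linarith [hK1 x hx, hL1 x hx]

lemma InG_exp : InG (fun x => Real.exp (-x)) := by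
  apply InG.of_tendsto (ψ := fun n : ℕ => GG [(1 / ((n:ℝ) + 1), (n:ℝ) + 1)])
  · intro n
    apply InG_GG
    intro x hx
    simp only [List.mem_singleton] at hx
    subst hx
    constructor <;> positivity
  · intro x hx
    have h1 : Tendsto (fun n : ℕ => (1 + x / ((n:ℝ) + 1)) ^ ((n:ℝ) + 1)) atTop (𝓝 (Real.exp x)) := by
      have := (Real.tendsto_one_add_div_rpow_exp x).comp
        (tendsto_atTop_add_const_right atTop (1:ℝ) tendsto_natCast_atTop_atTop)
      exact this
    have h2 := h1.inv₀ (Real.exp_pos x).ne'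
    rw [← Real.exp_neg] at h2
    refine h2.congr (fun n => ?_)
    unfold GG
    simp only [List.map_cons, List.map_nil, List.prod_cons, List.prod_nil, mul_one]
    rw [Real.rpow_neg (by positivity)]
    congr 3
    ring

/-- `-log GG` -/
noncomputable def lG (K : List (ℝ × ℝ)) (x : ℝ) : ℝ := (K.map (fun y => y.2 * Real.log (1 + y.1 * x))).sum

lemma GG_eq_exp {K : List (ℝ × ℝ)} (hK : PosL K) {x : ℝ} (hx : 0 ≤ x) : GG K x = Real.exp (-(lG K x)) := by
  induction K with
  | nil => simp [GG, lG]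
  | cons y K ih =>
    have h1 : 0 < y.1 := (hK y (by simp)).1
    have hK' : PosL K := (fun y hy => hK y (by simp [hy]))
    have ih' := ih hK'
    have e : GG (y :: K) x = (1 + y.1 * x) ^ (-y.2) * GG K x := by
      unfold GG; simp
    have e2 : lG (y :: K) x = y.2 * Real.log (1 + y.1 * x) + lG K x := by
      unfold lG; simp
    rw [e, e2, ih', neg_add, Real.exp_add, Real.rpow_def_of_pos (by positivity)]
    congr 2
    ring

lemma lG_nonneg {K : List (ℝ × ℝ)} (hK : PosL K) {x : ℝ} (hx : 0 ≤ x) : 0 ≤ lG K x := by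
  have h1 := GG_le_one hK hx
  rw [GG_eq_exp hK hx] at h1
  have := Real.exp_le_one_iff.mp h1
  linarith

lemma lG_append (K L : List (ℝ × ℝ)) (x : ℝ) : lG (K ++ L) x = lG K x + lG L x := by
  unfold lG; rw [List.map_append, List.sum_append]

lemma lG_scale (K : List (ℝ × ℝ)) (c x : ℝ) :
    lG (K.map (fun y => (y.1, c * y.2))) x = c * lG K x := by
  induction K with
  | nil => simp [lG]
  | cons y K ih =>
    unfold lG at ih ⊢
    simp only [List.map_cons, List.sum_cons]
    rw [ih]; ring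

lemma PosL.scale {K : List (ℝ × ℝ)} (hK : PosL K) {c : ℝ} (hc : 0 < c) :
    PosL (K.map (fun y => (y.1, c * y.2))) := by
  intro x hx
  rw [List.mem_map] at hx
  obtain ⟨y, hy, rfl⟩ := hx
  exact ⟨(hK y hy).1, mul_pos hc (hK y hy).2⟩

lemma abs_exp_neg_sub {a b : ℝ} (ha : 0 ≤ a) (hb : 0 ≤ b) : |Real.exp (-a) - Real.exp (-b)| ≤ |a - b| := by
  wlog h : a ≤ b generalizing a b
  · rw [abs_sub_comm, abs_sub_comm a b]
    exact this hb ha (by linarith)
  have h1 : Real.exp (-b) ≤ Real.exp (-a) := Real.exp_le_exp.mpr (by linarith)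
  rw [abs_of_nonneg (by linarith), abs_sub_comm, abs_of_nonneg (by linarith)]
  have h2 : Real.exp (-b) = Real.exp (-a) * Real.exp (-(b - a)) := by rw [← Real.exp_add]; congr 1; ring
  have h3 := Real.add_one_le_exp (-(b - a))
  have h4 : Real.exp (-a) ≤ 1 := Real.exp_le_one_iff.mpr (by linarith)
  have h5 := Real.exp_pos (-a)
  rw [h2]
  nlinarith

/-- mixtures: `exp (-∫ log (1 + x e^{-y}) dσ(y))` is in the closure -/
theorem InG_of_measure (σ : Measure ℝ) [IsFiniteMeasure σ]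
    (hint : ∀ x : ℝ, 0 < x → Integrable (fun y => Real.log (1 + x * Real.exp (-y))) σ) :
    InG (fun x => Real.exp (-(∫ y, Real.log (1 + x * Real.exp (-y)) ∂σ))) := by
  by_cases hσ : σ = 0
  · subst hσ
    apply (InG_GG (K := []) (by intro x hx; simp at hx)).congr
    intro x _
    simp [GG]
  have : NeZero σ := ⟨hσ⟩
  intro F hF ε hε
  -- the closed convex set
  set S : Set (F → ℝ) := {v | ∃ K, PosL K ∧ ∀ x : F, v x = lG K x} with hS
  have hconv : Convex ℝ S := by
    intro v hv w hw a b ha hb hab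
    obtain ⟨K, hK, hv⟩ := hv
    obtain ⟨L, hL, hw⟩ := hw
    rcases ha.eq_or_lt with ha | ha
    · rcases hb.eq_or_lt with hb | hb
      · exfalso; linarith
      · refine ⟨L.map (fun y => (y.1, b * y.2)), hL.scale hb, fun x => ?_⟩
        rw [lG_scale, ← hw, ← ha]; simp
    · rcases hb.eq_or_lt with hb | hb
      · refine ⟨K.map (fun y => (y.1, a * y.2)), hK.scale ha, fun x => ?_⟩
        rw [lG_scale, ← hv, ← hb]; simp
      · refine ⟨K.map (fun y => (y.1, a * y.2)) ++ L.map (fun y => (y.1, b * y.2)),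
          (hK.scale ha).append (hL.scale hb), fun x => ?_⟩
        rw [lG_append, lG_scale, lG_scale, ← hv, ← hw]; simp
  have hcl : Convex ℝ (closure S) := hconv.closure
  set f : ℝ → (F → ℝ) := fun y x => Real.log (1 + x * Real.exp (-y)) with hf
  have hfS : ∀ y, f y ∈ closure S := by
    intro y
    apply subset_closure
    refine ⟨[(Real.exp (-y), 1)], ?_, fun x => ?_⟩
    · intro z hz
      simp only [List.mem_singleton] at hz
      subst hz
      exact ⟨Real.exp_pos _, one_pos⟩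
    · simp only [hf, lG, List.map_cons, List.map_nil, List.sum_cons, List.sum_nil, add_zero, one_mul]
      congr 2; ring
  have hfi : Integrable f σ := by
    rw [MeasureTheory.integrable_pi_iff]
    exact fun x => hint x (hF x x.2)
  have hav := hcl.average_mem isClosed_closure (Eventually.of_forall hfS) hfi
  rw [Metric.mem_closure_iff] at hav
  have hmass : 0 < σ.real Set.univ := by
    rw [Measure.real, ENNReal.toReal_pos_iff]
    exact ⟨Measure.measure_univ_pos.mpr hσ, measure_lt_top _ _⟩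
  obtain ⟨v, ⟨K, hK, hv⟩, hd⟩ := hav (ε / σ.real Set.univ) (by positivity)
  refine ⟨K.map (fun y => (y.1, σ.real Set.univ * y.2)), hK.scale hmass, fun x hx => ?_⟩
  rw [GG_eq_exp (hK.scale hmass) (hF x hx).le, lG_scale]
  have h1 : dist ((⨍ y, f y ∂σ) ⟨x, hx⟩) (v ⟨x, hx⟩) < ε / σ.real Set.univ :=
    lt_of_le_of_lt (dist_le_pi_dist _ _ _) hd
  have h2 : (⨍ y, f y ∂σ) ⟨x, hx⟩ = (σ.real Set.univ)⁻¹ * ∫ y, Real.log (1 + x * Real.exp (-y)) ∂σ := by
    rw [average_eq]
    simp only [Pi.smul_apply, smul_eq_mul]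
    congr 1
    rw [eval_integral]
    exact fun x => hint x (hF x x.2)
  rw [h2, hv, Real.dist_eq] at h1
  simp only at h1
  have hnn : 0 ≤ ∫ y, Real.log (1 + x * Real.exp (-y)) ∂σ := by
    apply integral_nonneg
    intro y
    apply Real.log_nonneg
    have : 0 < x * Real.exp (-y) := mul_pos (hF x hx) (Real.exp_pos _)
    linarith
  refine lt_of_le_of_lt (abs_exp_neg_sub hnn (by have := lG_nonneg hK (hF x hx).le; positivity)) ?_
  have h3 : |(∫ y, Real.log (1 + x * Real.exp (-y)) ∂σ) - σ.real Set.univ * lG K x|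
      = σ.real Set.univ * |(σ.real Set.univ)⁻¹ * (∫ y, Real.log (1 + x * Real.exp (-y)) ∂σ) - lG K x| := by
    rw [← abs_of_pos hmass, ← abs_mul, abs_of_pos hmass]
    congr 1
    field_simp
  rw [h3]
  rw [lt_div_iff₀ hmass] at h1
  linarith

end H330GGC
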