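import Pool.Agent.H330R3.GGC.B1
open MeasureTheory Real ProbabilityTheory Set Filter
open scoped ENNReal Topology

set_option maxHeartbeats 1000000

namespace H330GGC

lemma log_pm_le {p u : ℝ} (hp0 : 0 < p) (hp1 : p < 1) :
    p * Real.log (1 + Real.exp (u / p)) ≤ Real.log (1 + Real.exp u) := by
  have h1 : (1 + Real.exp (u / p)) ^ p ≤ 1 + Real.exp u := by
    have := Real.rpow_add_le_add_rpow (p := p) (a := 1) (b := Real.exp (u / p)) (by norm_num)
      (Real.exp_pos _).le hp0.le hp1.le
    rw [Real.one_rpow, ← Real.exp_mul] at this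
    convert this using 3
    field_simp
  rw [← Real.log_rpow (by positivity)]
  exact Real.log_le_log (by positivity) h1

lemma log_pm_ge {p u : ℝ} (hp0 : 0 < p) (hp1 : p < 1) :
    Real.log (1 + Real.exp u) ≤ p * Real.log (1 + Real.exp (u / p)) + (1 - p) * Real.log 2 := by
  have hc := Real.concaveOn_rpow hp0.le hp1.le
  have h1 := hc.2 (show (1:ℝ) ∈ Ici (0:ℝ) by simp) (show Real.exp (u / p) ∈ Ici (0:ℝ) from (Real.exp_pos _).le)
    (show (0:ℝ) ≤ 1/2 by norm_num) (show (0:ℝ) ≤ 1/2 by norm_num) (by norm_num)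
  simp only [smul_eq_mul, Real.one_rpow] at h1
  have e1 : (Real.exp (u / p)) ^ p = Real.exp u := by
    rw [← Real.exp_mul]; congr 1; field_simp
  rw [e1] at h1
  have e2 : (1 / 2 * 1 + 1 / 2 * Real.exp (u / p)) ^ p = (1 / 2) ^ p * (1 + Real.exp (u / p)) ^ p := by
    rw [← Real.mul_rpow (by norm_num) (by positivity)]
    congr 1; ring
  rw [e2] at h1
  have h2 : 1 + Real.exp u ≤ 2 * ((1 / 2) ^ p * (1 + Real.exp (u / p)) ^ p) := by linarith
  have h3 := Real.log_le_log (by positivity) h2
  rw [Real.log_mul (by norm_num) (by positivity), Real.log_mul (by positivity) (by positivity),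
    Real.log_rpow (by norm_num), Real.log_rpow (by positivity)] at h3
  have e3 : Real.log (1 / 2) = - Real.log 2 := by rw [one_div, Real.log_inv]
  rw [e3] at h3
  linarith

lemma GG_anti {K : List (ℝ × ℝ)} (hK : PosL K) {x y : ℝ} (hx : 0 ≤ x) (hxy : x ≤ y) :
    GG K y ≤ GG K x := by
  induction K with
  | nil => simp [GG]
  | cons z K ih =>
    have h1 : 0 < z.1 := (hK z (by simp)).1
    have h2 : 0 < z.2 := (hK z (by simp)).2
    have hK' : PosL K := (fun y hy => hK y (by simp [hy]))
    have ih' := ih hK'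
    have e : ∀ x, GG (z :: K) x = (1 + z.1 * x) ^ (-z.2) * GG K x := by
      intro x; unfold GG; simp
    rw [e, e]
    have h3 : (1 + z.1 * y) ^ (-z.2) ≤ (1 + z.1 * x) ^ (-z.2) := by
      apply Real.rpow_le_rpow_of_nonpos
      · positivity
      · have := mul_le_mul_of_nonneg_left hxy h1.le
        linarith
      · linarith
    have h4 := GG_pos hK' (hx.trans hxy)
    have h5 : 0 ≤ (1 + z.1 * x) ^ (-z.2) := by positivity
    exact mul_le_mul h3 ih' h4.le h5

lemma GG_zero (K : List (ℝ × ℝ)) : GG K 0 = 1 := by unfold GG; simp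

lemma continuousAt_GG {K : List (ℝ × ℝ)} (hK : PosL K) {x : ℝ} (hx : 0 ≤ x) : ContinuousAt (GG K) x := by
  induction K with
  | nil =>
    have : GG [] = fun _ => 1 := by ext; simp [GG]
    rw [this]; fun_prop
  | cons z K ih =>
    have h1 : 0 < z.1 := (hK z (by simp)).1
    have hK' : PosL K := (fun y hy => hK y (by simp [hy]))
    have ih' := ih hK'
    have e : GG (z :: K) = fun x => (1 + z.1 * x) ^ (-z.2) * GG K x := by
      ext x; unfold GG; simp
    rw [e]
    apply ContinuousAt.mul _ ih'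
    apply ContinuousAt.rpow_const (by fun_prop)
    left
    have : 0 ≤ z.1 * x := by positivity
    positivity

/-- Laplace transform of the product -/
noncomputable def phi (K L : List (ℝ × ℝ)) (x : ℝ) : ℝ := ∫ y, GG K (x * y) ∂(muL L)

lemma isProb_muL {L : List (ℝ × ℝ)} (hL : PosL L) : IsProbabilityMeasure (muL L) := ⟨muL_univ hL⟩

section
variable {K L : List (ℝ × ℝ)} (hK : PosL K) (hL : PosL L)
include hK hL

lemma GG_int {x : ℝ} (hx : 0 ≤ x) : Integrable (fun y => GG K (x * y)) (muL L) := by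
  have := isProb_muL hL
  apply Integrable.mono' (integrable_const (1:ℝ))
  · exact ((measurable_GG K).comp (by fun_prop : Measurable (fun y : ℝ => x * y))).aestronglyMeasurable
  · filter_upwards [muL_nonneg hL] with y hy
    rw [Real.norm_of_nonneg (GG_pos hK (by positivity)).le]
    exact GG_le_one hK (by positivity)

lemma phi_pos {x : ℝ} (hx : 0 ≤ x) : 0 < phi K L x := by
  have := isProb_muL hL
  unfold phi
  have h1 : 0 ≤ᵐ[muL L] fun y => GG K (x * y) := by
    filter_upwards [muL_nonneg hL] with y hy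
    exact (GG_pos hK (by positivity)).le
  rw [integral_pos_iff_support_of_nonneg_ae h1 (GG_int hK hL hx)]
  have h2 : (muL L) (Function.support (fun y => GG K (x * y)))ᶜ = 0 := by
    rw [← mem_ae_iff]
    filter_upwards [muL_nonneg hL] with y hy
    exact (GG_pos hK (by positivity)).ne'
  have h3 : (muL L) (Function.support (fun y => GG K (x * y))) = 1 := by
    rw [measure_congr (ae_eq_univ.mpr h2), muL_univ hL]
  rw [h3]; norm_num

lemma phi_anti {x x' : ℝ} (hx : 0 ≤ x) (hxx : x ≤ x') : phi K L x' ≤ phi K L x := by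
  unfold phi
  apply integral_mono_ae (GG_int hK hL (hx.trans hxx)) (GG_int hK hL hx)
  filter_upwards [muL_nonneg hL] with y hy
  exact GG_anti hK (by positivity) (by gcongr)

lemma phi_lintegral {x : ℝ} (hx : 0 ≤ x) :
    ∫⁻ y, ENNReal.ofReal (GG K (x * y)) ∂(muL L) = ENNReal.ofReal (phi K L x) := by
  unfold phi
  rw [ofReal_integral_eq_lintegral_ofReal (GG_int hK hL hx)]
  filter_upwards [muL_nonneg hL] with y hy
  exact (GG_pos hK (by positivity)).le

lemma Psi_eq' {c : ℝ} (hc : 0 < c) :
    Psi K L c = ENNReal.ofReal (GamL K * GamL L * c ^ (-(kap K + kap L)) * phi K L (c⁻¹ ^ 2)) := by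
  have h1 := GamL_pos hK
  have h2 := GamL_pos hL
  rw [Psi_eq_phi hK hL hc, phi_lintegral hK hL (by positivity), ← ENNReal.ofReal_mul (by positivity)]

lemma phi_tendsto : Tendsto (phi K L) (𝓝[≥] 0) (𝓝 1) := by
  have := isProb_muL hL
  have h1 : (1:ℝ) = ∫ y, (1:ℝ) ∂(muL L) := by simp
  rw [h1]
  unfold phi
  apply tendsto_integral_filter_of_dominated_convergence (fun _ => (1:ℝ))
  · apply Eventually.of_forall
    intro x
    exact ((measurable_GG K).comp (by fun_prop : Measurable (fun y : ℝ => x * y))).aestronglyMeasurable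
  · filter_upwards [self_mem_nhdsWithin] with x hx
    filter_upwards [muL_nonneg hL] with y hy
    have hx' : (0:ℝ) ≤ x := hx
    rw [Real.norm_of_nonneg (GG_pos hK (by positivity)).le]
    exact GG_le_one hK (by positivity)
  · exact integrable_const _
  · filter_upwards [muL_nonneg hL] with y hy
    have h2 : ContinuousAt (GG K) 0 := continuousAt_GG hK le_rfl
    have h3 : Tendsto (fun x : ℝ => x * y) (𝓝[≥] 0) (𝓝 0) := by
      have : Tendsto (fun x : ℝ => x * y) (𝓝 0) (𝓝 (0 * y)) := (continuous_mul_const y).tendsto 0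
      rw [zero_mul] at this
      exact this.mono_left nhdsWithin_le_nhds
    have h4 := h2.tendsto.comp h3
    rw [GG_zero] at h4
    exact h4

lemma kap_nonneg_aux : 0 ≤ kap K + kap L := by
  have : ∀ M : List (ℝ × ℝ), PosL M → 0 ≤ kap M := by
    intro M hM
    unfold kap
    apply List.sum_nonneg
    intro x hx
    rw [List.mem_map] at hx
    obtain ⟨y, hy, rfl⟩ := hx
    exact (hM y hy).2.le
  exact add_nonneg (this K hK) (this L hL)

/-- the data attached to two lists -/
theorem exists_dat : ∃ D : Dat, D.w = varpi K L ∧ D.k = kap K + kap L := by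
  obtain ⟨N, hN, hNe⟩ := Psi_mul K L hK hL
  have h1 := GamL_pos hK
  have h2 := GamL_pos hL
  refine ⟨⟨varpi K L, N, kap K + kap L, kap_nonneg_aux hK hL, varpi_nonneg hK hL, ?_, ?_, hN, ?_, ?_⟩, rfl, rfl⟩
  · intro c hc
    rw [← Psi_eq_varpi hK hL hc, Psi_eq' hK hL hc]
    exact ENNReal.ofReal_ne_top
  · intro h
    have h3 := Psi_eq_varpi hK hL one_pos
    rw [h, lintegral_zero_measure, Psi_eq' hK hL one_pos] at h3
    have h4 := phi_pos hK hL (x := (1:ℝ)⁻¹ ^ 2) (by norm_num)
    rw [ENNReal.ofReal_eq_zero] at h3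
    have : 0 < GamL K * GamL L * 1 ^ (-(kap K + kap L)) * phi K L ((1:ℝ)⁻¹ ^ 2) := by positivity
    linarith
  · intro c c' hc hc'
    rw [← Psi_eq_varpi hK hL hc, ← Psi_eq_varpi hK hL hc']
    exact hNe c c' hc hc'
  · intro c c' hc hcc
    have hc' : 0 < c' := lt_of_lt_of_le hc hcc
    rw [← Psi_eq_varpi hK hL hc, ← Psi_eq_varpi hK hL hc', Psi_eq' hK hL hc, Psi_eq' hK hL hc']
    have p1 := phi_pos hK hL (x := c⁻¹ ^ 2) (by positivity)
    have p2 := phi_pos hK hL (x := c'⁻¹ ^ 2) (by positivity)
    rw [ENNReal.toReal_ofReal (by positivity), ENNReal.toReal_ofReal (by positivity)]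
    have e : ∀ c : ℝ, 0 < c → c ^ (kap K + kap L) * (GamL K * GamL L * c ^ (-(kap K + kap L)) * phi K L (c⁻¹ ^ 2))
        = GamL K * GamL L * phi K L (c⁻¹ ^ 2) := by
      intro c hc
      rw [Real.rpow_neg hc.le]
      have : c ^ (kap K + kap L) ≠ 0 := by positivity
      field_simp
    rw [e c hc, e c' hc']
    have h5 : phi K L (c⁻¹ ^ 2) ≤ phi K L (c'⁻¹ ^ 2) := by
      apply phi_anti hK hL (by positivity)
      gcongr
    exact mul_le_mul_of_nonneg_left h5 (by positivity)

/-- the finite product theorem -/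
theorem InG_phi : InG (phi K L) := by
  obtain ⟨D, hDw, hDk⟩ := exists_dat hK hL
  have h1 := GamL_pos hK
  have h2 := GamL_pos hL
  have hE : ∀ c : ℝ, 0 < c → D.E c = GamL K * GamL L * c ^ (-(kap K + kap L)) * phi K L (c⁻¹ ^ 2) := by
    intro c hc
    have p1 := phi_pos hK hL (x := c⁻¹ ^ 2) (by positivity)
    rw [← Dat.E_toReal, hDw, ← Psi_eq_varpi hK hL hc, Psi_eq' hK hL hc, ENNReal.toReal_ofReal (by positivity)]
  have hLam : ∀ s : ℝ, D.Lam s = -Real.log (GamL K * GamL L) - Real.log (phi K L (Real.exp s)) := by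
    intro s
    unfold Dat.Lam
    rw [hE _ (Real.exp_pos _), hDk]
    have e1 : (Real.exp (-s / 2))⁻¹ ^ 2 = Real.exp s := by
      rw [← Real.exp_neg, ← Real.exp_nat_mul]; congr 1; push_cast; ring
    have p1 := phi_pos hK hL (x := Real.exp s) (by positivity)
    rw [e1, Real.log_mul (by positivity) p1.ne', Real.log_mul (by positivity) (by positivity),
      Real.log_rpow (Real.exp_pos _), Real.log_exp]
    ring
  have hl : Tendsto D.Lam atBot (𝓝 (-Real.log (GamL K * GamL L))) := by
    have g1 : Tendsto (fun s => phi K L (Real.exp s)) atBot (𝓝 1) := by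
      apply (phi_tendsto hK hL).comp
      rw [tendsto_nhdsWithin_iff]
      exact ⟨Real.tendsto_exp_atBot, Eventually.of_forall (fun s => (Real.exp_pos s).le)⟩
    have g2 := (tendsto_const_nhds (x := -Real.log (GamL K * GamL L))).sub (g1.log one_ne_zero)
    rw [Real.log_one, sub_zero] at g2
    exact g2.congr (fun s => (hLam s).symm)
  apply InG.of_approx
  intro F hF ε hε
  -- choose p
  set κ := kap K + kap L with hκ
  have hκ0 : 0 ≤ κ := kap_nonneg_aux hK hL
  obtain ⟨p, hp0, hp1, hpε⟩ : ∃ p : ℝ, 0 < p ∧ p < 1 ∧ κ / 2 * ((1 - p) * Real.log 2) < ε := by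
    have hlog : 0 < Real.log 2 := Real.log_pos (by norm_num)
    refine ⟨1 - min (1/2) (ε / (κ + 1)), ?_, ?_, ?_⟩
    · have := min_le_left (1/2) (ε / (κ + 1)); linarith
    · have : 0 < min (1/2) (ε / (κ + 1)) := by positivity
      linarith
    · have h3 := min_le_right (1/2) (ε / (κ + 1))
      have h4 : Real.log 2 < 1 := by
        have := Real.log_two_lt_d9; linarith
      have h5 : 0 < min (1/2) (ε / (κ + 1)) := by positivity
      have h6 : (1 - (1 - min (1/2) (ε / (κ + 1)))) * Real.log 2 ≤ ε / (κ + 1) := by nlinarith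
      calc κ / 2 * ((1 - (1 - min (1/2) (ε / (κ + 1)))) * Real.log 2) ≤ κ / 2 * (ε / (κ + 1)) := by gcongr
        _ < ε := by
          have : κ / 2 * (ε / (κ + 1)) = (κ / (2 * (κ + 1))) * ε := by field_simp
          rw [this]
          have h7 : κ / (2 * (κ + 1)) < 1 := by rw [div_lt_one (by positivity)]; linarith
          nlinarith
  obtain ⟨σ, hσ, hrep⟩ := D.rep hl hp0 hp1
  rw [hDk] at hσ
  have hfin : IsFiniteMeasure σ := ⟨lt_of_le_of_lt hσ ENNReal.ofReal_lt_top⟩
  have hint1 : ∀ S : ℝ, Integrable (fun x => p * Real.log (1 + Real.exp ((S - x) / p))) σ := by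
    intro S
    refine ⟨Measurable.aestronglyMeasurable (by fun_prop), ?_⟩
    rw [hasFiniteIntegral_iff_ofReal]
    · rw [hrep S]; exact ENNReal.ofReal_lt_top
    · apply Eventually.of_forall
      intro x
      have : 0 ≤ Real.log (1 + Real.exp ((S - x) / p)) := Real.log_nonneg (by
        have := Real.exp_pos ((S - x) / p); linarith)
      show 0 ≤ p * Real.log (1 + Real.exp ((S - x) / p))
      positivity
  have hexp : ∀ x : ℝ, 0 < x → ∀ y : ℝ, x * Real.exp (-y) = Real.exp (Real.log x - y) := by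
    intro x hx y
    rw [sub_eq_add_neg, Real.exp_add, Real.exp_log hx]
  have hint2 : ∀ x : ℝ, 0 < x → Integrable (fun y => Real.log (1 + x * Real.exp (-y))) σ := by
    intro x hx
    apply Integrable.mono' ((hint1 (Real.log x)).add (integrable_const ((1 - p) * Real.log 2)))
    · apply Measurable.aestronglyMeasurable; fun_prop
    · apply Eventually.of_forall
      intro y
      rw [hexp x hx y, Real.norm_of_nonneg (Real.log_nonneg (by
        have := Real.exp_pos (Real.log x - y); linarith))]
      exact log_pm_ge hp0 hp1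
  refine ⟨_, InG_of_measure σ hint2, ?_⟩
  intro x hx
  have hx0 := hF x hx
  have p1 := phi_pos hK hL (x := x) hx0.le
  have p2 : phi K L x ≤ 1 := by
    have := isProb_muL hL
    have h3 := phi_anti hK hL (le_refl (0:ℝ)) hx0.le
    have h4 : phi K L 0 = 1 := by unfold phi; simp [GG_zero]
    rw [h4] at h3; exact h3
  have hlog : -Real.log (phi K L x) = ∫ y, p * Real.log (1 + Real.exp ((Real.log x - y) / p)) ∂σ := by
    have h3 := hrep (Real.log x)
    rw [hLam, Real.exp_log hx0] at h3
    have h4 : -Real.log (GamL K * GamL L) - Real.log (phi K L x) - -Real.log (GamL K * GamL L)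
        = -Real.log (phi K L x) := by ring
    rw [h4] at h3
    have hnn : ∀ᵐ y ∂σ, 0 ≤ p * Real.log (1 + Real.exp ((Real.log x - y) / p)) := by
      apply Eventually.of_forall
      intro y
      have : 0 ≤ Real.log (1 + Real.exp ((Real.log x - y) / p)) := Real.log_nonneg (by
        have := Real.exp_pos ((Real.log x - y) / p); linarith)
      positivity
    rw [← ofReal_integral_eq_lintegral_ofReal (hint1 _) hnn] at h3
    have h5 : 0 ≤ -Real.log (phi K L x) := by
      have := Real.log_nonpos p1.le p2; linarith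
    have h6 := congrArg ENNReal.toReal h3
    rw [ENNReal.toReal_ofReal (integral_nonneg_of_ae hnn), ENNReal.toReal_ofReal h5] at h6
    exact h6.symm
  have hphi : phi K L x = Real.exp (-(∫ y, p * Real.log (1 + Real.exp ((Real.log x - y) / p)) ∂σ)) := by
    rw [← hlog, neg_neg, Real.exp_log p1]
  rw [hphi]
  have hnn1 : 0 ≤ ∫ y, p * Real.log (1 + Real.exp ((Real.log x - y) / p)) ∂σ := by
    rw [← hlog]; have := Real.log_nonpos p1.le p2; linarith
  have hmono1 : ∫ y, p * Real.log (1 + Real.exp ((Real.log x - y) / p)) ∂σ ≤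
      ∫ y, Real.log (1 + x * Real.exp (-y)) ∂σ := by
    apply integral_mono (hint1 _) (hint2 x hx0)
    intro y
    show p * Real.log (1 + Real.exp ((Real.log x - y) / p)) ≤ Real.log (1 + x * Real.exp (-y))
    rw [hexp x hx0 y]
    exact log_pm_le hp0 hp1
  have hmono2 : ∫ y, Real.log (1 + x * Real.exp (-y)) ∂σ ≤
      ∫ y, p * Real.log (1 + Real.exp ((Real.log x - y) / p)) ∂σ + κ / 2 * ((1 - p) * Real.log 2) := by
    have h3 : ∫ y, Real.log (1 + x * Real.exp (-y)) ∂σ ≤
      ∫ y, (p * Real.log (1 + Real.exp ((Real.log x - y) / p)) + (1 - p) * Real.log 2) ∂σ := by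
      apply integral_mono (hint2 x hx0) ((hint1 _).add (integrable_const _))
      intro y
      show Real.log (1 + x * Real.exp (-y)) ≤ p * Real.log (1 + Real.exp ((Real.log x - y) / p)) + (1 - p) * Real.log 2
      rw [hexp x hx0 y]
      exact log_pm_ge hp0 hp1
    rw [integral_add (hint1 _) (integrable_const _), integral_const, smul_eq_mul] at h3
    have h4 : σ.real Set.univ ≤ κ / 2 := by
      have h5 := ENNReal.toReal_mono ENNReal.ofReal_ne_top hσ
      rw [ENNReal.toReal_ofReal (by positivity)] at h5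
      exact h5
    have h6 : 0 ≤ (1 - p) * Real.log 2 := by
      have : 0 < Real.log 2 := Real.log_pos (by norm_num)
      have : 0 < 1 - p := by linarith
      positivity
    have h7 := mul_le_mul_of_nonneg_right h4 h6
    linarith
  refine lt_of_le_of_lt (abs_exp_neg_sub hnn1 (hnn1.trans hmono1)) ?_
  rw [abs_lt]
  constructor <;> linarith

end
end H330GGC
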