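import Pool.Agent.H330R3.GGC.B2
open MeasureTheory Real ProbabilityTheory Set Filter
open scoped ENNReal Topology

set_option maxHeartbeats 1000000

namespace H330GGC

lemma unif_close {φ : ℝ → ℝ} (hcont : ContinuousOn φ (Ici 0)) (h0 : φ 0 = 1)
    (hanti : AntitoneOn φ (Ici 0)) (hlim : Tendsto φ atTop (𝓝 0)) {ε : ℝ} (hε : 0 < ε) :
    ∃ F : Finset ℝ, (∀ x ∈ F, 0 < x) ∧ ∃ δ : ℝ, 0 < δ ∧ ∀ g : ℝ → ℝ, AntitoneOn g (Ici 0) →
      (∀ x, 0 ≤ x → 0 ≤ g x ∧ g x ≤ 1) → (∀ x ∈ F, |φ x - g x| < δ) → ∀ x, 0 ≤ x → |φ x - g x| ≤ ε := by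
  obtain ⟨N, hN⟩ := exists_nat_gt (3 / ε)
  have hNpos : (0:ℝ) < N := lt_trans (by positivity) hN
  have hN3 : 3 / (N:ℝ) < ε := by
    rw [div_lt_iff₀ hNpos]; rw [div_lt_iff₀ hε] at hN; linarith
  -- points
  have hpt : ∀ i : ℕ, ∃ x : ℝ, 1 ≤ i → i < N → 0 < x ∧ φ x = 1 - i / N := by
    intro i
    by_cases hi : 1 ≤ i ∧ i < N
    · obtain ⟨hi1, hi2⟩ := hi
      have hi1' : (1:ℝ) ≤ i := by exact_mod_cast hi1
      have hi2' : (i:ℝ) < N := by exact_mod_cast hi2
      have hv0 : 0 < 1 - (i:ℝ) / N := by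
        have : (i:ℝ) / N < 1 := by rw [div_lt_one hNpos]; exact hi2'
        linarith
      have hv1 : 1 - (i:ℝ) / N < 1 := by
        have : 0 < (i:ℝ) / N := by positivity
        linarith
      obtain ⟨M, hM1, hM2⟩ := ((hlim.eventually_lt_const hv0).and (eventually_ge_atTop (0:ℝ))).exists
      have := intermediate_value_Icc' hM2 (hcont.mono Icc_subset_Ici_self)
      have hmem : 1 - (i:ℝ) / N ∈ Icc (φ M) (φ 0) := ⟨hM1.le, by rw [h0]; exact hv1.le⟩
      obtain ⟨x, hx, hxe⟩ := this hmem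
      refine ⟨x, fun _ _ => ⟨?_, hxe⟩⟩
      rcases hx.1.eq_or_lt with h | h
      · rw [← h, h0] at hxe; linarith
      · exact h
    · exact ⟨0, fun h1 h2 => absurd ⟨h1, h2⟩ hi⟩
  choose X hX using hpt
  refine ⟨(Finset.Ico 1 N).image X, ?_, 1 / N, by positivity, ?_⟩
  · intro x hx
    rw [Finset.mem_image] at hx
    obtain ⟨i, hi, rfl⟩ := hx
    rw [Finset.mem_Ico] at hi
    exact (hX i hi.1 hi.2).1
  · intro g hg hg01 hF y hy
    have hφ1 : φ y ≤ 1 := by rw [← h0]; exact hanti (by simp) hy hy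
    have hφ0 : 0 ≤ φ y := by
      apply le_of_tendsto hlim
      filter_upwards [eventually_ge_atTop y] with c hc
      exact hanti hy (hy.trans hc) hc
    set i := ⌊(N:ℝ) * (1 - φ y)⌋₊ with hi
    have hi1 : (i:ℝ) ≤ N * (1 - φ y) := Nat.floor_le (by
      have : 0 ≤ 1 - φ y := by linarith
      positivity)
    have hi2 : (N:ℝ) * (1 - φ y) < i + 1 := Nat.lt_floor_add_one _
    have hN1 : (1:ℝ) / N * N = 1 := by field_simp
    set d : ℝ := 1 / N with hd
    have hd0 : 0 < d := by positivity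
    have hdi : ∀ t : ℝ, t / N = t * d := by intro t; rw [hd]; ring
    have h3d : 3 * d < ε := by rw [← hdi]; exact hN3
    have hi1' : i * d ≤ 1 - φ y := by
      have := mul_le_mul_of_nonneg_right hi1 hd0.le
      have e : N * (1 - φ y) * d = 1 - φ y := by
        calc N * (1 - φ y) * d = (d * N) * (1 - φ y) := by ring
          _ = 1 - φ y := by rw [hN1, one_mul]
      linarith
    have hi2' : 1 - φ y < (i + 1) * d := by
      have := mul_lt_mul_of_pos_right hi2 hd0
      have e : N * (1 - φ y) * d = 1 - φ y := by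
        calc N * (1 - φ y) * d = (d * N) * (1 - φ y) := by ring
          _ = 1 - φ y := by rw [hN1, one_mul]
      linarith
    have hup : g y ≤ φ y + 3 * d := by
      by_cases hc : i ≤ 1
      · have h1 := (hg01 y hy).2
        have h2 : (i:ℝ) ≤ 1 := by exact_mod_cast hc
        nlinarith
      · push Not at hc
        have hj1 : 1 ≤ i - 1 := by omega
        have hiN : i ≤ N := by
          have : (i:ℝ) ≤ N := by nlinarith
          exact_mod_cast this
        have hj2 : i - 1 < N := by omega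
        obtain ⟨hx0, hx1⟩ := hX (i - 1) hj1 hj2
        rw [hdi, Nat.cast_sub (by omega)] at hx1
        push_cast at hx1
        have hxy : X (i - 1) ≤ y := by
          by_contra hcon
          push Not at hcon
          have := hanti hy hx0.le hcon.le
          nlinarith
        have h4 := hg hx0.le hy hxy
        have h5 := hF (X (i - 1)) (Finset.mem_image_of_mem _ (Finset.mem_Ico.mpr ⟨hj1, hj2⟩))
        rw [abs_lt] at h5
        nlinarith [h5.1]
    have hlo : φ y - 3 * d ≤ g y := by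
      by_cases hc : N ≤ i + 2
      · have h1 := (hg01 y hy).1
        have h2 : (N:ℝ) ≤ i + 2 := by exact_mod_cast hc
        have h3 : 1 ≤ (i + 2) * d := by
          have := mul_le_mul_of_nonneg_right h2 hd0.le
          linarith
        nlinarith
      · push Not at hc
        obtain ⟨hx0, hx1⟩ := hX (i + 2) (by omega) hc
        rw [hdi] at hx1
        push_cast at hx1
        have hxy : y ≤ X (i + 2) := by
          by_contra hcon
          push Not at hcon
          have := hanti hx0.le hy hcon.le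
          nlinarith
        have h4 := hg hy hx0.le hxy
        have h5 := hF (X (i + 2)) (Finset.mem_image_of_mem _ (Finset.mem_Ico.mpr ⟨by omega, hc⟩))
        rw [abs_lt] at h5
        nlinarith [h5.2]
    rw [abs_le]
    constructor <;> linarith

/-- real Laplace transform -/
noncomputable def LT (μ : Measure ℝ) (x : ℝ) : ℝ := ∫ y, Real.exp (-(x * y)) ∂μ

lemma LT_int {μ : Measure ℝ} [IsProbabilityMeasure μ] (hμ : ∀ᵐ y ∂μ, 0 ≤ y) {x : ℝ} (hx : 0 ≤ x) :
    Integrable (fun y => Real.exp (-(x * y))) μ := by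
  apply Integrable.mono' (integrable_const (1:ℝ)) (by fun_prop)
  filter_upwards [hμ] with y hy
  rw [Real.norm_of_nonneg (Real.exp_pos _).le, Real.exp_le_one_iff]
  have := mul_nonneg hx hy
  linarith

lemma LT_anti {μ : Measure ℝ} [IsProbabilityMeasure μ] (hμ : ∀ᵐ y ∂μ, 0 ≤ y) :
    AntitoneOn (LT μ) (Ici 0) := by
  intro x hx y hy hxy
  apply integral_mono_ae (LT_int hμ hy) (LT_int hμ hx)
  filter_upwards [hμ] with z hz
  apply Real.exp_le_exp.mpr
  nlinarith

lemma LT_zero {μ : Measure ℝ} [IsProbabilityMeasure μ] : LT μ 0 = 1 := by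
  unfold LT; simp

lemma LT_nonneg (μ : Measure ℝ) (x : ℝ) : 0 ≤ LT μ x := integral_nonneg (fun y => (Real.exp_pos _).le)

lemma LT_le_one {μ : Measure ℝ} [IsProbabilityMeasure μ] (hμ : ∀ᵐ y ∂μ, 0 ≤ y) {x : ℝ} (hx : 0 ≤ x) :
    LT μ x ≤ 1 := by
  rw [← LT_zero (μ := μ)]
  exact LT_anti hμ (by simp) hx hx

lemma LT_cont {μ : Measure ℝ} [IsProbabilityMeasure μ] (hμ : ∀ᵐ y ∂μ, 0 ≤ y) :
    ContinuousOn (LT μ) (Ici 0) := by
  unfold LT
  apply continuousOn_of_dominated (bound := fun _ => (1:ℝ))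
  · intro x _; fun_prop
  · intro x hx
    filter_upwards [hμ] with y hy
    rw [Real.norm_of_nonneg (Real.exp_pos _).le, Real.exp_le_one_iff]
    have hx' : (0:ℝ) ≤ x := hx
    have := mul_nonneg hx' hy
    linarith
  · exact integrable_const _
  · apply Eventually.of_forall
    intro y
    fun_prop

lemma LT_lim {μ : Measure ℝ} [IsProbabilityMeasure μ] (hμ : ∀ᵐ y ∂μ, 0 < y) :
    Tendsto (LT μ) atTop (𝓝 0) := by
  have h1 : (0:ℝ) = ∫ y, (0:ℝ) ∂μ := by simp
  rw [h1]
  unfold LT
  apply tendsto_integral_filter_of_dominated_convergence (fun _ => (1:ℝ))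
  · apply Eventually.of_forall
    intro x; fun_prop
  · filter_upwards [eventually_ge_atTop (0:ℝ)] with x hx
    filter_upwards [hμ] with y hy
    rw [Real.norm_of_nonneg (Real.exp_pos _).le, Real.exp_le_one_iff]
    have := mul_nonneg hx hy.le
    linarith
  · exact integrable_const _
  · filter_upwards [hμ] with y hy
    apply Real.tendsto_exp_atBot.comp
    apply tendsto_neg_atTop_atBot.comp
    exact Tendsto.atTop_mul_const hy tendsto_id

lemma GG_eq_integral {L : List (ℝ × ℝ)} (hL : PosL L) {x : ℝ} (hx : 0 ≤ x) :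
    GG L x = LT (muL L) x := by
  have h := lintegral_muL_exp hL hx
  have := isProb_muL hL
  unfold LT
  rw [integral_eq_lintegral_of_nonneg_ae (Eventually.of_forall (fun y => (Real.exp_pos _).le)) (by fun_prop),
    h, ENNReal.toReal_ofReal (GG_pos hL hx).le]

lemma InG.unif {φ : ℝ → ℝ} (h : InG φ) (hcont : ContinuousOn φ (Ici 0)) (h0 : φ 0 = 1)
    (hanti : AntitoneOn φ (Ici 0)) (hlim : Tendsto φ atTop (𝓝 0)) {ε : ℝ} (hε : 0 < ε) :
    ∃ K, PosL K ∧ ∀ x, 0 ≤ x → |φ x - GG K x| ≤ ε := by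
  obtain ⟨F, hF, δ, hδ, hU⟩ := unif_close hcont h0 hanti hlim hε
  obtain ⟨K, hK, hK1⟩ := h F hF δ hδ
  refine ⟨K, hK, hU (GG K) ?_ ?_ hK1⟩
  · intro x hx y _ hxy
    exact GG_anti hK hx hxy
  · intro x hx
    exact ⟨(GG_pos hK hx).le, GG_le_one hK hx⟩

/-- **Product theorem.** -/
theorem InG_prod (μ ν : Measure ℝ) [IsProbabilityMeasure μ] [IsProbabilityMeasure ν]
    (hμ : ∀ᵐ y ∂μ, 0 < y) (hν : ∀ᵐ y ∂ν, 0 < y) (h1 : InG (LT μ)) (h2 : InG (LT ν)) :
    InG (fun x => ∫ z, LT μ (x * z) ∂ν) := by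
  have hμ' : ∀ᵐ y ∂μ, 0 ≤ y := hμ.mono (fun y hy => hy.le)
  have hν' : ∀ᵐ y ∂ν, 0 ≤ y := hν.mono (fun y hy => hy.le)
  apply InG.of_approx
  intro F hF ε hε
  obtain ⟨K, hK, hK1⟩ := h1.unif (LT_cont hμ') LT_zero (LT_anti hμ') (LT_lim hμ) (ε := ε / 4) (by positivity)
  obtain ⟨L, hL, hL1⟩ := h2.unif (LT_cont hν') LT_zero (LT_anti hν') (LT_lim hν) (ε := ε / 4) (by positivity)
  have hKp := isProb_muL hK
  refine ⟨phi L K, InG_phi hL hK, ?_⟩
  intro x hx
  have hx0 := (hF x hx).le
  -- measurability of LT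
  have hLTm : ∀ (ρ : Measure ℝ) [IsProbabilityMeasure ρ], Measurable (LT ρ) := by
    intro ρ _
    unfold LT
    have : StronglyMeasurable (fun x : ℝ => ∫ y, (fun p : ℝ × ℝ => Real.exp (-(p.1 * p.2))) (x, y) ∂ρ) := by
      apply StronglyMeasurable.integral_prod_right
      apply Measurable.stronglyMeasurable
      fun_prop
    exact this.measurable
  have iA : Integrable (fun z => LT μ (x * z)) ν := by
    apply Integrable.mono' (integrable_const (1:ℝ))
    · exact ((hLTm μ).comp (by fun_prop : Measurable (fun z : ℝ => x * z))).aestronglyMeasurable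
    · filter_upwards [hν'] with z hz
      rw [Real.norm_of_nonneg (LT_nonneg _ _)]
      exact LT_le_one hμ' (by positivity)
  have iB : Integrable (fun z => GG K (x * z)) ν := by
    apply Integrable.mono' (integrable_const (1:ℝ))
    · exact ((measurable_GG K).comp (by fun_prop : Measurable (fun z : ℝ => x * z))).aestronglyMeasurable
    · filter_upwards [hν'] with z hz
      rw [Real.norm_of_nonneg (GG_pos hK (by positivity)).le]
      exact GG_le_one hK (by positivity)
  have iC : Integrable (fun y => LT ν (x * y)) (muL K) := by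
    apply Integrable.mono' (integrable_const (1:ℝ))
    · exact ((hLTm ν).comp (by fun_prop : Measurable (fun z : ℝ => x * z))).aestronglyMeasurable
    · filter_upwards [muL_nonneg hK] with z hz
      rw [Real.norm_of_nonneg (LT_nonneg _ _)]
      exact LT_le_one hν' (by positivity)
  have iD : Integrable (fun y => GG L (x * y)) (muL K) := GG_int hL hK hx0
  have hAB : |(∫ z, LT μ (x * z) ∂ν) - ∫ z, GG K (x * z) ∂ν| ≤ ε / 4 := by
    rw [← integral_sub iA iB]
    calc |∫ z, (LT μ (x * z) - GG K (x * z)) ∂ν| ≤ ∫ z, |LT μ (x * z) - GG K (x * z)| ∂ν := abs_integral_le_integral_abs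
      _ ≤ ∫ z, ε / 4 ∂ν := by
          apply integral_mono_ae (iA.sub iB).abs (integrable_const _)
          filter_upwards [hν'] with z hz
          exact hK1 _ (by positivity)
      _ = ε / 4 := by simp
  have hCD : |(∫ y, LT ν (x * y) ∂(muL K)) - ∫ y, GG L (x * y) ∂(muL K)| ≤ ε / 4 := by
    rw [← integral_sub iC iD]
    calc |∫ z, (LT ν (x * z) - GG L (x * z)) ∂(muL K)| ≤ ∫ z, |LT ν (x * z) - GG L (x * z)| ∂(muL K) := abs_integral_le_integral_abs
      _ ≤ ∫ z, ε / 4 ∂(muL K) := by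
          apply integral_mono_ae (iC.sub iD).abs (integrable_const _)
          filter_upwards [muL_nonneg hK] with z hz
          exact hL1 _ (by positivity)
      _ = ε / 4 := by simp
  have hBC : ∫ z, GG K (x * z) ∂ν = ∫ y, LT ν (x * y) ∂(muL K) := by
    have e1 : ∫ z, GG K (x * z) ∂ν = ∫ z, ∫ y, Real.exp (-(x * z * y)) ∂(muL K) ∂ν := by
      apply integral_congr_ae
      filter_upwards [hν'] with z hz
      rw [GG_eq_integral hK (by positivity)]
      rfl
    rw [e1, integral_integral_swap]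
    · apply integral_congr_ae
      apply Eventually.of_forall
      intro y
      unfold LT
      apply integral_congr_ae
      apply Eventually.of_forall
      intro z
      show Real.exp (-(x * z * y)) = Real.exp (-(x * y * z))
      congr 1; ring
    · apply Integrable.mono' (integrable_const (1:ℝ))
      · apply Measurable.aestronglyMeasurable
        unfold Function.uncurry
        fun_prop
      · have a1 : ∀ᵐ p ∂(ν.prod (muL K)), 0 ≤ p.1 := Measure.quasiMeasurePreserving_fst.ae hν'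
        have a2 : ∀ᵐ p ∂(ν.prod (muL K)), 0 ≤ p.2 := Measure.quasiMeasurePreserving_snd.ae (muL_nonneg hK)
        filter_upwards [a1, a2] with p b1 b2
        unfold Function.uncurry
        rw [Real.norm_of_nonneg (Real.exp_pos _).le, Real.exp_le_one_iff]
        have : 0 ≤ x * p.1 * p.2 := by positivity
        linarith
  rw [hBC] at hAB
  have htri := abs_sub_le (∫ z, LT μ (x * z) ∂ν) (∫ y, LT ν (x * y) ∂(muL K)) (phi L K x)
  have : phi L K x = ∫ y, GG L (x * y) ∂(muL K) := rfl
  rw [← this] at hCD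
  linarith

end H330GGC
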