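import Pool.Agent.H330R3.GGC.E2
open MeasureTheory Real ProbabilityTheory Set Filter
open scoped ENNReal Topology

set_option maxHeartbeats 1000000

namespace H330GGC

/-- representation as a Laplace transform of a measure on `[0,∞)` -/
def Rep (k : ℝ → ℝ≥0∞) : Prop :=
  ∃ U : Measure ℝ, SFinite U ∧ (∀ᵐ t ∂U, 0 ≤ t) ∧
    ∀ x : ℝ, 0 ≤ x → k x = ∫⁻ t, ENNReal.ofReal (Real.exp (-(x * t))) ∂U

def RepP (k : ℝ → ℝ≥0∞) : Prop :=
  ∃ U : Measure ℝ, SFinite U ∧ (∀ᵐ t ∂U, 0 < t) ∧
    ∀ x : ℝ, 0 ≤ x → k x = ∫⁻ t, ENNReal.ofReal (Real.exp (-(x * t))) ∂U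

lemma RepP.rep {k : ℝ → ℝ≥0∞} (h : RepP k) : Rep k := by
  obtain ⟨U, hU, h1, h2⟩ := h
  exact ⟨U, hU, h1.mono (fun t ht => ht.le), h2⟩

lemma repP_mul_aux {k l : ℝ → ℝ≥0∞} (hk : RepP k) (hl : Rep l) : RepP (fun x => k x * l x) := by
  obtain ⟨U, hU, h1, h2⟩ := hk
  obtain ⟨V, hV, h3, h4⟩ := hl
  refine ⟨Measure.map (fun p : ℝ × ℝ => p.1 + p.2) (U.prod V), inferInstance, ?_, ?_⟩
  · have hms : MeasurableSet {t : ℝ | 0 < t} := measurableSet_Ioi
    rw [ae_map_iff (by apply Measurable.aemeasurable; fun_prop) hms]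
    have a1 : ∀ᵐ p ∂(U.prod V), 0 < p.1 := Measure.quasiMeasurePreserving_fst.ae h1
    have a2 : ∀ᵐ p ∂(U.prod V), 0 ≤ p.2 := Measure.quasiMeasurePreserving_snd.ae h3
    filter_upwards [a1, a2] with p b1 b2
    linarith
  · intro x hx
    rw [lintegral_map (by fun_prop) (by fun_prop), lintegral_prod _ (by apply Measurable.aemeasurable; fun_prop)]
    have e : ∀ t : ℝ, ∫⁻ u, ENNReal.ofReal (Real.exp (-(x * (t + u)))) ∂V =
        ENNReal.ofReal (Real.exp (-(x * t))) * ∫⁻ u, ENNReal.ofReal (Real.exp (-(x * u))) ∂V := by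
      intro t
      rw [← lintegral_const_mul _ (by fun_prop)]
      apply lintegral_congr
      intro u
      rw [← ENNReal.ofReal_mul (by positivity), ← Real.exp_add]
      congr 2; ring
    simp_rw [e]
    rw [lintegral_mul_const _ (by fun_prop), ← h2 x hx, ← h4 x hx]

lemma rep_mul_aux {k l : ℝ → ℝ≥0∞} (hk : Rep k) (hl : Rep l) : Rep (fun x => k x * l x) := by
  obtain ⟨U, hU, h1, h2⟩ := hk
  obtain ⟨V, hV, h3, h4⟩ := hl
  refine ⟨Measure.map (fun p : ℝ × ℝ => p.1 + p.2) (U.prod V), inferInstance, ?_, ?_⟩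
  · have hms : MeasurableSet {t : ℝ | 0 ≤ t} := measurableSet_Ici
    rw [ae_map_iff (by apply Measurable.aemeasurable; fun_prop) hms]
    have a1 : ∀ᵐ p ∂(U.prod V), 0 ≤ p.1 := Measure.quasiMeasurePreserving_fst.ae h1
    have a2 : ∀ᵐ p ∂(U.prod V), 0 ≤ p.2 := Measure.quasiMeasurePreserving_snd.ae h3
    filter_upwards [a1, a2] with p b1 b2
    linarith
  · intro x hx
    rw [lintegral_map (by fun_prop) (by fun_prop), lintegral_prod _ (by apply Measurable.aemeasurable; fun_prop)]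
    have e : ∀ t : ℝ, ∫⁻ u, ENNReal.ofReal (Real.exp (-(x * (t + u)))) ∂V =
        ENNReal.ofReal (Real.exp (-(x * t))) * ∫⁻ u, ENNReal.ofReal (Real.exp (-(x * u))) ∂V := by
      intro t
      rw [← lintegral_const_mul _ (by fun_prop)]
      apply lintegral_congr
      intro u
      rw [← ENNReal.ofReal_mul (by positivity), ← Real.exp_add]
      congr 2; ring
    simp_rw [e]
    rw [lintegral_mul_const _ (by fun_prop), ← h2 x hx, ← h4 x hx]

lemma rep_one : Rep (fun _ => 1) := by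
  refine ⟨Measure.dirac 0, inferInstance, ?_, ?_⟩
  · rw [ae_dirac_iff measurableSet_Ici]
  · intro x _
    rw [lintegral_dirac' _ (by fun_prop)]
    simp

lemma rep_pow {k : ℝ → ℝ≥0∞} (hk : Rep k) (n : ℕ) : Rep (fun x => k x ^ n) := by
  induction n with
  | zero => simpa using rep_one
  | succ n ih =>
    have := rep_mul_aux ih hk
    simpa [pow_succ] using this

lemma rep_tsum {k : ℕ → ℝ → ℝ≥0∞} (hk : ∀ n, Rep (k n)) : Rep (fun x => ∑' n, k n x) := by
  choose U hU h1 h2 using hk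
  refine ⟨Measure.sum U, inferInstance, ?_, ?_⟩
  · rw [Measure.ae_sum_iff]; exact h1
  · intro x hx
    rw [lintegral_sum_measure]
    exact tsum_congr (fun n => h2 n x hx)

lemma repP_const_mul {k : ℝ → ℝ≥0∞} (c : ℝ≥0∞) (hk : RepP k) : RepP (fun x => c * k x) := by
  obtain ⟨U, hU, h1, h2⟩ := hk
  refine ⟨c • U, inferInstance, Measure.ae_smul_measure h1 c, ?_⟩
  intro x hx
  rw [lintegral_smul_measure, ← h2 x hx, smul_eq_mul]

lemma rep_const_mul {k : ℝ → ℝ≥0∞} (c : ℝ≥0∞) (hk : Rep k) : Rep (fun x => c * k x) := by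
  obtain ⟨U, hU, h1, h2⟩ := hk
  refine ⟨c • U, inferInstance, Measure.ae_smul_measure h1 c, ?_⟩
  intro x hx
  rw [lintegral_smul_measure, ← h2 x hx, smul_eq_mul]

lemma repP_gamma {a : ℝ} (ha : 0 < a) : RepP (fun x => ENNReal.ofReal ((1 + x) ^ (-a))) := by
  have hΓ := Real.Gamma_pos_of_pos ha
  refine ⟨(ENNReal.ofReal (Real.Gamma a))⁻¹ • hh.withDensity (fun t => ENNReal.ofReal (t ^ a) *
    ENNReal.ofReal (Real.exp (-t))), inferInstance, ?_, ?_⟩
  · apply Measure.ae_smul_measure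
    exact (withDensity_absolutelyContinuous _ _).ae_le hh_pos
  · intro x hx
    rw [lintegral_smul_measure, lintegral_withDensity_eq_lintegral_mul _ (by fun_prop) (by fun_prop)]
    have e : ∫⁻ t, ((fun t => ENNReal.ofReal (t ^ a) * ENNReal.ofReal (Real.exp (-t))) *
        fun t => ENNReal.ofReal (Real.exp (-(x * t)))) t ∂hh
        = ∫⁻ t, ENNReal.ofReal (t ^ a) * ENNReal.ofReal (Real.exp (-(t * (1 + x)))) ∂hh := by
      apply lintegral_congr
      intro t
      simp only [Pi.mul_apply]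
      rw [mul_assoc, ← ENNReal.ofReal_mul (by positivity), ← Real.exp_add]
      congr 3; ring
    rw [e, gamma_hh ha (by positivity), ENNReal.ofReal_mul hΓ.le, smul_eq_mul, ← mul_assoc,
      ENNReal.inv_mul_cancel (by positivity) ENNReal.ofReal_ne_top, one_mul]

/-- the function `T` in `ENNReal` -/
noncomputable def TT (g x : ℝ) : ℝ≥0∞ :=
  ENNReal.ofReal (1 - g) * ∫⁻ r in Set.Ioo (0:ℝ) 1, ENNReal.ofReal ((1 + x * r) ^ (-g))

lemma rep_TT {g : ℝ} (hg : 0 < g) : Rep (TT g) := by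
  apply rep_const_mul
  obtain ⟨U, hU, h1, h2⟩ := (repP_gamma hg).rep
  refine ⟨Measure.map (fun p : ℝ × ℝ => p.1 * p.2) ((volume.restrict (Set.Ioo (0:ℝ) 1)).prod U),
    inferInstance, ?_, ?_⟩
  · have hms : MeasurableSet {t : ℝ | 0 ≤ t} := measurableSet_Ici
    rw [ae_map_iff (by apply Measurable.aemeasurable; fun_prop) hms]
    have h3 : ∀ᵐ r ∂(volume.restrict (Set.Ioo (0:ℝ) 1)), 0 ≤ r := by
      filter_upwards [ae_restrict_mem measurableSet_Ioo] with r hr
      exact hr.1.le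
    have a1 : ∀ᵐ p ∂((volume.restrict (Set.Ioo (0:ℝ) 1)).prod U), 0 ≤ p.1 := Measure.quasiMeasurePreserving_fst.ae h3
    have a2 : ∀ᵐ p ∂((volume.restrict (Set.Ioo (0:ℝ) 1)).prod U), 0 ≤ p.2 := Measure.quasiMeasurePreserving_snd.ae h1
    filter_upwards [a1, a2] with p b1 b2
    positivity
  · intro x hx
    rw [lintegral_map (by fun_prop) (by fun_prop), lintegral_prod _ (by apply Measurable.aemeasurable; fun_prop)]
    apply lintegral_congr_ae
    filter_upwards [ae_restrict_mem measurableSet_Ioo] with r hr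
    have h2' := h2 (x * r) (mul_nonneg hx hr.1.le)
    simp only at h2'
    rw [h2']
    apply lintegral_congr
    intro t
    congr 3; ring

/-- value of `T` -/
lemma TT_eq {g x : ℝ} (hg0 : 0 < g) (hg1 : g ≤ 1) (hx : 0 < x) :
    TT g x = ENNReal.ofReal (((1 + x) ^ (1 - g) - 1) / x) := by
  unfold TT
  rcases hg1.eq_or_lt with h | hg1
  · subst h; simp
  have hd : ∀ r ∈ Set.uIcc (0:ℝ) 1, HasDerivAt (fun r : ℝ => (1 + x * r) ^ (1 - g) / ((1 - g) * x))
      ((1 + x * r) ^ (-g)) r := by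
    intro r hr
    rw [uIcc_of_le (by norm_num)] at hr
    have hpos : 0 < 1 + x * r := by have := mul_nonneg hx.le hr.1; linarith
    have h1 : HasDerivAt (fun r : ℝ => 1 + x * r) (x * 1) r := ((hasDerivAt_id r).const_mul x).const_add 1
    have h2 := (h1.rpow_const (p := 1 - g) (Or.inl hpos.ne')).div_const ((1 - g) * x)
    have h3 : (1 + x * r) ^ (-g) = x * 1 * (1 - g) * (1 + x * r) ^ (1 - g - 1) / ((1 - g) * x) := by
      have : 1 - g ≠ 0 := by linarith
      rw [show 1 - g - 1 = -g by ring]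
      field_simp
    rw [h3]; exact h2
  have hcont : ContinuousOn (fun r : ℝ => (1 + x * r) ^ (-g)) (Set.uIcc (0:ℝ) 1) := by
    intro r hr
    rw [uIcc_of_le (by norm_num)] at hr
    have hpos : 0 < 1 + x * r := by have := mul_nonneg hx.le hr.1; linarith
    apply ContinuousAt.continuousWithinAt
    exact ContinuousAt.rpow_const (by fun_prop) (Or.inl hpos.ne')
  have hI := intervalIntegral.integral_eq_sub_of_hasDerivAt hd hcont.intervalIntegrable
  have hint : IntegrableOn (fun r : ℝ => (1 + x * r) ^ (-g)) (Set.Ioo (0:ℝ) 1) := by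
    rw [uIcc_of_le (by norm_num)] at hcont
    exact (hcont.integrableOn_Icc).mono_set Ioo_subset_Icc_self
  rw [← ofReal_integral_eq_lintegral_ofReal hint, ← ENNReal.ofReal_mul (by linarith)]
  · congr 1
    rw [← integral_Ioc_eq_integral_Ioo, ← intervalIntegral.integral_of_le (by norm_num), hI]
    have : 1 - g ≠ 0 := by linarith
    simp
    field_simp
  · filter_upwards [ae_restrict_mem measurableSet_Ioo] with r hr
    have hpos : 0 < 1 + x * r := by have := mul_pos hx hr.1; linarith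
    show 0 ≤ (1 + x * r) ^ (-g)
    positivity

lemma TT_zero {g : ℝ} : TT g 0 = ENNReal.ofReal (1 - g) := by
  unfold TT; simp

/-- the kernel `k` -/
lemma repP_k {g a : ℝ} (hg0 : 0 < g) (ha : 0 < a) :
    RepP (fun x => ENNReal.ofReal g * (ENNReal.ofReal ((1 + x) ^ (-(a * g))) * (1 - TT g x)⁻¹)) := by
  apply repP_const_mul
  apply repP_mul_aux (repP_gamma (by positivity))
  have : (fun x => (1 - TT g x)⁻¹) = fun x => ∑' n : ℕ, TT g x ^ n := by
    ext x
    rw [ENNReal.tsum_geometric]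
  rw [this]
  exact rep_tsum (fun n => rep_pow (rep_TT hg0) n)

/-- the density of the jumps in the variable `x` -/
noncomputable def ell (g a x : ℝ) : ℝ := g * (1 + x) ^ (-(a * g) - 1) / (1 - (1 + x) ^ (-g))

lemma ell_pos {g a x : ℝ} (hg0 : 0 < g) (hx : 0 < x) : 0 < ell g a x := by
  unfold ell
  have h1 : (1 + x) ^ (-g) < 1 := Real.rpow_lt_one_of_one_lt_of_neg (by linarith) (by linarith)
  have h2 : 0 < 1 - (1 + x) ^ (-g) := by linarith
  positivity

lemma k_eq {g a x : ℝ} (hg0 : 0 < g) (hg1 : g ≤ 1) (hx : 0 < x) :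
    ENNReal.ofReal (x * ell g a x) =
      ENNReal.ofReal g * (ENNReal.ofReal ((1 + x) ^ (-(a * g))) * (1 - TT g x)⁻¹) := by
  rw [TT_eq hg0 hg1 hx]
  have h1 : (1 + x) ^ (-g) < 1 := Real.rpow_lt_one_of_one_lt_of_neg (by linarith) (by linarith)
  have h2 : 0 < 1 - (1 + x) ^ (-g) := by linarith
  have e1 : (1 + x) ^ (1 - g) = (1 + x) * (1 + x) ^ (-g) := by
    rw [sub_eq_add_neg, Real.rpow_add (by linarith), Real.rpow_one]
  have e0 : 1 - ((1 + x) ^ (1 - g) - 1) / x = (1 + x) * (1 - (1 + x) ^ (-g)) / x := by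
    rw [e1]; field_simp; ring
  have h3 : 0 < 1 - ((1 + x) ^ (1 - g) - 1) / x := by rw [e0]; positivity
  have h4 : 0 ≤ ((1 + x) ^ (1 - g) - 1) / x := by
    have : 1 ≤ (1 + x) ^ (1 - g) := Real.one_le_rpow (by linarith) (by linarith)
    apply div_nonneg _ hx.le
    linarith
  rw [← ENNReal.ofReal_one, ← ENNReal.ofReal_sub _ h4, ← ENNReal.ofReal_inv_of_pos h3,
    ← ENNReal.ofReal_mul (by positivity), ← ENNReal.ofReal_mul (by positivity)]
  congr 1
  unfold ell
  rw [e0, sub_eq_add_neg (-(a * g)), Real.rpow_add (by linarith : (0:ℝ) < 1 + x), Real.rpow_neg_one]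
  field_simp

/-- Frullani -/
lemma frullani {l t : ℝ} (hl : 0 < l) (ht : 0 < t) :
    ∫⁻ x in Set.Ioi (0:ℝ), ENNReal.ofReal ((1 - Real.exp (-(l * x))) / x) * ENNReal.ofReal (Real.exp (-(x * t)))
      = ENNReal.ofReal (Real.log (1 + l / t)) := by
  have h1 : ∀ x ∈ Set.Ioi (0:ℝ), ENNReal.ofReal ((1 - Real.exp (-(l * x))) / x) * ENNReal.ofReal (Real.exp (-(x * t)))
      = ∫⁻ r in Set.Ioo (0:ℝ) l, ENNReal.ofReal (Real.exp (-(x * (r + t)))) := by
    intro x hx
    have hx' : (0:ℝ) < x := hx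
    have hd : ∀ r ∈ Set.uIcc (0:ℝ) l, HasDerivAt (fun r : ℝ => -(Real.exp (-(x * (r + t))) / x))
        (Real.exp (-(x * (r + t)))) r := by
      intro r _
      have g1 : HasDerivAt (fun r : ℝ => -(x * (r + t))) (-(x * 1)) r :=
        (((hasDerivAt_id r).add_const t).const_mul x).neg
      have g2 := (g1.exp.div_const x).neg
      have g3 : Real.exp (-(x * (r + t))) = -(Real.exp (-(x * (r + t))) * (-(x * 1)) / x) := by
        field_simp
      have g4 := g2
      rw [← g3] at g4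
      exact g4
    have hI := intervalIntegral.integral_eq_sub_of_hasDerivAt hd
      ((by fun_prop : Continuous (fun r : ℝ => Real.exp (-(x * (r + t))))).intervalIntegrable 0 l)
    have hint : IntegrableOn (fun r : ℝ => Real.exp (-(x * (r + t)))) (Set.Ioo (0:ℝ) l) :=
      ((by fun_prop : Continuous (fun r : ℝ => Real.exp (-(x * (r + t))))).integrableOn_Icc).mono_set Ioo_subset_Icc_self
    rw [← ofReal_integral_eq_lintegral_ofReal hint (Eventually.of_forall (fun r => (Real.exp_pos _).le)),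
      ← integral_Ioc_eq_integral_Ioo, ← intervalIntegral.integral_of_le hl.le, hI,
      ← ENNReal.ofReal_mul (by
        apply div_nonneg _ hx'.le
        have : Real.exp (-(l * x)) ≤ 1 := Real.exp_le_one_iff.mpr (by nlinarith)
        linarith)]
    congr 1
    have e1 : Real.exp (-(x * (l + t))) = Real.exp (-(l * x)) * Real.exp (-(x * t)) := by
      rw [← Real.exp_add]; congr 1; ring
    rw [e1, zero_add]
    field_simp
    ring
  rw [setLIntegral_congr_fun measurableSet_Ioi h1]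
  rw [lintegral_lintegral_swap (by apply Measurable.aemeasurable; fun_prop)]
  have h2 : ∀ r ∈ Set.Ioo (0:ℝ) l, ∫⁻ x in Set.Ioi (0:ℝ), ENNReal.ofReal (Real.exp (-(x * (r + t))))
      = ENNReal.ofReal (1 / (r + t)) := by
    intro r hr
    have hrt : 0 < r + t := by linarith [hr.1]
    have hint : IntegrableOn (fun x : ℝ => Real.exp (-(x * (r + t)))) (Set.Ioi (0:ℝ)) := by
      have := exp_neg_integrableOn_Ioi 0 hrt
      refine this.congr_fun (fun x _ => ?_) measurableSet_Ioi
      ring_nf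
    rw [← ofReal_integral_eq_lintegral_ofReal hint (Eventually.of_forall (fun r => (Real.exp_pos _).le))]
    congr 1
    have h3 := integral_exp_mul_Ioi (a := -(r + t)) (by linarith) 0
    simp only [mul_zero, Real.exp_zero] at h3
    have h4 : ∫ x in Set.Ioi (0:ℝ), Real.exp (-(x * (r + t))) = ∫ x in Set.Ioi (0:ℝ), Real.exp (-(r + t) * x) := by
      congr 1; ext x; ring_nf
    rw [h4, h3]
    field_simp
  rw [setLIntegral_congr_fun measurableSet_Ioo h2]
  have hd : ∀ r ∈ Set.uIcc (0:ℝ) l, HasDerivAt (fun r : ℝ => Real.log (r + t)) (1 / (r + t)) r := by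
    intro r hr
    rw [uIcc_of_le hl.le] at hr
    have hrt : r + t ≠ 0 := by have := hr.1; positivity
    exact ((hasDerivAt_id r).add_const t).log hrt
  have hcont : ContinuousOn (fun r : ℝ => 1 / (r + t)) (Set.Icc (0:ℝ) l) := by
    intro r hr
    have hrt : r + t ≠ 0 := by have := hr.1; positivity
    apply ContinuousAt.continuousWithinAt
    exact ContinuousAt.div (by fun_prop) (by fun_prop) hrt
  have hI := intervalIntegral.integral_eq_sub_of_hasDerivAt hd (by
    apply ContinuousOn.intervalIntegrable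
    rw [uIcc_of_le hl.le]; exact hcont)
  have hint : IntegrableOn (fun r : ℝ => 1 / (r + t)) (Set.Ioo (0:ℝ) l) :=
    hcont.integrableOn_Icc.mono_set Ioo_subset_Icc_self
  rw [← ofReal_integral_eq_lintegral_ofReal hint]
  · rw [← integral_Ioc_eq_integral_Ioo, ← intervalIntegral.integral_of_le hl.le, hI, zero_add,
      ← Real.log_div (by positivity) (by positivity)]
    congr 2
    field_simp
    ring
  · filter_upwards [ae_restrict_mem measurableSet_Ioo] with r hr
    have hrt : 0 < r + t := by linarith [hr.1]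
    show 0 ≤ 1 / (r + t)
    positivity

/-- change of variables -/
lemma chvar {g : ℝ} (hg : 0 < g) {a : ℝ} (F : ℝ → ℝ≥0∞) :
    ∫⁻ y in Set.Ioo (0:ℝ) 1, F (y ^ (-(1 / g)) - 1) * ENNReal.ofReal (y ^ (a - 1) / (1 - y)) =
      ∫⁻ x in Set.Ioi (0:ℝ), F x * ENNReal.ofReal (ell g a x) := by
  have himg : (fun x : ℝ => (1 + x) ^ (-g)) '' (Set.Ioi 0) = Set.Ioo (0:ℝ) 1 := by
    ext y
    constructor
    · rintro ⟨x, hx, rfl⟩
      have hx' : (0:ℝ) < x := hx
      constructor
      · positivity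
      · exact Real.rpow_lt_one_of_one_lt_of_neg (by linarith) (by linarith)
    · rintro ⟨h0, h1⟩
      refine ⟨y ^ (-(1 / g)) - 1, ?_, ?_⟩
      · show (0:ℝ) < _
        have := Real.one_lt_rpow_of_pos_of_lt_one_of_neg h0 h1 (show -(1 / g) < 0 by
          have : 0 < 1 / g := by positivity
          linarith)
        linarith
      · simp only [add_sub_cancel]
        rw [← Real.rpow_mul h0.le]
        have : -(1 / g) * -g = 1 := by field_simp
        rw [this, Real.rpow_one]
  have hinj : Set.InjOn (fun x : ℝ => (1 + x) ^ (-g)) (Set.Ioi 0) := by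
    intro x hx y hy hxy
    have hx' : (0:ℝ) < x := hx
    have hy' : (0:ℝ) < y := hy
    simp only at hxy
    have h1 := congrArg (fun z : ℝ => z ^ (-(1 / g))) hxy
    rw [← Real.rpow_mul (by positivity), ← Real.rpow_mul (by positivity)] at h1
    have : -g * -(1 / g) = 1 := by field_simp
    rw [this, Real.rpow_one, Real.rpow_one] at h1
    linarith
  have hd : ∀ x ∈ Set.Ioi (0:ℝ), HasDerivWithinAt (fun x : ℝ => (1 + x) ^ (-g)) (1 * (-g) * (1 + x) ^ (-g - 1)) (Set.Ioi 0) x := by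
    intro x hx
    have hx' : (0:ℝ) < x := hx
    have h1 : HasDerivAt (fun x : ℝ => 1 + x) 1 x := (hasDerivAt_id x).const_add 1
    exact (h1.rpow_const (p := -g) (Or.inl (by positivity))).hasDerivWithinAt
  have h := lintegral_image_eq_lintegral_abs_deriv_mul measurableSet_Ioi hd hinj
    (fun y => F (y ^ (-(1 / g)) - 1) * ENNReal.ofReal (y ^ (a - 1) / (1 - y)))
  rw [himg] at h
  rw [h]
  apply setLIntegral_congr_fun measurableSet_Ioi
  intro x hx
  have hx' : (0:ℝ) < x := hx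
  simp only
  have e1 : ((1 + x) ^ (-g)) ^ (-(1 / g)) - 1 = x := by
    rw [← Real.rpow_mul (by positivity)]
    have : -g * -(1 / g) = 1 := by field_simp
    rw [this, Real.rpow_one]; ring
  rw [e1, mul_comm, mul_assoc]
  congr 1
  rw [← ENNReal.ofReal_mul (by
    have h1 : (1 + x) ^ (-g) < 1 := Real.rpow_lt_one_of_one_lt_of_neg (by linarith) (by linarith)
    have h2 : 0 < 1 - (1 + x) ^ (-g) := by linarith
    positivity)]
  congr 1
  have e2 : |1 * -g * (1 + x) ^ (-g - 1)| = g * (1 + x) ^ (-g - 1) := by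
    rw [one_mul, neg_mul, abs_neg, abs_of_pos (by positivity)]
  rw [e2]
  unfold ell
  have e3 : ((1 + x) ^ (-g)) ^ (a - 1) * (1 + x) ^ (-g - 1) = (1 + x) ^ (-(a * g) - 1) := by
    rw [← Real.rpow_mul (by positivity), ← Real.rpow_add (by positivity)]
    congr 1; ring
  rw [← e3]
  ring

end H330GGC
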