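import Pool.Agent.H330R3.GGC.C1
import Pool.Agent.H330R3.GGC.B3
open MeasureTheory Real ProbabilityTheory Set Filter
open scoped ENNReal Topology

set_option maxHeartbeats 1000000

namespace H330GGC

/-- the integrand of `psi` -/
noncomputable def pint (g a l y : ℝ) : ℝ := (1 - Real.exp (-(l * (y ^ (-(1 / g)) - 1)))) * (y ^ (a - 1) / (1 - y))

noncomputable def psi (g a l : ℝ) : ℝ := ∫ y in Set.Ioo (0:ℝ) 1, pint g a l y

noncomputable def CC (g : ℝ) : ℝ := (1 / g) * 2 ^ (1 / g)

lemma CC_pos {g : ℝ} (hg : 0 < g) : 0 < CC g := by unfold CC; positivity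

lemma jump_pos {g y : ℝ} (hg0 : 0 < g) (hy0 : 0 < y) (hy1 : y < 1) : 0 < y ^ (-(1 / g)) - 1 := by
  have := Real.one_lt_rpow_of_pos_of_lt_one_of_neg hy0 hy1 (show -(1 / g) < 0 by
    have : 0 < 1 / g := by positivity
    linarith)
  linarith

lemma pint_nonneg {g a l y : ℝ} (hg0 : 0 < g) (hl : 0 ≤ l) (hy0 : 0 < y) (hy1 : y < 1) :
    0 ≤ pint g a l y := by
  unfold pint
  have h1 := jump_pos hg0 hy0 hy1
  have h2 : Real.exp (-(l * (y ^ (-(1 / g)) - 1))) ≤ 1 := Real.exp_le_one_iff.mpr (by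
    have := mul_nonneg hl h1.le; linarith)
  have h3 : 0 < 1 - y := by linarith
  have h4 : 0 ≤ 1 - Real.exp (-(l * (y ^ (-(1 / g)) - 1))) := by linarith
  positivity

lemma pint_le {g a l y : ℝ} (hg0 : 0 < g) (hg1 : g ≤ 1) (hl : 0 ≤ l) (hy0 : 0 < y) (hy1 : y < 1) :
    pint g a l y ≤ (l * CC g + 2) * y ^ (a - 1) := by
  unfold pint
  have h1 := jump_pos hg0 hy0 hy1
  have h3 : 0 < 1 - y := by linarith
  have hs1 : 1 ≤ 1 / g := by rw [le_div_iff₀ hg0]; linarith
  have hC := CC_pos hg0
  have hya : 0 < y ^ (a - 1) := by positivity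
  have key : (1 - Real.exp (-(l * (y ^ (-(1 / g)) - 1)))) ≤ (l * CC g + 2) * (1 - y) := by
    by_cases h : y ≤ 1 / 2
    · have := Real.exp_pos (-(l * (y ^ (-(1 / g)) - 1)))
      have h5 : 1 ≤ 2 * (1 - y) := by linarith
      have h6 : 0 ≤ l * CC g * (1 - y) := by positivity
      nlinarith
    · push Not at h
      have h4 := Real.add_one_le_exp (-(l * (y ^ (-(1 / g)) - 1)))
      have h5 : y ^ (-(1 / g)) ≤ 2 ^ (1 / g) := by
        rw [Real.rpow_neg hy0.le, ← Real.inv_rpow hy0.le]
        apply Real.rpow_le_rpow (by positivity) _ (by positivity)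
        rw [inv_le_comm₀ hy0 (by norm_num)]; linarith
      have h6 : 1 - y ^ (1 / g) ≤ (1 / g) * (1 - y) := by
        have := one_add_mul_self_le_rpow_one_add (s := y - 1) (by linarith) hs1
        rw [show 1 + (y - 1) = y by ring] at this
        linarith
      have h7 : y ^ (-(1 / g)) - 1 = y ^ (-(1 / g)) * (1 - y ^ (1 / g)) := by
        rw [mul_sub, mul_one, ← Real.rpow_add hy0, neg_add_cancel, Real.rpow_zero]
      have h8 : y ^ (-(1 / g)) - 1 ≤ CC g * (1 - y) := by
        rw [h7]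
        unfold CC
        have h9 : 0 ≤ 1 - y ^ (1 / g) := by
          have := Real.rpow_le_one hy0.le hy1.le (by positivity : 0 ≤ 1 / g)
          linarith
        calc y ^ (-(1 / g)) * (1 - y ^ (1 / g)) ≤ 2 ^ (1 / g) * ((1 / g) * (1 - y)) :=
              mul_le_mul h5 h6 h9 (by positivity)
          _ = _ := by ring
      have h10 := mul_le_mul_of_nonneg_left h8 hl
      nlinarith
  rw [← mul_div_assoc, div_le_iff₀ h3]
  have := mul_le_mul_of_nonneg_right key hya.le
  linarith

lemma pint_meas (g a l : ℝ) : Measurable (pint g a l) := by unfold pint; fun_prop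

lemma pow_int {a : ℝ} (ha : 0 < a) : IntegrableOn (fun y : ℝ => y ^ (a - 1)) (Set.Ioo (0:ℝ) 1) := by
  have := (intervalIntegral.intervalIntegrable_rpow' (a := 0) (b := 1) (r := a - 1) (by linarith))
  rw [intervalIntegrable_iff_integrableOn_Ioo_of_le (by norm_num)] at this
  exact this

lemma pow_integral {a : ℝ} (ha : 0 < a) : ∫ y in Set.Ioo (0:ℝ) 1, y ^ (a - 1) = 1 / a := by
  rw [← integral_Ioc_eq_integral_Ioo, ← intervalIntegral.integral_of_le (by norm_num),
    integral_rpow (Or.inl (by linarith))]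
  simp [ha.ne']

lemma pint_int {g a l : ℝ} (hg0 : 0 < g) (hg1 : g ≤ 1) (ha : 0 < a) (hl : 0 ≤ l) :
    IntegrableOn (pint g a l) (Set.Ioo (0:ℝ) 1) := by
  apply Integrable.mono' ((pow_int ha).const_mul (l * CC g + 2)) (pint_meas g a l).aestronglyMeasurable
  filter_upwards [ae_restrict_mem measurableSet_Ioo] with y hy
  rw [Real.norm_of_nonneg (pint_nonneg hg0 hl hy.1 hy.2)]
  exact pint_le hg0 hg1 hl hy.1 hy.2

lemma psi_le {g a l : ℝ} (hg0 : 0 < g) (hg1 : g ≤ 1) (ha : 0 < a) (hl : 0 ≤ l) :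
    psi g a l ≤ (l * CC g + 2) / a := by
  have : (l * CC g + 2) / a = ∫ y in Set.Ioo (0:ℝ) 1, (l * CC g + 2) * y ^ (a - 1) := by
    rw [integral_const_mul, pow_integral ha]; ring
  rw [this]
  unfold psi
  apply setIntegral_mono_on (pint_int hg0 hg1 ha hl) ((pow_int ha).const_mul _) measurableSet_Ioo
  intro y hy
  exact pint_le hg0 hg1 hl hy.1 hy.2

lemma psi_nonneg {g a l : ℝ} (hg0 : 0 < g) (hl : 0 ≤ l) : 0 ≤ psi g a l :=
  setIntegral_nonneg measurableSet_Ioo (fun y hy => pint_nonneg hg0 hl hy.1 hy.2)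

lemma psi_zero {g a : ℝ} : psi g a 0 = 0 := by unfold psi pint; simp

lemma psi_mono {g a : ℝ} (hg0 : 0 < g) (hg1 : g ≤ 1) (ha : 0 < a) : MonotoneOn (psi g a) (Ici 0) := by
  intro l hl l' hl' hll
  unfold psi
  apply setIntegral_mono_on (pint_int hg0 hg1 ha hl) (pint_int hg0 hg1 ha hl') measurableSet_Ioo
  intro y hy
  unfold pint
  have h1 := jump_pos hg0 hy.1 hy.2
  have h3 : 0 < 1 - y := by linarith [hy.2]
  have hy0 := hy.1
  have : Real.exp (-(l' * (y ^ (-(1 / g)) - 1))) ≤ Real.exp (-(l * (y ^ (-(1 / g)) - 1))) := by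
    apply Real.exp_le_exp.mpr
    nlinarith
  gcongr

lemma psi_cont {g a : ℝ} (hg0 : 0 < g) (hg1 : g ≤ 1) (ha : 0 < a) : ContinuousOn (psi g a) (Ici 0) := by
  have hC := CC_pos hg0
  intro l0 hl0
  unfold psi
  apply continuousWithinAt_of_dominated (bound := fun y => ((l0 + 1) * CC g + 2) * y ^ (a - 1))
  · exact Eventually.of_forall (fun l => (pint_meas g a l).aestronglyMeasurable)
  · have h1 : ∀ᶠ l in 𝓝[Ici 0] l0, l < l0 + 1 := by
      apply mem_nhdsWithin_of_mem_nhds
      exact Iio_mem_nhds (by linarith)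
    filter_upwards [h1, self_mem_nhdsWithin] with l h1 h2
    have h2' : (0:ℝ) ≤ l := h2
    filter_upwards [ae_restrict_mem measurableSet_Ioo] with y hy
    rw [Real.norm_of_nonneg (pint_nonneg hg0 h2' hy.1 hy.2)]
    refine (pint_le hg0 hg1 h2' hy.1 hy.2).trans ?_
    have := Real.rpow_pos_of_pos hy.1 (a - 1)
    apply mul_le_mul_of_nonneg_right _ this.le
    nlinarith
  · exact (pow_int ha).const_mul _
  · filter_upwards with y
    unfold pint
    apply Continuous.continuousWithinAt
    fun_prop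

/-- the Thorin measure of the jumps -/
theorem exists_U {g a : ℝ} (hg0 : 0 < g) (hg1 : g ≤ 1) (ha : 0 < a) :
    ∃ U : Measure ℝ, IsProbabilityMeasure U ∧ (∀ᵐ t ∂U, 0 < t) ∧ ∀ l : ℝ, 0 < l →
      Integrable (fun t => Real.log (1 + l / t)) U ∧ psi g a l = ∫ t, Real.log (1 + l / t) ∂U := by
  obtain ⟨U, hU, h1, h2⟩ := repP_k (g := g) (a := a) hg0 ha
  simp only at h2
  have hmass : U Set.univ = 1 := by
    have h3 := h2 0 le_rfl
    rw [TT_zero] at h3
    simp only [add_zero, Real.one_rpow, ENNReal.ofReal_one, one_mul, zero_mul, neg_zero, Real.exp_zero,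
      lintegral_const] at h3
    rw [← h3, ← ENNReal.ofReal_one, ← ENNReal.ofReal_sub _ (by linarith), sub_sub_cancel,
      ENNReal.mul_inv_cancel (by positivity) ENNReal.ofReal_ne_top, ENNReal.ofReal_one]
  have hUp : IsProbabilityMeasure U := ⟨hmass⟩
  refine ⟨U, hUp, h1, ?_⟩
  intro l hl
  have hlint : ENNReal.ofReal (psi g a l) = ∫⁻ t, ENNReal.ofReal (Real.log (1 + l / t)) ∂U := by
    unfold psi
    rw [ofReal_integral_eq_lintegral_ofReal (pint_int hg0 hg1 ha hl.le) (by
      filter_upwards [ae_restrict_mem measurableSet_Ioo] with y hy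
      exact pint_nonneg hg0 hl.le hy.1 hy.2)]
    have e1 : ∫⁻ y in Set.Ioo (0:ℝ) 1, ENNReal.ofReal (pint g a l y)
        = ∫⁻ y in Set.Ioo (0:ℝ) 1, (fun x => ENNReal.ofReal (1 - Real.exp (-(l * x)))) (y ^ (-(1 / g)) - 1) *
          ENNReal.ofReal (y ^ (a - 1) / (1 - y)) := by
      apply setLIntegral_congr_fun measurableSet_Ioo
      intro y hy
      simp only
      unfold pint
      rw [ENNReal.ofReal_mul]
      have h1 := jump_pos hg0 hy.1 hy.2
      have h2 : Real.exp (-(l * (y ^ (-(1 / g)) - 1))) ≤ 1 := Real.exp_le_one_iff.mpr (by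
        have := mul_nonneg hl.le h1.le; linarith)
      linarith
    rw [e1, chvar hg0 (a := a) (fun x => ENNReal.ofReal (1 - Real.exp (-(l * x))))]
    have e2 : ∫⁻ x in Set.Ioi (0:ℝ), ENNReal.ofReal (1 - Real.exp (-(l * x))) * ENNReal.ofReal (ell g a x)
        = ∫⁻ x in Set.Ioi (0:ℝ), ∫⁻ t, ENNReal.ofReal ((1 - Real.exp (-(l * x))) / x) *
          ENNReal.ofReal (Real.exp (-(x * t))) ∂U := by
      apply setLIntegral_congr_fun measurableSet_Ioi
      intro x hx
      have hx' : (0:ℝ) < x := hx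
      simp only
      rw [lintegral_const_mul _ (by fun_prop), ← h2 x hx'.le, ← k_eq hg0 hg1 hx']
      have hp : 0 ≤ 1 - Real.exp (-(l * x)) := by
        have : Real.exp (-(l * x)) ≤ 1 := Real.exp_le_one_iff.mpr (by
          have := mul_pos hl hx'; linarith)
        linarith
      rw [← ENNReal.ofReal_mul hp, ← ENNReal.ofReal_mul (by positivity)]
      congr 1
      field_simp
    rw [e2, lintegral_lintegral_swap (by apply Measurable.aemeasurable; fun_prop)]
    apply lintegral_congr_ae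
    filter_upwards [h1] with t ht
    exact frullani hl ht
  have hnn : ∀ᵐ t ∂U, 0 ≤ Real.log (1 + l / t) := by
    filter_upwards [h1] with t ht
    apply Real.log_nonneg
    have : 0 < l / t := by positivity
    linarith
  have hI : Integrable (fun t => Real.log (1 + l / t)) U := by
    refine ⟨Measurable.aestronglyMeasurable (by fun_prop), ?_⟩
    rw [hasFiniteIntegral_iff_ofReal hnn, ← hlint]
    exact ENNReal.ofReal_lt_top
  refine ⟨hI, ?_⟩
  rw [← ofReal_integral_eq_lintegral_ofReal hI hnn] at hlint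
  have h5 := congrArg ENNReal.toReal hlint
  rw [ENNReal.toReal_ofReal (psi_nonneg hg0 hl.le), ENNReal.toReal_ofReal (integral_nonneg_of_ae hnn)] at h5
  exact h5

lemma psi_tendsto {g a : ℝ} (hg0 : 0 < g) (hg1 : g ≤ 1) (ha : 0 < a) : Tendsto (psi g a) atTop atTop := by
  obtain ⟨U, hU, h1, h2⟩ := exists_U hg0 hg1 ha
  -- choose T
  have ht : Tendsto (fun T : ℝ => U (Iic T)) atTop (𝓝 (U univ)) := tendsto_measure_Iic_atTop U
  rw [measure_univ] at ht
  have hev : ∀ᶠ T : ℝ in atTop, (2⁻¹ : ℝ≥0∞) < U (Iic T) := ht.eventually_const_lt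
    ENNReal.one_half_lt_one
  obtain ⟨T, hT, hT0⟩ := (hev.and (eventually_gt_atTop (0:ℝ))).exists
  have hlb : ∀ l : ℝ, 0 < l → (1/2) * Real.log (1 + l / T) ≤ psi g a l := by
    intro l hl
    obtain ⟨hI, he⟩ := h2 l hl
    rw [he]
    have hnn : ∀ᵐ t ∂U, 0 ≤ Real.log (1 + l / t) := by
      filter_upwards [h1] with t ht
      apply Real.log_nonneg
      have : 0 < l / t := by positivity
      linarith
    have hc : 0 ≤ Real.log (1 + l / T) := by
      apply Real.log_nonneg
      have : 0 < l / T := by positivity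
      linarith
    calc (1/2) * Real.log (1 + l / T) ≤ U.real (Iic T) * Real.log (1 + l / T) := by
          apply mul_le_mul_of_nonneg_right _ hc
          rw [Measure.real]
          have := ENNReal.toReal_mono (measure_ne_top U _) hT.le
          simpa using this
      _ = ∫ t in Iic T, Real.log (1 + l / T) ∂U := by rw [setIntegral_const, smul_eq_mul]
      _ ≤ ∫ t in Iic T, Real.log (1 + l / t) ∂U := by
          apply setIntegral_mono_on_ae (integrable_const _).integrableOn hI.integrableOn measurableSet_Iic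
          filter_upwards [h1] with t ht htT
          have htT' : t ≤ T := htT
          apply Real.log_le_log (by positivity)
          gcongr
      _ ≤ ∫ t, Real.log (1 + l / t) ∂U := setIntegral_le_integral hI hnn
  apply tendsto_atTop_mono' _ (f₁ := fun l => (1/2) * Real.log (1 + l / T))
  · filter_upwards [eventually_gt_atTop (0:ℝ)] with l hl
    exact hlb l hl
  · apply Tendsto.const_mul_atTop (by norm_num)
    apply Real.tendsto_log_atTop.comp
    apply tendsto_atTop_add_const_left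
    exact tendsto_id.atTop_div_const hT0

lemma InG_psi {g a δ : ℝ} (hg0 : 0 < g) (hg1 : g ≤ 1) (ha : 0 < a) (hδ : 0 ≤ δ) :
    InG (fun l => Real.exp (-(δ * psi g a l))) := by
  obtain ⟨U, hU, h1, h2⟩ := exists_U hg0 hg1 ha
  set σ : Measure ℝ := (ENNReal.ofReal δ) • Measure.map Real.log U with hσ
  have hfin : IsFiniteMeasure (Measure.map Real.log U) := inferInstance
  have hfin2 : IsFiniteMeasure σ := by
    rw [hσ]; exact Measure.smul_finite _ ENNReal.ofReal_ne_top
  have hm : ∀ x : ℝ, Measurable (fun y : ℝ => Real.log (1 + x * Real.exp (-y))) := by intro x; fun_prop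
  have hcong : ∀ x : ℝ, ∀ᵐ t ∂U, Real.log (1 + x * Real.exp (-(Real.log t))) = Real.log (1 + x / t) := by
    intro x
    filter_upwards [h1] with t ht
    rw [Real.exp_neg, Real.exp_log ht]; rfl
  have hint : ∀ x : ℝ, 0 < x → Integrable (fun y => Real.log (1 + x * Real.exp (-y))) (Measure.map Real.log U) := by
    intro x hx
    rw [integrable_map_measure (hm x).aestronglyMeasurable Real.measurable_log.aemeasurable]
    exact (h2 x hx).1.congr ((hcong x).mono (fun t ht => ht.symm))
  have hmain := InG_of_measure σ (fun x hx => (hint x hx).smul_measure ENNReal.ofReal_ne_top)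
  apply hmain.congr
  intro x hx
  rw [hσ, integral_smul_measure, ENNReal.toReal_ofReal hδ, smul_eq_mul,
    integral_map Real.measurable_log.aemeasurable (hm x).aestronglyMeasurable, (h2 x hx).2]
  congr 3
  exact integral_congr_ae (hcong x)

end H330GGC
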