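import Pool.Agent.H330R3.GGC.C2
open MeasureTheory Real ProbabilityTheory Set Filter
open scoped ENNReal Topology

set_option maxHeartbeats 1000000

namespace H330GGC

lemma beta_int {α β : ℝ} (hα : 0 < α) (hβ : 0 < β) :
    IntegrableOn (fun x : ℝ => x ^ (α - 1) * (1 - x) ^ (β - 1)) (Set.Ioo (0:ℝ) 1) ∧
    ∫ x in Set.Ioo (0:ℝ) 1, x ^ (α - 1) * (1 - x) ^ (β - 1) = beta α β := by
  have hB := beta_pos hα hβ
  have h1 := lintegral_betaPDF_eq_one hα hβ
  rw [lintegral_betaPDF] at h1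
  have hnn : ∀ᵐ x ∂(volume.restrict (Set.Ioo (0:ℝ) 1)), 0 ≤ 1 / beta α β * x ^ (α - 1) * (1 - x) ^ (β - 1) := by
    filter_upwards [ae_restrict_mem measurableSet_Ioo] with x hx
    have h0 := hx.1
    have h2 : 0 < 1 - x := by linarith [hx.2]
    positivity
  have hI : Integrable (fun x : ℝ => 1 / beta α β * x ^ (α - 1) * (1 - x) ^ (β - 1)) (volume.restrict (Set.Ioo (0:ℝ) 1)) := by
    refine ⟨Measurable.aestronglyMeasurable (by fun_prop), ?_⟩
    rw [hasFiniteIntegral_iff_ofReal hnn, h1]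
    exact ENNReal.one_lt_top
  rw [← ofReal_integral_eq_lintegral_ofReal hI hnn] at h1
  have h2 : ∫ x in Set.Ioo (0:ℝ) 1, 1 / beta α β * x ^ (α - 1) * (1 - x) ^ (β - 1) = 1 := by
    have := congrArg ENNReal.toReal h1
    rw [ENNReal.toReal_ofReal (integral_nonneg_of_ae hnn)] at this
    simpa using this
  constructor
  · have := hI.const_mul (beta α β)
    refine this.congr (Eventually.of_forall (fun x => ?_))
    simp only
    field_simp
  · have h3 : ∫ x in Set.Ioo (0:ℝ) 1, 1 / beta α β * x ^ (α - 1) * (1 - x) ^ (β - 1)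
        = 1 / beta α β * ∫ x in Set.Ioo (0:ℝ) 1, x ^ (α - 1) * (1 - x) ^ (β - 1) := by
      rw [← integral_const_mul]
      congr 1; ext x; ring
    rw [h3] at h2
    field_simp at h2
    exact h2

/-- `c(α) = ∫ (1 - x^q) x^{α-1}/(1-x)` -/
noncomputable def cq (q α : ℝ) : ℝ := ∫ x in Set.Ioo (0:ℝ) 1, (1 - x ^ q) * (x ^ (α - 1) / (1 - x))

lemma cq_int_nonneg {q α x : ℝ} (hq : 1 ≤ q) (hx0 : 0 < x) (hx1 : x < 1) :
    0 ≤ (1 - x ^ q) * (x ^ (α - 1) / (1 - x)) := by
  have h1 : x ^ q ≤ 1 := Real.rpow_le_one hx0.le hx1.le (by linarith)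
  have h2 : 0 < 1 - x := by linarith
  have h3 : 0 ≤ 1 - x ^ q := by linarith
  positivity

lemma cq_int_le {q α x : ℝ} (hq : 1 ≤ q) (hx0 : 0 < x) (hx1 : x < 1) :
    (1 - x ^ q) * (x ^ (α - 1) / (1 - x)) ≤ q * x ^ (α - 1) := by
  have h2 : 0 < 1 - x := by linarith
  have h6 : 1 - x ^ q ≤ q * (1 - x) := by
    have := one_add_mul_self_le_rpow_one_add (s := x - 1) (by linarith) hq
    rw [show 1 + (x - 1) = x by ring] at this
    linarith
  rw [← mul_div_assoc, div_le_iff₀ h2]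
  have h3 : 0 < x ^ (α - 1) := by positivity
  nlinarith [mul_le_mul_of_nonneg_right h6 h3.le]

lemma cq_int {q α : ℝ} (hq : 1 ≤ q) (hα : 0 < α) :
    IntegrableOn (fun x : ℝ => (1 - x ^ q) * (x ^ (α - 1) / (1 - x))) (Set.Ioo (0:ℝ) 1) := by
  apply Integrable.mono' ((pow_int hα).const_mul q) (Measurable.aestronglyMeasurable (by fun_prop))
  filter_upwards [ae_restrict_mem measurableSet_Ioo] with x hx
  rw [Real.norm_of_nonneg (cq_int_nonneg hq hx.1 hx.2)]
  exact cq_int_le hq hx.1 hx.2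

lemma cq_nonneg {q α : ℝ} (hq : 1 ≤ q) : 0 ≤ cq q α :=
  setIntegral_nonneg measurableSet_Ioo (fun x hx => cq_int_nonneg hq hx.1 hx.2)

lemma cq_anti {q a α : ℝ} (hq : 1 ≤ q) (ha : 0 < a) (hα : a ≤ α) : cq q α ≤ cq q a := by
  unfold cq
  apply setIntegral_mono_on (cq_int hq (by linarith)) (cq_int hq ha) measurableSet_Ioo
  intro x hx
  have h1 : x ^ q ≤ 1 := Real.rpow_le_one hx.1.le hx.2.le (by linarith)
  have h2 : 0 < 1 - x := by linarith [hx.2]
  have h3 : 0 ≤ 1 - x ^ q := by linarith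
  have h4 : x ^ (α - 1) ≤ x ^ (a - 1) := Real.rpow_le_rpow_of_exponent_ge hx.1 hx.2.le (by linarith)
  gcongr

/-- `E B_{α,δ}^q` -/
noncomputable def RR (q α δ : ℝ) : ℝ := beta (α + q) δ / beta α δ

lemma RR_eq {q α δ : ℝ} (hq : 1 ≤ q) (hα : 0 < α) (hδ : 0 < δ) :
    1 - RR q α δ = δ * (Real.Gamma (α + δ) / (Real.Gamma α * Real.Gamma (1 + δ))) *
      ∫ x in Set.Ioo (0:ℝ) 1, (1 - x ^ q) * (x ^ (α - 1) * (1 - x) ^ (δ - 1)) := by
  obtain ⟨i1, e1⟩ := beta_int hα hδ
  obtain ⟨i2, e2⟩ := beta_int (show 0 < α + q by linarith) hδ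
  have hB := beta_pos hα hδ
  have h1 : ∫ x in Set.Ioo (0:ℝ) 1, (1 - x ^ q) * (x ^ (α - 1) * (1 - x) ^ (δ - 1))
      = beta α δ - beta (α + q) δ := by
    rw [← e1, ← e2, ← integral_sub i1 i2]
    apply setIntegral_congr_fun measurableSet_Ioo
    intro x hx
    have hx0 := hx.1
    simp only
    have : x ^ (α + q - 1) = x ^ (α - 1) * x ^ q := by
      rw [← Real.rpow_add hx0]; congr 1; ring
    rw [this]; ring
  rw [h1]
  have h2 : δ * (Real.Gamma (α + δ) / (Real.Gamma α * Real.Gamma (1 + δ))) = 1 / beta α δ := by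
    unfold beta
    rw [show 1 + δ = δ + 1 by ring, Real.Gamma_add_one hδ.ne']
    have g1 := Real.Gamma_pos_of_pos hα
    have g2 := Real.Gamma_pos_of_pos hδ
    have g3 := Real.Gamma_pos_of_pos (show 0 < α + δ by linarith)
    field_simp
  rw [h2]
  unfold RR
  field_simp

lemma RR_mem {q α δ : ℝ} (hq : 1 ≤ q) (hα : 0 < α) (hδ : 0 < δ) : 0 ≤ RR q α δ ∧ RR q α δ ≤ 1 := by
  constructor
  · exact (div_pos (beta_pos (by linarith) hδ) (beta_pos hα hδ)).le
  · have h := RR_eq hq hα hδ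
    have h2 : 0 ≤ 1 - RR q α δ := by
      rw [h]
      have g1 := Real.Gamma_pos_of_pos hα
      have g2 := Real.Gamma_pos_of_pos (show 0 < 1 + δ by linarith)
      have g3 := Real.Gamma_pos_of_pos (show 0 < α + δ by linarith)
      apply mul_nonneg (by positivity)
      apply setIntegral_nonneg measurableSet_Ioo
      intro x hx
      have h1 : x ^ q ≤ 1 := Real.rpow_le_one hx.1.le hx.2.le (by linarith)
      have h2 : 0 < 1 - x := by linarith [hx.2]
      have h3 : 0 ≤ 1 - x ^ q := by linarith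
      have h4 := hx.1
      positivity
    linarith

lemma kappa_unif {a b : ℝ} (ha : 0 < a) {ε : ℝ} (hε : 0 < ε) :
    ∀ᶠ δ in 𝓝 (0:ℝ), ∀ α ∈ Set.Icc a (a + b),
      |Real.Gamma (α + δ) / (Real.Gamma α * Real.Gamma (1 + δ)) - 1| < ε := by
  apply IsCompact.eventually_forall_of_forall_eventually isCompact_Icc
  intro α hα
  have hα0 : 0 < α := lt_of_lt_of_le ha hα.1
  have hG : ∀ z : ℝ, 0 < z → ContinuousAt Real.Gamma z := fun z hz =>
    (Real.differentiableAt_Gamma (fun m => by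
      have : (0:ℝ) ≤ m := Nat.cast_nonneg m
      linarith)).continuousAt
  have hc : ContinuousAt (fun z : ℝ × ℝ => Real.Gamma (z.2 + z.1) / (Real.Gamma z.2 * Real.Gamma (1 + z.1)) - 1) (0, α) := by
    apply ContinuousAt.sub _ continuousAt_const
    apply ContinuousAt.div
    · apply ContinuousAt.comp_of_eq (y := α) (hG α hα0) (by fun_prop) (by simp)
    · apply ContinuousAt.mul
      · apply ContinuousAt.comp_of_eq (y := α) (hG α hα0) (by fun_prop) rfl
      · apply ContinuousAt.comp_of_eq (y := 1) (hG 1 one_pos) (by fun_prop) (by simp)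
    · simp only [add_zero, Real.Gamma_one, mul_one]
      exact (Real.Gamma_pos_of_pos hα0).ne'
  have h0 : |(fun z : ℝ × ℝ => Real.Gamma (z.2 + z.1) / (Real.Gamma z.2 * Real.Gamma (1 + z.1)) - 1) (0, α)| < ε := by
    simp only [add_zero, Real.Gamma_one, mul_one]
    rw [div_self (Real.Gamma_pos_of_pos hα0).ne']
    simpa using hε
  exact hc.abs.eventually_lt_const h0

lemma eta_lim {q a : ℝ} (hq : 1 ≤ q) (ha : 0 < a) :
    Tendsto (fun δ : ℝ => ∫ x in Set.Ioo (0:ℝ) 1, (1 - x ^ q) * (x ^ (a - 1) / (1 - x)) * (1 - (1 - x) ^ δ))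
      (𝓝[>] 0) (𝓝 0) := by
  suffices h : Tendsto (fun δ : ℝ => ∫ x in Set.Ioo (0:ℝ) 1, (1 - x ^ q) * (x ^ (a - 1) / (1 - x)) * (1 - (1 - x) ^ δ))
      (𝓝[>] 0) (𝓝 (∫ x in Set.Ioo (0:ℝ) 1, (0:ℝ))) by
    simpa using h
  apply tendsto_integral_filter_of_dominated_convergence (fun x => (1 - x ^ q) * (x ^ (a - 1) / (1 - x)))
  · apply Eventually.of_forall
    intro δ
    exact Measurable.aestronglyMeasurable (by fun_prop)
  · filter_upwards [self_mem_nhdsWithin] with δ hδ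
    have hδ' : (0:ℝ) < δ := by simpa using hδ
    filter_upwards [ae_restrict_mem measurableSet_Ioo] with x hx
    have h1 : 0 < 1 - x := by linarith [hx.2]
    have h2 : (1 - x) ^ δ ≤ 1 := Real.rpow_le_one h1.le (by linarith [hx.1]) hδ'.le
    have h3 : 0 < (1 - x) ^ δ := by positivity
    have h4 := cq_int_nonneg (α := a) hq hx.1 hx.2
    rw [norm_mul, Real.norm_of_nonneg h4, Real.norm_of_nonneg (by linarith)]
    nlinarith
  · exact cq_int hq ha
  · filter_upwards [ae_restrict_mem measurableSet_Ioo] with x hx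
    have h1 : 0 < 1 - x := by linarith [hx.2]
    have h2 : Tendsto (fun δ : ℝ => (1 - x) ^ δ) (𝓝 0) (𝓝 ((1 - x) ^ (0:ℝ))) :=
      (Real.continuous_const_rpow h1.ne').tendsto 0
    rw [Real.rpow_zero] at h2
    have h3 := ((tendsto_const_nhds (x := (1:ℝ))).sub h2).const_mul ((1 - x ^ q) * (x ^ (a - 1) / (1 - x)))
    simp only [sub_self, mul_zero] at h3
    exact h3.mono_left nhdsWithin_le_nhds

lemma RR_asymp {q a b : ℝ} (hq : 1 ≤ q) (ha : 0 < a) {ε : ℝ} (hε : 0 < ε) :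
    ∀ᶠ δ in 𝓝[>] (0:ℝ), ∀ α ∈ Set.Icc a (a + b), |RR q α δ - (1 - δ * cq q α)| ≤ ε * δ := by
  have h1 := (kappa_unif (a := a) (b := b) ha (ε := ε / (2 * (cq q a + 1))) (by
    have := cq_nonneg (α := a) hq; positivity)).filter_mono (nhdsWithin_le_nhds (s := Ioi 0))
  have h2 := (eta_lim hq ha).eventually_lt_const (show (0:ℝ) < ε / 2 by positivity)
  filter_upwards [h1, h2, self_mem_nhdsWithin] with δ h1 h2 hδ
  have hδ' : (0:ℝ) < δ := hδ
  intro α hα
  have hα0 : 0 < α := lt_of_lt_of_le ha hα.1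
  have hk := h1 α hα
  set κ := Real.Gamma (α + δ) / (Real.Gamma α * Real.Gamma (1 + δ)) with hκ
  set I := ∫ x in Set.Ioo (0:ℝ) 1, (1 - x ^ q) * (x ^ (α - 1) * (1 - x) ^ (δ - 1)) with hI
  have hRR : 1 - RR q α δ = δ * κ * I := RR_eq hq hα0 hδ'
  have hptw : ∀ x ∈ Set.Ioo (0:ℝ) 1, (1 - x ^ q) * (x ^ (α - 1) * (1 - x) ^ (δ - 1))
      = (1 - x ^ q) * (x ^ (α - 1) / (1 - x)) * (1 - x) ^ δ := by
    intro x hx
    have h3 : 0 < 1 - x := by linarith [hx.2]
    rw [Real.rpow_sub_one h3.ne']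
    field_simp
  have hint1 : IntegrableOn (fun x : ℝ => (1 - x ^ q) * (x ^ (α - 1) / (1 - x)) * (1 - x) ^ δ) (Set.Ioo (0:ℝ) 1) := by
    apply Integrable.mono' (cq_int hq hα0) (Measurable.aestronglyMeasurable (by fun_prop))
    filter_upwards [ae_restrict_mem measurableSet_Ioo] with x hx
    have h3 : 0 < 1 - x := by linarith [hx.2]
    have h4 : (1 - x) ^ δ ≤ 1 := Real.rpow_le_one h3.le (by linarith [hx.1]) hδ'.le
    have h5 : 0 < (1 - x) ^ δ := by positivity
    have h6 := cq_int_nonneg (α := α) hq hx.1 hx.2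
    rw [norm_mul, Real.norm_of_nonneg h6, Real.norm_of_nonneg h5.le]
    nlinarith
  have hI2 : I = ∫ x in Set.Ioo (0:ℝ) 1, (1 - x ^ q) * (x ^ (α - 1) / (1 - x)) * (1 - x) ^ δ := by
    rw [hI]
    exact setIntegral_congr_fun measurableSet_Ioo hptw
  have hI0 : 0 ≤ I := by
    rw [hI2]
    apply setIntegral_nonneg measurableSet_Ioo
    intro x hx
    have h3 : 0 < 1 - x := by linarith [hx.2]
    have h6 := cq_int_nonneg (α := α) hq hx.1 hx.2
    positivity
  have hdiff : cq q α - I = ∫ x in Set.Ioo (0:ℝ) 1, (1 - x ^ q) * (x ^ (α - 1) / (1 - x)) * (1 - (1 - x) ^ δ) := by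
    rw [hI2]
    unfold cq
    rw [← integral_sub (cq_int hq hα0) hint1]
    congr 1; ext x; ring
  have hint2 : ∀ α : ℝ, 0 < α → IntegrableOn (fun x : ℝ => (1 - x ^ q) * (x ^ (α - 1) / (1 - x)) * (1 - (1 - x) ^ δ)) (Set.Ioo (0:ℝ) 1) := by
    intro α hα0
    apply Integrable.mono' (cq_int hq hα0) (Measurable.aestronglyMeasurable (by fun_prop))
    filter_upwards [ae_restrict_mem measurableSet_Ioo] with x hx
    have h3 : 0 < 1 - x := by linarith [hx.2]
    have h4 : (1 - x) ^ δ ≤ 1 := Real.rpow_le_one h3.le (by linarith [hx.1]) hδ'.le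
    have h5 : 0 < (1 - x) ^ δ := by positivity
    have h6 := cq_int_nonneg (α := α) hq hx.1 hx.2
    rw [norm_mul, Real.norm_of_nonneg h6, Real.norm_of_nonneg (by linarith)]
    nlinarith
  have hd0 : 0 ≤ cq q α - I := by
    rw [hdiff]
    apply setIntegral_nonneg measurableSet_Ioo
    intro x hx
    have h3 : 0 < 1 - x := by linarith [hx.2]
    have h4 : (1 - x) ^ δ ≤ 1 := Real.rpow_le_one h3.le (by linarith [hx.1]) hδ'.le
    have h6 := cq_int_nonneg (α := α) hq hx.1 hx.2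
    have h7 : 0 ≤ 1 - (1 - x) ^ δ := by linarith
    positivity
  have hd1 : cq q α - I ≤ ε / 2 := by
    refine le_trans ?_ h2.le
    rw [hdiff]
    apply setIntegral_mono_on (hint2 α hα0) (hint2 a ha) measurableSet_Ioo
    intro x hx
    have h3 : 0 < 1 - x := by linarith [hx.2]
    have h4 : (1 - x) ^ δ ≤ 1 := Real.rpow_le_one h3.le (by linarith [hx.1]) hδ'.le
    have h7 : 0 ≤ 1 - (1 - x) ^ δ := by linarith
    have h1 : x ^ q ≤ 1 := Real.rpow_le_one hx.1.le hx.2.le (by linarith)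
    have h8 : 0 ≤ 1 - x ^ q := by linarith
    have h9 : x ^ (α - 1) ≤ x ^ (a - 1) := Real.rpow_le_rpow_of_exponent_ge hx.1 hx.2.le (by linarith [hα.1])
    gcongr
  have hIc : I ≤ cq q a := by
    have := cq_anti hq ha hα.1
    linarith
  have hca := cq_nonneg (α := a) hq
  have e : RR q α δ - (1 - δ * cq q α) = δ * ((cq q α - I) - (κ - 1) * I) := by
    have : RR q α δ = 1 - δ * κ * I := by linarith
    rw [this]; ring
  rw [e, abs_mul, abs_of_pos hδ']
  have hb : |(cq q α - I) - (κ - 1) * I| ≤ ε := by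
    calc |(cq q α - I) - (κ - 1) * I| ≤ |cq q α - I| + |(κ - 1) * I| := abs_sub _ _
      _ = (cq q α - I) + |κ - 1| * I := by rw [abs_of_nonneg hd0, abs_mul, abs_of_nonneg hI0]
      _ ≤ ε / 2 + (ε / (2 * (cq q a + 1))) * cq q a := by
          apply add_le_add hd1
          exact mul_le_mul hk.le hIc hI0 (by positivity)
      _ ≤ ε := by
          have : (ε / (2 * (cq q a + 1))) * cq q a ≤ ε / 2 := by
            rw [div_mul_eq_mul_div, div_le_div_iff₀ (by positivity) (by norm_num)]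
            nlinarith
          linarith
  nlinarith [mul_le_mul_of_nonneg_left hb hδ'.le]

end H330GGC
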