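import Pool.Agent.H330R3.GGC.C3
open MeasureTheory Real ProbabilityTheory Set Filter
open scoped ENNReal Topology

set_option maxHeartbeats 1000000

namespace H330GGC

lemma swapGG {K L : List (ℝ × ℝ)} (hK : PosL K) (hL : PosL L) :
    ∫ y, GG L y ∂(muL K) = ∫ y, GG K y ∂(muL L) := by
  have hKp := isProb_muL hK
  have hLp := isProb_muL hL
  have e1 : ∫ y, GG L y ∂(muL K) = ∫ y, ∫ z, Real.exp (-(y * z)) ∂(muL L) ∂(muL K) := by
    apply integral_congr_ae
    filter_upwards [muL_nonneg hK] with y hy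
    rw [GG_eq_integral hL hy]; rfl
  have e2 : ∫ y, GG K y ∂(muL L) = ∫ z, ∫ y, Real.exp (-(y * z)) ∂(muL K) ∂(muL L) := by
    apply integral_congr_ae
    filter_upwards [muL_nonneg hL] with y hy
    rw [GG_eq_integral hK hy]
    unfold LT
    congr 1; ext z; rw [mul_comm]
  rw [e1, e2, integral_integral_swap]
  apply Integrable.mono' (integrable_const (1:ℝ))
  · apply Measurable.aestronglyMeasurable
    unfold Function.uncurry
    fun_prop
  · have a1 : ∀ᵐ p ∂((muL K).prod (muL L)), 0 ≤ p.1 := Measure.quasiMeasurePreserving_fst.ae (muL_nonneg hK)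
    have a2 : ∀ᵐ p ∂((muL K).prod (muL L)), 0 ≤ p.2 := Measure.quasiMeasurePreserving_snd.ae (muL_nonneg hL)
    filter_upwards [a1, a2] with p b1 b2
    unfold Function.uncurry
    rw [Real.norm_of_nonneg (Real.exp_pos _).le, Real.exp_le_one_iff]
    have : 0 ≤ p.1 * p.2 := by positivity
    linarith

noncomputable abbrev gmL (m : ℕ) : List (ℝ × ℝ) := [((1:ℝ), (m:ℝ))]

noncomputable abbrev gm (m : ℕ) : Measure ℝ := muL (gmL m)

lemma posL_gm {m : ℕ} (hm : 1 ≤ m) : PosL (gmL m) := by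
  intro x hx
  simp only [List.mem_singleton] at hx
  subst hx
  constructor
  · norm_num
  · have : (1:ℝ) ≤ m := by exact_mod_cast hm
    show (0:ℝ) < m
    linarith

lemma GG_gm (m : ℕ) (x : ℝ) : GG (gmL m) x = (1 + x) ^ (-(m:ℝ)) := by
  unfold GG; simp

lemma gm_sq {m : ℕ} (hm : 1 ≤ m) : Integrable (fun l : ℝ => Real.exp (l / 2)) (gm m) := by
  have hm' : (0:ℝ) < m := Nat.cast_pos.mpr hm
  refine ⟨by fun_prop, ?_⟩
  rw [hasFiniteIntegral_iff_ofReal (Eventually.of_forall (fun t => (Real.exp_pos _).le))]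
  rw [lintegral_muL _ (by fun_prop)]
  have e : ∫⁻ u, ENNReal.ofReal (Real.exp (u.1 / 2)) * ENNReal.ofReal (Real.exp (-u.2)) ∂(mL (gmL m))
      = ENNReal.ofReal (Real.Gamma m * (1/2) ^ (-(m:ℝ))) := by
    rw [lintegral_mL_cons _ _ _ (by fun_prop), ← gamma_hh hm' (by norm_num)]
    apply lintegral_congr
    intro f
    rw [mL, lintegral_dirac' _ (by fun_prop)]
    simp only [one_mul, add_zero]
    rw [← ENNReal.ofReal_mul (by positivity), ← Real.exp_add]
    congr 3; ring
  rw [e]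
  apply ENNReal.mul_lt_top _ ENNReal.ofReal_lt_top
  rw [ENNReal.inv_lt_top]
  exact ENNReal.ofReal_pos.mpr (GamL_pos (posL_gm hm))

lemma gm_poly {m : ℕ} (hm : 1 ≤ m) {A B : ℝ} (hA : 0 ≤ A) (hB : 0 ≤ B) :
    Integrable (fun l : ℝ => (l * A + B) ^ 2) (gm m) ∧ Integrable (fun l : ℝ => l * A + B) (gm m) := by
  have hp := isProb_muL (posL_gm hm)
  have h0 := gm_sq hm
  have hle : ∀ l : ℝ, 0 ≤ l → l ^ 2 ≤ 8 * Real.exp (l / 2) := by
    intro l hl
    have := Real.quadratic_le_exp_of_nonneg (x := l / 2) (by positivity)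
    nlinarith
  have h1 : Integrable (fun l : ℝ => (l * A + B) ^ 2) (gm m) := by
    apply Integrable.mono' ((h0.const_mul (16 * A ^ 2)).add (integrable_const (2 * B ^ 2))) (by fun_prop)
    filter_upwards [muL_nonneg (posL_gm hm)] with l hl
    rw [Real.norm_of_nonneg (by positivity)]
    simp only [Pi.add_apply]
    have := hle l hl
    nlinarith [sq_nonneg (l * A - B), mul_le_mul_of_nonneg_right this (sq_nonneg A)]
  refine ⟨h1, ?_⟩
  apply Integrable.mono' (h1.add (integrable_const 1)) (by fun_prop)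
  filter_upwards [muL_nonneg (posL_gm hm)] with l hl
  rw [Real.norm_of_nonneg (by positivity)]
  simp only [Pi.add_apply]
  nlinarith [sq_nonneg (l * A + B - 1)]

lemma exp_quad {z : ℝ} (hz : 0 ≤ z) : |Real.exp (-z) - (1 - z)| ≤ z ^ 2 / 2 := by
  have h1 := Real.add_one_le_exp (-z)
  have h2 := Real.quadratic_le_exp_of_nonneg hz
  have h3 : Real.exp (-z) * Real.exp z = 1 := by rw [← Real.exp_add]; simp
  have h4 := Real.exp_pos (-z)
  rw [abs_of_nonneg (by linarith)]
  have h5 : Real.exp (-z) * (1 + z + z ^ 2 / 2) ≤ 1 := by nlinarith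
  have h6 : Real.exp (-z) ≤ 1 - z + z ^ 2 / 2 := by
    by_contra hcon
    push Not at hcon
    have h7 : 0 < 1 + z + z ^ 2 / 2 := by positivity
    have h8 := mul_lt_mul_of_pos_right hcon h7
    nlinarith [sq_nonneg (z ^ 2)]
  linarith

lemma psi_meas {g a : ℝ} : Measurable (psi g a) := by
  unfold psi
  have : StronglyMeasurable (fun l : ℝ => ∫ y, (fun p : ℝ × ℝ => pint g a p.1 p.2) (l, y) ∂(volume.restrict (Set.Ioo (0:ℝ) 1))) := by
    apply StronglyMeasurable.integral_prod_right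
    apply Measurable.stronglyMeasurable
    unfold pint
    fun_prop
  exact this.measurable

lemma psi_mellin {g a : ℝ} (hg0 : 0 < g) (hg1 : g ≤ 1) (ha : 0 < a) {m : ℕ} (hm : 1 ≤ m) :
    ∫ l, psi g a l ∂(gm m) = cq (m / g) a := by
  have hp := isProb_muL (posL_gm hm)
  unfold psi
  rw [integral_integral_swap]
  · unfold cq
    apply setIntegral_congr_fun measurableSet_Ioo
    intro y hy
    have hx := jump_pos hg0 hy.1 hy.2
    simp only
    unfold pint
    rw [integral_mul_const]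
    congr 1
    have i1 : Integrable (fun l : ℝ => Real.exp (-(l * (y ^ (-(1 / g)) - 1)))) (gm m) := by
      apply Integrable.mono' (integrable_const (1:ℝ)) (by fun_prop)
      filter_upwards [muL_nonneg (posL_gm hm)] with l hl
      rw [Real.norm_of_nonneg (Real.exp_pos _).le, Real.exp_le_one_iff]
      have := mul_nonneg hl hx.le
      linarith
    rw [integral_sub (integrable_const _) i1]
    have h2 : ∫ l, Real.exp (-(l * (y ^ (-(1 / g)) - 1))) ∂(gm m) = y ^ ((m:ℝ) / g) := by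
      have h3 := GG_eq_integral (posL_gm hm) hx.le
      rw [GG_gm] at h3
      unfold LT at h3
      have h4 : ∫ l, Real.exp (-(l * (y ^ (-(1 / g)) - 1))) ∂(gm m)
          = ∫ l, Real.exp (-((y ^ (-(1 / g)) - 1) * l)) ∂(gm m) := by
        congr 1; ext l; rw [mul_comm]
      rw [h4, ← h3, add_sub_cancel, ← Real.rpow_mul hy.1.le]
      congr 1
      field_simp
    rw [h2]
    simp
  · have hC := CC_pos hg0
    have i1 := (gm_poly hm (A := CC g) (B := 2) hC.le (by norm_num)).2
    have i2 := i1.mul_prod (pow_int ha)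
    apply Integrable.mono' i2
    · apply Measurable.aestronglyMeasurable
      unfold Function.uncurry pint
      fun_prop
    · have a1 : ∀ᵐ p ∂((gm m).prod (volume.restrict (Set.Ioo (0:ℝ) 1))), 0 ≤ p.1 :=
        Measure.quasiMeasurePreserving_fst.ae (muL_nonneg (posL_gm hm))
      have a2 : ∀ᵐ p ∂((gm m).prod (volume.restrict (Set.Ioo (0:ℝ) 1))), p.2 ∈ Set.Ioo (0:ℝ) 1 :=
        Measure.quasiMeasurePreserving_snd.ae (ae_restrict_mem measurableSet_Ioo)
      filter_upwards [a1, a2] with p b1 b2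
      unfold Function.uncurry
      rw [Real.norm_of_nonneg (pint_nonneg hg0 b1 b2.1 b2.2)]
      exact pint_le hg0 hg1 b1 b2.1 b2.2

/-- first order estimate -/
lemma exp_psi_est {g a α δ : ℝ} (hg0 : 0 < g) (hg1 : g ≤ 1) (ha : 0 < a) (haα : a ≤ α) (hδ : 0 ≤ δ)
    {m : ℕ} (hm : 1 ≤ m) :
    |∫ l, Real.exp (-(δ * psi g α l)) ∂(gm m) - (1 - δ * cq (m / g) α)| ≤
      δ ^ 2 * (∫ l, (l * (CC g / a) + 2 / a) ^ 2 ∂(gm m)) := by
  have hp := isProb_muL (posL_gm hm)
  have hα : 0 < α := lt_of_lt_of_le ha haα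
  have hC := CC_pos hg0
  have hbd : ∀ᵐ l ∂(gm m), 0 ≤ psi g α l ∧ psi g α l ≤ l * (CC g / a) + 2 / a := by
    filter_upwards [muL_nonneg (posL_gm hm)] with l hl
    refine ⟨psi_nonneg hg0 hl, (psi_le hg0 hg1 hα hl).trans ?_⟩
    have : (l * CC g + 2) / α ≤ (l * CC g + 2) / a := by
      apply div_le_div_of_nonneg_left (by positivity) ha haα
    refine this.trans (le_of_eq ?_)
    ring
  obtain ⟨i2, i1⟩ := gm_poly hm (A := CC g / a) (B := 2 / a) (by positivity) (by positivity)
  have ipsi : Integrable (psi g α) (gm m) := by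
    apply Integrable.mono' i1 psi_meas.aestronglyMeasurable
    filter_upwards [hbd] with l hl
    rw [Real.norm_of_nonneg hl.1]; exact hl.2
  have iexp : Integrable (fun l => Real.exp (-(δ * psi g α l))) (gm m) := by
    apply Integrable.mono' (integrable_const (1:ℝ))
    · have := psi_meas (g := g) (a := α)
      apply Measurable.aestronglyMeasurable
      fun_prop
    · filter_upwards [hbd] with l hl
      rw [Real.norm_of_nonneg (Real.exp_pos _).le, Real.exp_le_one_iff]
      have := mul_nonneg hδ hl.1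
      linarith
  have e : ∫ l, Real.exp (-(δ * psi g α l)) ∂(gm m) - (1 - δ * cq (m / g) α)
      = ∫ l, (Real.exp (-(δ * psi g α l)) - (1 - δ * psi g α l)) ∂(gm m) := by
    have h1 : ∫ l, (1 - δ * psi g α l) ∂(gm m) = 1 - δ * cq (m / g) α := by
      rw [integral_sub (integrable_const _) (ipsi.const_mul δ), integral_const_mul, psi_mellin hg0 hg1 hα hm]
      simp
    have i3 : Integrable (fun l => 1 - δ * psi g α l) (gm m) := (integrable_const (1:ℝ)).sub (ipsi.const_mul δ)
    rw [integral_sub iexp i3, h1]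
  rw [e]
  calc |∫ l, (Real.exp (-(δ * psi g α l)) - (1 - δ * psi g α l)) ∂(gm m)|
      ≤ ∫ l, |Real.exp (-(δ * psi g α l)) - (1 - δ * psi g α l)| ∂(gm m) := abs_integral_le_integral_abs
    _ ≤ ∫ l, δ ^ 2 * (l * (CC g / a) + 2 / a) ^ 2 ∂(gm m) := by
        apply integral_mono_ae ((iexp.sub ((integrable_const _).sub (ipsi.const_mul δ))).abs) (i2.const_mul _)
        filter_upwards [hbd] with l hl
        refine (exp_quad (mul_nonneg hδ hl.1)).trans ?_
        have h3 : psi g α l ^ 2 ≤ (l * (CC g / a) + 2 / a) ^ 2 := by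
          apply pow_le_pow_left₀ hl.1 hl.2
        have h4 : (δ * psi g α l) ^ 2 / 2 ≤ δ ^ 2 * psi g α l ^ 2 := by nlinarith [mul_nonneg (sq_nonneg δ) (sq_nonneg (psi g α l))]
        exact h4.trans (mul_le_mul_of_nonneg_left h3 (sq_nonneg δ))
    _ = _ := by rw [integral_const_mul]

/-- `E (1+Y)^{-m}` -/
noncomputable def Mel (K : List (ℝ × ℝ)) (m : ℕ) : ℝ := ∫ y, GG (gmL m) y ∂(muL K)

lemma Mel_mem {K : List (ℝ × ℝ)} (hK : PosL K) {m : ℕ} (hm : 1 ≤ m) : 0 ≤ Mel K m ∧ Mel K m ≤ 1 := by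
  have hp := isProb_muL hK
  have h1 := GG_int (posL_gm hm) hK (x := 1) (by norm_num)
  simp only [one_mul] at h1
  constructor
  · apply integral_nonneg_of_ae
    filter_upwards [muL_nonneg hK] with y hy
    exact (GG_pos (posL_gm hm) hy).le
  · calc Mel K m ≤ ∫ y, (1:ℝ) ∂(muL K) := by
          apply integral_mono_ae h1 (integrable_const _)
          filter_upwards [muL_nonneg hK] with y hy
          exact GG_le_one (posL_gm hm) hy
      _ = 1 := by simp

lemma Mel_est {g a α δ η : ℝ} (hg0 : 0 < g) (hg1 : g ≤ 1) (ha : 0 < a) (haα : a ≤ α) (hδ : 0 ≤ δ)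
    {K : List (ℝ × ℝ)} (hK : PosL K) (hclose : ∀ l, 0 ≤ l → |Real.exp (-(δ * psi g α l)) - GG K l| ≤ η)
    {m : ℕ} (hm : 1 ≤ m) :
    |Mel K m - (1 - δ * cq (m / g) α)| ≤ η + δ ^ 2 * (∫ l, (l * (CC g / a) + 2 / a) ^ 2 ∂(gm m)) := by
  have hp := isProb_muL (posL_gm hm)
  have hα : 0 < α := lt_of_lt_of_le ha haα
  have h1 := exp_psi_est hg0 hg1 ha haα hδ hm
  have h2 : Mel K m = ∫ l, GG K l ∂(gm m) := swapGG hK (posL_gm hm)
  have iexp : Integrable (fun l => Real.exp (-(δ * psi g α l))) (gm m) := by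
    apply Integrable.mono' (integrable_const (1:ℝ))
    · have := psi_meas (g := g) (a := α)
      apply Measurable.aestronglyMeasurable
      fun_prop
    · filter_upwards [muL_nonneg (posL_gm hm)] with l hl
      rw [Real.norm_of_nonneg (Real.exp_pos _).le, Real.exp_le_one_iff]
      have := mul_nonneg hδ (psi_nonneg (a := α) hg0 hl)
      linarith
  have iG := GG_int hK (posL_gm hm) (x := 1) (by norm_num)
  simp only [one_mul] at iG
  have h3 : |∫ l, Real.exp (-(δ * psi g α l)) ∂(gm m) - ∫ l, GG K l ∂(gm m)| ≤ η := by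
    rw [← integral_sub iexp iG]
    calc |∫ l, (Real.exp (-(δ * psi g α l)) - GG K l) ∂(gm m)|
        ≤ ∫ l, |Real.exp (-(δ * psi g α l)) - GG K l| ∂(gm m) := abs_integral_le_integral_abs
      _ ≤ ∫ l, η ∂(gm m) := by
          apply integral_mono_ae (iexp.sub iG).abs (integrable_const _)
          filter_upwards [muL_nonneg (posL_gm hm)] with l hl
          exact hclose l hl
      _ = η := by simp
  rw [h2]
  have h4 := abs_sub_le (∫ l, GG K l ∂(gm m)) (∫ l, Real.exp (-(δ * psi g α l)) ∂(gm m)) (1 - δ * cq (m / g) α)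
  have h5 := abs_sub_comm (∫ l, GG K l ∂(gm m)) (∫ l, Real.exp (-(δ * psi g α l)) ∂(gm m))
  linarith

lemma prod_sub_prod_le (n : ℕ) (x y : ℕ → ℝ) (hx : ∀ k < n, 0 ≤ x k ∧ x k ≤ 1) (hy : ∀ k < n, 0 ≤ y k ∧ y k ≤ 1) :
    |∏ k ∈ Finset.range n, x k - ∏ k ∈ Finset.range n, y k| ≤ ∑ k ∈ Finset.range n, |x k - y k| := by
  induction n with
  | zero => simp
  | succ n ih =>
    rw [Finset.prod_range_succ, Finset.prod_range_succ, Finset.sum_range_succ]
    have ih' := ih (fun k hk => hx k (by omega)) (fun k hk => hy k (by omega))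
    have hX : 0 ≤ ∏ k ∈ Finset.range n, x k ∧ ∏ k ∈ Finset.range n, x k ≤ 1 :=
      ⟨Finset.prod_nonneg (fun k hk => (hx k (by have := Finset.mem_range.mp hk; omega)).1),
       Finset.prod_le_one (fun k hk => (hx k (by have := Finset.mem_range.mp hk; omega)).1)
        (fun k hk => (hx k (by have := Finset.mem_range.mp hk; omega)).2)⟩
    have e : (∏ k ∈ Finset.range n, x k) * x n - (∏ k ∈ Finset.range n, y k) * y n
        = (∏ k ∈ Finset.range n, x k) * (x n - y n) + (∏ k ∈ Finset.range n, x k - ∏ k ∈ Finset.range n, y k) * y n := by ring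
    rw [e]
    refine (abs_add_le _ _).trans ?_
    rw [abs_mul, abs_mul, abs_of_nonneg hX.1, abs_of_nonneg (hy n (by omega)).1]
    have h1 := abs_nonneg (x n - y n)
    have h2 := abs_nonneg (∏ k ∈ Finset.range n, x k - ∏ k ∈ Finset.range n, y k)
    have h3 := (hy n (by omega)).2
    nlinarith [hX.2]

lemma RR_telescope {q a b : ℝ} (hq : 0 < q) (ha : 0 < a) (hb : 0 < b) {n : ℕ} (hn : 1 ≤ n) :
    ∏ k ∈ Finset.range n, RR q (a + k * (b / n)) (b / n) = RR q a b := by
  have hn' : (0:ℝ) < n := Nat.cast_pos.mpr hn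
  set ρ : ℕ → ℝ := fun k => Real.Gamma (a + k * (b / n) + q) / Real.Gamma (a + k * (b / n)) with hρ
  have hpos : ∀ k : ℕ, 0 < a + k * (b / n) := by intro k; positivity
  have h1 : ∀ α δ : ℝ, 0 < α → 0 < δ → RR q α δ = (Real.Gamma (α + q) / Real.Gamma α) / (Real.Gamma (α + δ + q) / Real.Gamma (α + δ)) := by
    intro α δ hα hδ
    unfold RR beta
    have g1 := Real.Gamma_pos_of_pos hα
    have g2 := Real.Gamma_pos_of_pos hδ
    have g3 := Real.Gamma_pos_of_pos (show 0 < α + δ by linarith)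
    have g4 := Real.Gamma_pos_of_pos (show 0 < α + q by linarith)
    have g5 := Real.Gamma_pos_of_pos (show 0 < α + δ + q by linarith)
    rw [show α + q + δ = α + δ + q by ring]
    field_simp
  have h2 : ∀ k : ℕ, RR q (a + k * (b / n)) (b / n) = ρ k / ρ (k + 1) := by
    intro k
    rw [h1 _ _ (hpos k) (by positivity), hρ]
    simp only
    push_cast
    rw [show a + (k:ℝ) * (b / n) + b / n = a + ((k:ℝ) + 1) * (b / n) by ring]
  simp_rw [h2]
  have hρpos : ∀ k, ρ k ≠ 0 := by
    intro k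
    have g1 := Real.Gamma_pos_of_pos (hpos k)
    have g2 := Real.Gamma_pos_of_pos (show 0 < a + k * (b / n) + q by have := hpos k; linarith)
    simp only [hρ]
    positivity
  have h3 : ∀ n : ℕ, ∏ k ∈ Finset.range n, ρ k / ρ (k + 1) = ρ 0 / ρ n := by
    intro n
    induction n with
    | zero => simp [div_self (hρpos 0)]
    | succ n ih =>
      rw [Finset.prod_range_succ, ih]
      have := hρpos n
      have := hρpos (n + 1)
      field_simp
  rw [h3, h1 a b ha hb, hρ]
  simp only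
  have e : (n:ℝ) * (b / n) = b := by field_simp
  rw [e]
  simp

/-- existence of approximating lists -/
theorem exists_lists {g a b : ℝ} (hg0 : 0 < g) (hg1 : g ≤ 1) (ha : 0 < a) (hb : 0 < b) :
    ∃ K : ℕ → ℕ → List (ℝ × ℝ), (∀ n k, PosL (K n k)) ∧
      ∀ m : ℕ, 1 ≤ m → Tendsto (fun n => ∏ k ∈ Finset.range n, Mel (K n k) m) atTop (𝓝 (RR (m / g) a b)) := by
  have hex : ∀ n k : ℕ, ∃ K, PosL K ∧ (1 ≤ n → ∀ l, 0 ≤ l →
      |Real.exp (-((b / n) * psi g (a + k * (b / n)) l)) - GG K l| ≤ 1 / n ^ 2) := by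
    intro n k
    by_cases hn : 1 ≤ n
    · have hn' : (0:ℝ) < n := Nat.cast_pos.mpr hn
      have hα : 0 < a + k * (b / n) := by positivity
      have hδ : 0 < b / n := by positivity
      have h1 := InG_psi (g := g) (a := a + k * (b / n)) (δ := b / n) hg0 hg1 hα hδ.le
      have c1 : ContinuousOn (fun l => Real.exp (-((b / n) * psi g (a + k * (b / n)) l))) (Ici 0) := by
        have := psi_cont hg0 hg1 hα
        exact Real.continuous_exp.comp_continuousOn ((this.const_smul (b / (n:ℝ))).neg)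
      have c2 : (fun l => Real.exp (-((b / n) * psi g (a + k * (b / n)) l))) 0 = 1 := by
        simp [psi_zero]
      have c3 : AntitoneOn (fun l => Real.exp (-((b / n) * psi g (a + k * (b / n)) l))) (Ici 0) := by
        intro x hx y hy hxy
        have := psi_mono hg0 hg1 hα hx hy hxy
        apply Real.exp_le_exp.mpr
        have := mul_le_mul_of_nonneg_left this hδ.le
        linarith
      have c4 : Tendsto (fun l => Real.exp (-((b / n) * psi g (a + k * (b / n)) l))) atTop (𝓝 0) := by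
        apply Real.tendsto_exp_atBot.comp
        apply tendsto_neg_atTop_atBot.comp
        exact (psi_tendsto hg0 hg1 hα).const_mul_atTop hδ
      obtain ⟨K, hK, hK1⟩ := h1.unif c1 c2 c3 c4 (ε := 1 / (n:ℝ) ^ 2) (by positivity)
      exact ⟨K, hK, fun _ => hK1⟩
    · exact ⟨[], by intro x hx; simp at hx, fun h => absurd h hn⟩
  choose K hK hK1 using hex
  refine ⟨K, hK, ?_⟩
  intro m hm
  have hm1 : (1:ℝ) ≤ m := by exact_mod_cast hm
  have hq : 1 ≤ (m:ℝ) / g := by
    rw [le_div_iff₀ hg0]; linarith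
  set q := (m:ℝ) / g with hqdef
  set M := ∫ l, (l * (CC g / a) + 2 / a) ^ 2 ∂(gm m) with hM
  have hM0 : 0 ≤ M := integral_nonneg (fun l => sq_nonneg _)
  rw [Metric.tendsto_atTop]
  intro η hη
  have hδlim : Tendsto (fun n : ℕ => b / (n:ℝ)) atTop (𝓝[>] 0) := by
    rw [tendsto_nhdsWithin_iff]
    refine ⟨tendsto_const_div_atTop_nhds_zero_nat b, ?_⟩
    filter_upwards [eventually_ge_atTop 1] with n hn
    have hn' : (0:ℝ) < n := Nat.cast_pos.mpr hn
    show 0 < b / (n:ℝ)
    positivity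
  have hR := hδlim.eventually (RR_asymp (q := q) (a := a) (b := b) hq ha (ε := η / (2 * b)) (by positivity))
  have hsmall : Tendsto (fun n : ℕ => (1 + b ^ 2 * M) / (n:ℝ)) atTop (𝓝 0) := tendsto_const_div_atTop_nhds_zero_nat _
  have hS := hsmall.eventually_lt_const (show (0:ℝ) < η / 2 by positivity)
  have hev := (hR.and hS).and (eventually_ge_atTop 1)
  rw [eventually_atTop] at hev
  obtain ⟨N, hN⟩ := hev
  refine ⟨N, fun n hn => ?_⟩
  obtain ⟨⟨hR, hS⟩, hn1⟩ := hN n hn
  have hn' : (0:ℝ) < n := Nat.cast_pos.mpr hn1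
  rw [Real.dist_eq, ← RR_telescope (by linarith) ha hb hn1]
  have hαmem : ∀ k ∈ Finset.range n, a + k * (b / n) ∈ Set.Icc a (a + b) := by
    intro k hk
    have hk' : (k:ℝ) ≤ n := by exact_mod_cast (Finset.mem_range.mp hk).le
    constructor
    · have : 0 ≤ (k:ℝ) * (b / n) := by positivity
      linarith
    · have : (k:ℝ) * (b / n) ≤ n * (b / n) := by gcongr
      have e : (n:ℝ) * (b / n) = b := by field_simp
      linarith
  have hδ : 0 < b / (n:ℝ) := by positivity
  refine lt_of_le_of_lt (prod_sub_prod_le n _ _ (fun k hk => Mel_mem (hK n k) hm)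
    (fun k hk => RR_mem hq (by positivity) hδ)) ?_
  have hterm : ∀ k ∈ Finset.range n, |Mel (K n k) m - RR q (a + k * (b / n)) (b / n)| ≤
      1 / (n:ℝ) ^ 2 + (b / n) ^ 2 * M + η / (2 * b) * (b / n) := by
    intro k hk
    have h1 := Mel_est hg0 hg1 ha (hαmem k hk).1 hδ.le (hK n k) (hK1 n k hn1) hm
    have h2 := hR _ (hαmem k hk)
    have h3 := abs_sub_le (Mel (K n k) m) (1 - (b / n) * cq q (a + k * (b / n))) (RR q (a + k * (b / n)) (b / n))
    have h4 := abs_sub_comm (1 - (b / n) * cq q (a + k * (b / n))) (RR q (a + k * (b / n)) (b / n))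
    linarith
  refine lt_of_le_of_lt (Finset.sum_le_sum hterm) ?_
  rw [Finset.sum_const, Finset.card_range, nsmul_eq_mul]
  have e : (n:ℝ) * (1 / (n:ℝ) ^ 2 + (b / n) ^ 2 * M + η / (2 * b) * (b / n))
      = (1 + b ^ 2 * M) / n + η / 2 := by
    field_simp
  rw [e]
  linarith

end H330GGC
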