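import Pool.Agent.H330R3.GGC.C4
open MeasureTheory Real ProbabilityTheory Set Filter
open scoped ENNReal Topology

set_option maxHeartbeats 1000000

namespace H330GGC

/-- law of `∏_{k<n} (1 + Y_k)` -/
noncomputable def Pr (K : ℕ → List (ℝ × ℝ)) : ℕ → Measure ℝ
  | 0 => Measure.dirac 1
  | (n + 1) => Measure.map (fun p : ℝ × ℝ => p.1 * (1 + p.2)) ((Pr K n).prod (muL (K n)))

section
variable {K : ℕ → List (ℝ × ℝ)} (hK : ∀ k, PosL (K k))
include hK

lemma isProb_Pr (n : ℕ) : IsProbabilityMeasure (Pr K n) := by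
  induction n with
  | zero => unfold Pr; infer_instance
  | succ n ih =>
    have := isProb_muL (hK n)
    unfold Pr
    exact Measure.isProbabilityMeasure_map (by apply Measurable.aemeasurable; fun_prop)

lemma Pr_ge (n : ℕ) : ∀ᵐ y ∂(Pr K n), 1 ≤ y := by
  induction n with
  | zero =>
    unfold Pr
    rw [ae_dirac_iff measurableSet_Ici]
  | succ n ih =>
    have h1 := isProb_muL (hK n)
    have h2 := isProb_Pr hK n
    have hms : MeasurableSet {t : ℝ | 1 ≤ t} := measurableSet_Ici
    rw [Pr, ae_map_iff (by apply Measurable.aemeasurable; fun_prop) hms]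
    have a1 : ∀ᵐ p ∂((Pr K n).prod (muL (K n))), 1 ≤ p.1 := Measure.quasiMeasurePreserving_fst.ae ih
    have a2 : ∀ᵐ p ∂((Pr K n).prod (muL (K n))), 0 ≤ p.2 := Measure.quasiMeasurePreserving_snd.ae (muL_nonneg (hK n))
    filter_upwards [a1, a2] with p b1 b2
    nlinarith

lemma InG_Pr (n : ℕ) : InG (LT (Pr K n)) := by
  induction n with
  | zero =>
    apply InG_exp.congr
    intro x _
    unfold LT Pr
    rw [integral_dirac]
    simp
  | succ n ih =>
    have h1 := isProb_muL (hK n)
    have h2 := isProb_Pr hK n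
    have hpos : ∀ᵐ y ∂(Pr K n), 0 < y := (Pr_ge hK n).mono (fun y hy => by linarith)
    set ν := Measure.map (fun y : ℝ => 1 + y) (muL (K n)) with hν
    have hνp : IsProbabilityMeasure ν := Measure.isProbabilityMeasure_map (by apply Measurable.aemeasurable; fun_prop)
    have hνpos : ∀ᵐ y ∂ν, 0 < y := by
      have hms : MeasurableSet {t : ℝ | 0 < t} := measurableSet_Ioi
      rw [hν, ae_map_iff (by apply Measurable.aemeasurable; fun_prop) hms]
      filter_upwards [muL_nonneg (hK n)] with y hy
      linarith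
    have hνG : InG (LT ν) := by
      have h3 : InG (fun x => Real.exp (-x) * GG (K n) x) := by
        have := (InG_GG (hK n)).mul InG_exp (fun x hx => by
          rw [abs_of_pos (Real.exp_pos _)]
          exact Real.exp_le_one_iff.mpr (by linarith))
        apply this.congr
        intro x _
        ring
      apply h3.congr
      intro x hx
      rw [GG_eq_integral (hK n) hx.le]
      unfold LT
      rw [hν, integral_map (by apply Measurable.aemeasurable; fun_prop) (by fun_prop), ← integral_const_mul]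
      congr 1; ext y
      rw [← Real.exp_add]
      congr 1; ring
    apply (InG_prod (Pr K n) ν hpos hνpos ih hνG).congr
    intro x hx
    have e1 : ∫ z, LT (Pr K n) (x * z) ∂ν = ∫ y, ∫ u, Real.exp (-(x * (u * (1 + y)))) ∂(Pr K n) ∂(muL (K n)) := by
      have hm : Measurable (LT (Pr K n)) := by
        unfold LT
        have : StronglyMeasurable (fun x : ℝ => ∫ y, (fun p : ℝ × ℝ => Real.exp (-(p.1 * p.2))) (x, y) ∂(Pr K n)) := by
          apply StronglyMeasurable.integral_prod_right
          apply Measurable.stronglyMeasurable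
          fun_prop
        exact this.measurable
      rw [hν, integral_map (by apply Measurable.aemeasurable; fun_prop)]
      · congr 1; ext y
        unfold LT
        congr 1; ext u
        congr 2; ring
      · exact (hm.comp (by fun_prop : Measurable (fun z : ℝ => x * z))).aestronglyMeasurable
    rw [e1]
    unfold LT
    rw [Pr, integral_map (by apply Measurable.aemeasurable; fun_prop) (by fun_prop)]
    have hI : Integrable (fun p : ℝ × ℝ => Real.exp (-(x * (p.1 * (1 + p.2))))) ((Pr K n).prod (muL (K n))) := by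
      apply Integrable.mono' (integrable_const (1:ℝ)) (by fun_prop)
      have a1 : ∀ᵐ p ∂((Pr K n).prod (muL (K n))), 0 < p.1 := Measure.quasiMeasurePreserving_fst.ae hpos
      have a2 : ∀ᵐ p ∂((Pr K n).prod (muL (K n))), 0 ≤ p.2 := Measure.quasiMeasurePreserving_snd.ae (muL_nonneg (hK n))
      filter_upwards [a1, a2] with p b1 b2
      rw [Real.norm_of_nonneg (Real.exp_pos _).le, Real.exp_le_one_iff]
      have : 0 ≤ x * (p.1 * (1 + p.2)) := by positivity
      linarith
    rw [integral_prod_symm _ hI]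

lemma Pr_moment {m : ℕ} (hm : 1 ≤ m) (n : ℕ) :
    ∫ y, y ^ (-(m:ℝ)) ∂(Pr K n) = ∏ k ∈ Finset.range n, Mel (K k) m := by
  induction n with
  | zero => unfold Pr; rw [integral_dirac]; simp
  | succ n ih =>
    have h1 := isProb_muL (hK n)
    have h2 := isProb_Pr hK n
    rw [Pr, integral_map (by apply Measurable.aemeasurable; fun_prop) (by
      apply Measurable.aestronglyMeasurable; fun_prop), Finset.prod_range_succ, ← ih]
    have e : ∫ p, (p.1 * (1 + p.2)) ^ (-(m:ℝ)) ∂((Pr K n).prod (muL (K n)))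
        = ∫ p, (p.1 ^ (-(m:ℝ))) * (GG (gmL m) p.2) ∂((Pr K n).prod (muL (K n))) := by
      apply integral_congr_ae
      have a1 : ∀ᵐ p ∂((Pr K n).prod (muL (K n))), 1 ≤ p.1 := Measure.quasiMeasurePreserving_fst.ae (Pr_ge hK n)
      have a2 : ∀ᵐ p ∂((Pr K n).prod (muL (K n))), 0 ≤ p.2 := Measure.quasiMeasurePreserving_snd.ae (muL_nonneg (hK n))
      filter_upwards [a1, a2] with p b1 b2
      rw [Real.mul_rpow (by linarith) (by linarith), GG_gm]
    rw [e, integral_prod_mul (fun y : ℝ => y ^ (-(m:ℝ))) (GG (gmL m))]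
    rfl

end

/-- Beta weight -/
noncomputable def wB (a b y : ℝ) : ℝ := y ^ (a - 1) * (1 - y) ^ (b - 1)

lemma moment_B {g a b : ℝ} (hg0 : 0 < g) (ha : 0 < a) (hb : 0 < b) (m : ℕ) :
    ∫ y in Set.Ioo (0:ℝ) 1, (y ^ (1 / g)) ^ m * wB a b y = RR (m / g) a b * beta a b := by
  have hB := beta_pos ha hb
  have hmg : 0 ≤ (m:ℝ) / g := by positivity
  have h1 := (beta_int (show 0 < a + m / g by linarith) hb).2
  have e : RR (m / g) a b * beta a b = beta (a + m / g) b := by
    unfold RR; field_simp
  rw [e, ← h1]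
  apply setIntegral_congr_fun measurableSet_Ioo
  intro y hy
  unfold wB
  simp only
  rw [← Real.rpow_natCast, ← Real.rpow_mul hy.1.le, ← mul_assoc, ← Real.rpow_add hy.1]
  congr 2
  field_simp
  ring

theorem InG_beta {g a b : ℝ} (hg0 : 0 < g) (hg1 : g ≤ 1) (ha : 0 < a) (hb : 0 < b) :
    InG (fun x => (∫ y in Set.Ioo (0:ℝ) 1, Real.exp (-(x * (y ^ (1 / g))⁻¹)) * wB a b y) / beta a b) := by
  obtain ⟨K, hK, hlim⟩ := exists_lists hg0 hg1 ha hb
  have hB := beta_pos ha hb
  obtain ⟨hBi, hBe⟩ := beta_int ha hb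
  have hwnn : ∀ y ∈ Set.Ioo (0:ℝ) 1, 0 ≤ wB a b y := by
    intro y hy
    have h1 : 0 < 1 - y := by linarith [hy.2]
    have h2 := hy.1
    unfold wB; positivity
  have hwm : Measurable (wB a b) := by unfold wB; fun_prop
  -- polynomials
  have hpoly : ∀ p : Polynomial ℝ, Tendsto (fun n => ∫ y, p.eval y⁻¹ ∂(Pr (K n) n)) atTop
      (𝓝 ((∫ y in Set.Ioo (0:ℝ) 1, p.eval (y ^ (1 / g)) * wB a b y) / beta a b)) := by
    intro p
    have hmon : ∀ m : ℕ, Tendsto (fun n => ∫ y, (y⁻¹) ^ m ∂(Pr (K n) n)) atTop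
        (𝓝 ((∫ y in Set.Ioo (0:ℝ) 1, (y ^ (1 / g)) ^ m * wB a b y) / beta a b)) := by
      intro m
      rw [moment_B hg0 ha hb m, mul_div_assoc, div_self hB.ne', mul_one]
      rcases Nat.eq_zero_or_pos m with hm | hm
      · subst hm
        have : RR ((0:ℕ) / g) a b = 1 := by
          unfold RR; simp [hB.ne']
        rw [this]
        apply tendsto_const_nhds.congr
        intro n
        have := isProb_Pr (hK n) n
        simp
      · apply (hlim m hm).congr
        intro n
        rw [← Pr_moment (hK n) hm n]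
        apply integral_congr_ae
        filter_upwards [Pr_ge (hK n) n] with y hy
        rw [Real.rpow_neg (by linarith), Real.rpow_natCast, inv_pow]
    have e1 : ∀ n, ∫ y, p.eval y⁻¹ ∂(Pr (K n) n) = ∑ i ∈ Finset.range (p.natDegree + 1), p.coeff i * ∫ y, (y⁻¹) ^ i ∂(Pr (K n) n) := by
      intro n
      have := isProb_Pr (hK n) n
      simp_rw [Polynomial.eval_eq_sum_range]
      rw [integral_finset_sum]
      · apply Finset.sum_congr rfl
        intro i _
        rw [integral_const_mul]
      · intro i _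
        apply Integrable.const_mul
        apply Integrable.mono' (integrable_const (1:ℝ)) (by apply Measurable.aestronglyMeasurable; fun_prop)
        filter_upwards [Pr_ge (hK n) n] with y hy
        have h1 : 0 < y⁻¹ := by positivity
        have h2 : y⁻¹ ≤ 1 := inv_le_one_of_one_le₀ hy
        rw [Real.norm_of_nonneg (by positivity)]
        exact pow_le_one₀ h1.le h2
    have e2 : (∫ y in Set.Ioo (0:ℝ) 1, p.eval (y ^ (1 / g)) * wB a b y) / beta a b
        = ∑ i ∈ Finset.range (p.natDegree + 1), p.coeff i * ((∫ y in Set.Ioo (0:ℝ) 1, (y ^ (1 / g)) ^ i * wB a b y) / beta a b) := by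
      simp_rw [Polynomial.eval_eq_sum_range, Finset.sum_mul]
      rw [integral_finset_sum]
      · rw [Finset.sum_div]
        apply Finset.sum_congr rfl
        intro i _
        simp_rw [mul_assoc]
        rw [integral_const_mul]
        ring
      · intro i _
        simp_rw [mul_assoc]
        apply Integrable.const_mul
        apply Integrable.mono' hBi (by apply Measurable.aestronglyMeasurable; fun_prop)
        filter_upwards [ae_restrict_mem measurableSet_Ioo] with y hy
        have h1 := hwnn y hy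
        have h2 : 0 ≤ y ^ (1 / g) := Real.rpow_nonneg hy.1.le _
        have h3 : y ^ (1 / g) ≤ 1 := Real.rpow_le_one hy.1.le hy.2.le (by positivity)
        rw [Real.norm_of_nonneg (by positivity)]
        have h4 : (y ^ (1 / g)) ^ i ≤ 1 := pow_le_one₀ h2 h3
        show (y ^ (1 / g)) ^ i * wB a b y ≤ wB a b y
        nlinarith
    rw [e2]
    simp_rw [e1]
    apply tendsto_finset_sum
    intro i _
    exact (hmon i).const_mul _
  apply InG.of_tendsto (ψ := fun n => LT (Pr (K n) n)) (fun n => InG_Pr (hK n) n)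
  intro x hx
  -- the test function
  set f : ℝ → ℝ := fun t => expNegInvGlue (t / x) with hf
  have hfc : Continuous f := by
    have := (expNegInvGlue.contDiff (n := 0)).continuous
    fun_prop
  have hfv : ∀ t : ℝ, 0 < t → f t = Real.exp (-(x * t⁻¹)) := by
    intro t ht
    simp only [hf, expNegInvGlue]
    rw [if_neg (by push Not; positivity)]
    congr 1
    field_simp
  have hf01 : ∀ t, 0 ≤ f t ∧ f t ≤ 1 := by
    intro t
    simp only [hf, expNegInvGlue]
    split_ifs with h
    · constructor <;> norm_num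
    · push Not at h
      refine ⟨(Real.exp_pos _).le, Real.exp_le_one_iff.mpr ?_⟩
      have : 0 < (t / x)⁻¹ := by positivity
      linarith
  rw [Metric.tendsto_atTop]
  intro ε hε
  obtain ⟨p, hp⟩ := exists_polynomial_near_of_continuousOn 0 1 f hfc.continuousOn (ε / 4) (by positivity)
  have h1 := Metric.tendsto_atTop.mp (hpoly p) (ε / 4) (by positivity)
  obtain ⟨N, hN⟩ := h1
  refine ⟨N, fun n hn => ?_⟩
  have h2 := hN n hn
  have hPrp := isProb_Pr (hK n) n
  have hpc : Continuous (fun t => p.eval t) := p.continuous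
  have hpm : Measurable (fun t : ℝ => p.eval t) := hpc.measurable
  have hpb : ∀ t ∈ Set.Icc (0:ℝ) 1, |p.eval t| ≤ 1 + ε / 4 := by
    intro t ht
    have := hp t ht
    rw [abs_lt] at this
    have h3 := hf01 t
    rw [abs_le]
    constructor <;> linarith [this.1, this.2]
  -- left comparison
  have hL : |LT (Pr (K n) n) x - ∫ y, p.eval y⁻¹ ∂(Pr (K n) n)| ≤ ε / 4 := by
    have i1 := LT_int (μ := Pr (K n) n) ((Pr_ge (hK n) n).mono (fun y hy => by linarith)) hx.le
    have i2 : Integrable (fun y : ℝ => p.eval y⁻¹) (Pr (K n) n) := by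
      apply Integrable.mono' (integrable_const (1 + ε / 4))
      · exact (hpm.comp measurable_inv).aestronglyMeasurable
      · filter_upwards [Pr_ge (hK n) n] with y hy
        exact hpb _ ⟨by positivity, inv_le_one_of_one_le₀ hy⟩
    unfold LT
    rw [← integral_sub i1 i2]
    calc |∫ y, (Real.exp (-(x * y)) - p.eval y⁻¹) ∂(Pr (K n) n)|
        ≤ ∫ y, |Real.exp (-(x * y)) - p.eval y⁻¹| ∂(Pr (K n) n) := abs_integral_le_integral_abs
      _ ≤ ∫ y, ε / 4 ∂(Pr (K n) n) := by
          apply integral_mono_ae (i1.sub i2).abs (integrable_const _)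
          filter_upwards [Pr_ge (hK n) n] with y hy
          have hy0 : 0 < y⁻¹ := by positivity
          have h3 := hp y⁻¹ ⟨hy0.le, inv_le_one_of_one_le₀ hy⟩
          rw [hfv _ hy0, inv_inv, abs_sub_comm] at h3
          exact h3.le
      _ = ε / 4 := by simp
  have hR : |(∫ y in Set.Ioo (0:ℝ) 1, p.eval (y ^ (1 / g)) * wB a b y) / beta a b
      - (∫ y in Set.Ioo (0:ℝ) 1, Real.exp (-(x * (y ^ (1 / g))⁻¹)) * wB a b y) / beta a b| ≤ ε / 4 := by
    have i1 : IntegrableOn (fun y : ℝ => p.eval (y ^ (1 / g)) * wB a b y) (Set.Ioo (0:ℝ) 1) := by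
      apply Integrable.mono' (hBi.const_mul (1 + ε / 4))
      · apply Measurable.aestronglyMeasurable
        exact (hpm.comp (by fun_prop : Measurable (fun y : ℝ => y ^ (1 / g)))).mul hwm
      · filter_upwards [ae_restrict_mem measurableSet_Ioo] with y hy
        rw [norm_mul, Real.norm_of_nonneg (hwnn y hy)]
        apply mul_le_mul_of_nonneg_right _ (hwnn y hy)
        exact hpb _ ⟨Real.rpow_nonneg hy.1.le _, Real.rpow_le_one hy.1.le hy.2.le (by positivity)⟩
    have i2 : IntegrableOn (fun y : ℝ => Real.exp (-(x * (y ^ (1 / g))⁻¹)) * wB a b y) (Set.Ioo (0:ℝ) 1) := by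
      apply Integrable.mono' hBi
      · apply Measurable.aestronglyMeasurable
        fun_prop
      · filter_upwards [ae_restrict_mem measurableSet_Ioo] with y hy
        rw [norm_mul, Real.norm_of_nonneg (hwnn y hy), Real.norm_of_nonneg (Real.exp_pos _).le]
        have h3 : Real.exp (-(x * (y ^ (1 / g))⁻¹)) ≤ 1 := Real.exp_le_one_iff.mpr (by
          have h4 : 0 < y ^ (1 / g) := Real.rpow_pos_of_pos hy.1 _
          have : 0 < x * (y ^ (1 / g))⁻¹ := by positivity
          linarith)
        have := hwnn y hy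
        show Real.exp (-(x * (y ^ (1 / g))⁻¹)) * wB a b y ≤ wB a b y
        nlinarith
    rw [← sub_div, ← integral_sub i1 i2, abs_div, abs_of_pos hB, div_le_iff₀ hB]
    calc |∫ y in Set.Ioo (0:ℝ) 1, (p.eval (y ^ (1 / g)) * wB a b y - Real.exp (-(x * (y ^ (1 / g))⁻¹)) * wB a b y)|
        ≤ ∫ y in Set.Ioo (0:ℝ) 1, |p.eval (y ^ (1 / g)) * wB a b y - Real.exp (-(x * (y ^ (1 / g))⁻¹)) * wB a b y| :=
          abs_integral_le_integral_abs
      _ ≤ ∫ y in Set.Ioo (0:ℝ) 1, ε / 4 * wB a b y := by
          apply setIntegral_mono_on (i1.sub i2).abs (hBi.const_mul _) measurableSet_Ioo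
          intro y hy
          have h4 : 0 < y ^ (1 / g) := Real.rpow_pos_of_pos hy.1 _
          have h3 := hp (y ^ (1 / g)) ⟨h4.le, Real.rpow_le_one hy.1.le hy.2.le (by positivity)⟩
          rw [hfv _ h4] at h3
          show |p.eval (y ^ (1 / g)) * wB a b y - Real.exp (-(x * (y ^ (1 / g))⁻¹)) * wB a b y| ≤ ε / 4 * wB a b y
          rw [← sub_mul, abs_mul, abs_of_nonneg (hwnn y hy)]
          exact mul_le_mul_of_nonneg_right h3.le (hwnn y hy)
      _ = ε / 4 * beta a b := by
          rw [integral_const_mul]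
          congr 1
  rw [Real.dist_eq] at h2 ⊢
  have t1 := abs_sub_le (LT (Pr (K n) n) x) (∫ y, p.eval y⁻¹ ∂(Pr (K n) n))
    ((∫ y in Set.Ioo (0:ℝ) 1, Real.exp (-(x * (y ^ (1 / g))⁻¹)) * wB a b y) / beta a b)
  have t2 := abs_sub_le (∫ y, p.eval y⁻¹ ∂(Pr (K n) n)) ((∫ y in Set.Ioo (0:ℝ) 1, p.eval (y ^ (1 / g)) * wB a b y) / beta a b)
    ((∫ y in Set.Ioo (0:ℝ) 1, Real.exp (-(x * (y ^ (1 / g))⁻¹)) * wB a b y) / beta a b)
  linarith

end H330GGC
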