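import Pool.Agent.H330R3.GGC.B1
open MeasureTheory Real ProbabilityTheory Set Filter
open scoped ENNReal Topology BoundedContinuousFunction

set_option maxHeartbeats 1000000

namespace H330GGC

/-- normalized kernel -/
noncomputable def ker (x y : ℝ) : ℝ :=
  if y = 0 then x else if y = 1 then 1 else Real.log (1 + (x - 1) * y) / (-Real.log (1 - y)) + 1

lemma ker_zero (x : ℝ) : ker x 0 = x := by simp [ker]

lemma ker_one (x : ℝ) : ker x 1 = 1 := by simp [ker]

lemma ker_mid {x y : ℝ} (hy0 : 0 < y) (hy1 : y < 1) :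
    ker x y = Real.log (1 + (x - 1) * y) / (-Real.log (1 - y)) + 1 := by
  unfold ker; rw [if_neg hy0.ne', if_neg hy1.ne]

lemma log_one_sub_neg {y : ℝ} (hy0 : 0 < y) (hy1 : y < 1) : 0 < -Real.log (1 - y) := by
  have := Real.log_neg (show 0 < 1 - y by linarith) (show 1 - y < 1 by linarith)
  linarith

lemma arg_pos {x y : ℝ} (hx : 0 < x) (hy0 : 0 ≤ y) (hy1 : y ≤ 1) : 0 < 1 + (x - 1) * y := by
  have h : 1 + (x - 1) * y = (1 - y) + x * y := by ring
  rw [h]
  rcases hy0.eq_or_lt with h0 | h0
  · rw [← h0]; norm_num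
  · have := mul_pos hx h0
    linarith

/-- in terms of `b = y/(1-y)` -/
lemma ker_eq {x y : ℝ} (hx : 0 < x) (hy0 : 0 < y) (hy1 : y < 1) :
    ker x y = Real.log (1 + x * (y / (1 - y))) / (-Real.log (1 - y)) := by
  have h1 := log_one_sub_neg hy0 hy1
  have h2 : 0 < 1 - y := by linarith
  have h3 := arg_pos hx hy0.le hy1.le
  have e : 1 + x * (y / (1 - y)) = (1 + (x - 1) * y) / (1 - y) := by field_simp; ring
  rw [ker_mid hy0 hy1, e, Real.log_div h3.ne' h2.ne', div_add_one h1.ne']
  congr 1

lemma ker_nonneg {x y : ℝ} (hx : 0 < x) (hy0 : 0 ≤ y) (hy1 : y ≤ 1) : 0 ≤ ker x y := by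
  rcases hy0.eq_or_lt with h | h0
  · rw [← h, ker_zero]; exact hx.le
  rcases hy1.eq_or_lt with h | h1
  · rw [h, ker_one]; norm_num
  rw [ker_eq hx h0 h1]
  have g1 := log_one_sub_neg h0 h1
  have g2 : 0 < 1 - y := by linarith
  apply div_nonneg _ g1.le
  apply Real.log_nonneg
  have : 0 < x * (y / (1 - y)) := by positivity
  linarith

lemma ker_measurable (x : ℝ) : Measurable (ker x) := by
  unfold ker
  apply Measurable.ite (measurableSet_singleton 0) measurable_const
  apply Measurable.ite (measurableSet_singleton 1) measurable_const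
  fun_prop

lemma ker_continuousOn {x : ℝ} (hx : 0 < x) : ContinuousOn (ker x) (Set.Icc 0 1) := by
  intro y hy
  rcases hy.1.eq_or_lt with h | h0
  · -- at 0
    subst h
    unfold ContinuousWithinAt
    rw [ker_zero]
    have hd1 : HasDerivAt (fun y : ℝ => Real.log (1 + (x - 1) * y)) ((x - 1) * 1 / (1 + (x - 1) * 0)) 0 :=
      HasDerivAt.log (((hasDerivAt_id (0:ℝ)).const_mul (x - 1)).const_add 1) (by norm_num)
    have hd2 : HasDerivAt (fun y : ℝ => -Real.log (1 - y)) (-((-1) / (1 - 0))) 0 :=
      (HasDerivAt.log ((hasDerivAt_id (0:ℝ)).const_sub 1) (by norm_num)).neg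
    have t1 := hasDerivAt_iff_tendsto_slope.mp hd1
    have t2 := hasDerivAt_iff_tendsto_slope.mp hd2
    have t3 := (t1.div t2 (by norm_num)).add_const 1
    have e : (x - 1) * 1 / (1 + (x - 1) * 0) / (-((-1) / (1 - 0))) + 1 = x := by norm_num
    rw [e] at t3
    have t4 : Tendsto (ker x) (𝓝[Icc 0 1 \ {0}] 0) (𝓝 x) := by
      apply (t3.mono_left (nhdsWithin_mono 0 (fun y hy => hy.2))).congr'
      filter_upwards [self_mem_nhdsWithin, mem_nhdsWithin_of_mem_nhds (Iio_mem_nhds (one_pos : (0:ℝ) < 1))] with y hy hy1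
      have hy0 : 0 < y := lt_of_le_of_ne hy.1.1 (fun h => hy.2 h.symm)
      rw [ker_mid hy0 hy1]
      congr 1
      simp only [Pi.div_apply, slope_def_field]
      have hy0 : y - 0 ≠ 0 := by linarith
      rw [div_div_div_cancel_right₀ hy0]
      simp
    have t5 : ContinuousWithinAt (ker x) (Icc 0 1 \ {0}) 0 := by
      unfold ContinuousWithinAt
      rw [ker_zero]; exact t4
    rw [continuousWithinAt_sdiff_self] at t5
    have := t5
    unfold ContinuousWithinAt at this
    rwa [ker_zero] at this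
  · rcases hy.2.eq_or_lt with h | h1
    · subst h
      have t1 : Tendsto (fun y : ℝ => -Real.log (1 - y)) (𝓝[Icc 0 1 \ {1}] 1) atTop := by
        apply tendsto_neg_atBot_atTop.comp
        apply Real.tendsto_log_nhdsGT_zero.comp
        rw [tendsto_nhdsWithin_iff]
        constructor
        · have : Tendsto (fun y : ℝ => 1 - y) (𝓝 1) (𝓝 (1 - 1)) := by
            apply Continuous.tendsto; fun_prop
          rw [sub_self] at this
          exact this.mono_left nhdsWithin_le_nhds
        · filter_upwards [self_mem_nhdsWithin] with y hy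
          have : y < 1 := lt_of_le_of_ne hy.1.2 hy.2
          show (0:ℝ) < 1 - y
          linarith
      have t2 : Tendsto (fun y : ℝ => Real.log (1 + (x - 1) * y)) (𝓝[Icc 0 1 \ {1}] 1) (𝓝 (Real.log (1 + (x - 1) * 1))) := by
        have : ContinuousAt (fun y : ℝ => Real.log (1 + (x - 1) * y)) 1 := by
          apply ContinuousAt.log (by fun_prop)
          simp; exact hx.ne'
        exact this.tendsto.mono_left nhdsWithin_le_nhds
      have t3 : Tendsto (fun y : ℝ => Real.log (1 + (x - 1) * y) / (-Real.log (1 - y)) + 1) (𝓝[Icc 0 1 \ {1}] 1) (𝓝 (0 + 1)) :=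
        (t2.div_atTop t1).add_const 1
      rw [zero_add] at t3
      have t5 : ContinuousWithinAt (ker x) (Icc 0 1 \ {1}) 1 := by
        unfold ContinuousWithinAt
        rw [ker_one]
        apply t3.congr'
        filter_upwards [self_mem_nhdsWithin, mem_nhdsWithin_of_mem_nhds (Ioi_mem_nhds (one_pos : (0:ℝ) < 1))] with y hy hy0
        have hy1 : y < 1 := lt_of_le_of_ne hy.1.2 hy.2
        rw [ker_mid hy0 hy1]
      rwa [continuousWithinAt_sdiff_self] at t5
    · apply ContinuousAt.continuousWithinAt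
      have h2 : ContinuousAt (fun y : ℝ => Real.log (1 + (x - 1) * y) / (-Real.log (1 - y)) + 1) y := by
        apply ContinuousAt.add _ continuousAt_const
        apply ContinuousAt.div
        · apply ContinuousAt.log (by fun_prop)
          exact (arg_pos hx h0.le h1.le).ne'
        · apply ContinuousAt.neg
          apply ContinuousAt.log (by fun_prop)
          linarith
        · exact (log_one_sub_neg h0 h1).ne'
      apply h2.congr
      filter_upwards [Ioo_mem_nhds h0 h1] with z hz
      rw [ker_mid hz.1 hz.2]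

abbrev I01 := Set.Icc (0:ℝ) 1

/-- the kernel as a bounded continuous function -/
noncomputable def kerC (x : ℝ) (hx : 0 < x) : C(I01, ℝ) :=
  ⟨fun y => ker x y, (ker_continuousOn hx).domRestrict⟩

/-- point of `[0,1]` attached to `b` -/
noncomputable def pt (b : ℝ) : ℝ := b / (1 + b)

lemma pt_mem {b : ℝ} (hb : 0 < b) : 0 < pt b ∧ pt b < 1 := by
  unfold pt
  constructor
  · positivity
  · rw [div_lt_one (by positivity)]; linarith

lemma ker_pt {x b : ℝ} (hx : 0 < x) (hb : 0 < b) : Real.log (1 + b) * ker x (pt b) = Real.log (1 + b * x) := by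
  obtain ⟨h0, h1⟩ := pt_mem hb
  rw [ker_eq hx h0 h1]
  have e1 : 1 - pt b = 1 / (1 + b) := by unfold pt; field_simp; ring
  have e2 : pt b / (1 - pt b) = b := by rw [e1]; unfold pt; field_simp
  have h2 : 0 < Real.log (1 + b) := Real.log_pos (by linarith)
  rw [e2, e1, one_div, Real.log_inv, neg_neg, mul_comm x b]
  field_simp

/-- discrete measure attached to a list -/
noncomputable def mR : List (ℝ × ℝ) → Measure ℝ
  | [] => 0
  | (b, κ) :: K => ENNReal.ofReal (κ * Real.log (1 + b)) • Measure.dirac (pt b) + mR K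

lemma mR_fin (K : List (ℝ × ℝ)) : IsFiniteMeasure (mR K) := by
  induction K with
  | nil => unfold mR; infer_instance
  | cons y K ih =>
    obtain ⟨b, κ⟩ := y
    unfold mR
    have : IsFiniteMeasure (ENNReal.ofReal (κ * Real.log (1 + b)) • (Measure.dirac (pt b) : Measure ℝ)) :=
      Measure.smul_finite _ ENNReal.ofReal_ne_top
    infer_instance

lemma mR_supp {K : List (ℝ × ℝ)} (hK : PosL K) : ∀ᵐ y ∂(mR K), y ∈ I01 := by
  induction K with
  | nil => unfold mR; simp
  | cons y K ih =>
    obtain ⟨b, κ⟩ := y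
    have hb : 0 < b := (hK (b, κ) (by simp)).1
    have ih' := ih (fun y hy => hK y (by simp [hy]))
    unfold mR
    rw [ae_add_measure_iff]
    refine ⟨?_, ih'⟩
    apply Measure.ae_smul_measure
    have hms : MeasurableSet {y : ℝ | y ∈ I01} := measurableSet_Icc
    rw [ae_dirac_iff hms]
    exact ⟨(pt_mem hb).1.le, (pt_mem hb).2.le⟩

lemma mR_ker {K : List (ℝ × ℝ)} (hK : PosL K) {x : ℝ} (hx : 0 < x) :
    Integrable (ker x) (mR K) ∧ ∫ y, ker x y ∂(mR K) = lG K x := by
  induction K with
  | nil => unfold mR; simp [lG]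
  | cons y K ih =>
    obtain ⟨b, κ⟩ := y
    have hb : 0 < b := (hK (b, κ) (by simp)).1
    have hκ : 0 < κ := (hK (b, κ) (by simp)).2
    obtain ⟨i1, e1⟩ := ih (fun y hy => hK y (by simp [hy]))
    have i2 : Integrable (ker x) (ENNReal.ofReal (κ * Real.log (1 + b)) • (Measure.dirac (pt b) : Measure ℝ)) := by
      apply Integrable.smul_measure _ ENNReal.ofReal_ne_top
      exact integrable_dirac (by finiteness)
    unfold mR
    refine ⟨i2.add_measure i1, ?_⟩
    rw [integral_add_measure i2 i1, e1, integral_smul_measure, integral_dirac]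
    have h2 : 0 < Real.log (1 + b) := Real.log_pos (by linarith)
    rw [ENNReal.toReal_ofReal (by positivity), smul_eq_mul, mul_assoc, ker_pt hx hb]
    unfold lG
    simp

lemma mR_mass {K : List (ℝ × ℝ)} (hK : PosL K) : (mR K).real Set.univ = lG K 1 := by
  have h := (mR_ker hK one_pos).2
  have : ∀ᵐ y ∂(mR K), ker 1 y = 1 := by
    filter_upwards [mR_supp hK] with y hy
    rcases hy.1.eq_or_lt with h | h0
    · rw [← h, ker_zero]
    rcases hy.2.eq_or_lt with h | h1
    · rw [h, ker_one]
    rw [ker_mid h0 h1]; simp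
  rw [integral_congr_ae this] at h
  simpa using h

lemma exists_rho {K : List (ℝ × ℝ)} (hK : PosL K) (hpos : 0 < lG K 1) :
    ∃ ρ : ProbabilityMeasure I01, ∀ x (hx : 0 < x), ∫ y, kerC x hx y ∂(ρ : Measure I01) = lG K x / lG K 1 := by
  have hfin := mR_fin K
  have hmass := mR_mass hK
  set ν : Measure ℝ := ENNReal.ofReal (lG K 1)⁻¹ • mR K with hν
  have hνu : ν (I01) = 1 := by
    have h1 : (mR K) I01 = (mR K) Set.univ := by
      apply measure_congr
      rw [ae_eq_univ]
      have := mR_supp hK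
      rwa [ae_iff] at this
    rw [hν, Measure.smul_apply, h1, smul_eq_mul]
    have h2 : (mR K) Set.univ = ENNReal.ofReal (lG K 1) := by
      rw [← hmass, Measure.real, ENNReal.ofReal_toReal (measure_ne_top _ _)]
    rw [h2, ← ENNReal.ofReal_mul (by positivity), inv_mul_cancel₀ hpos.ne', ENNReal.ofReal_one]
  have hcm : (Measure.comap (Subtype.val : I01 → ℝ) ν) Set.univ = 1 := by
    rw [Measure.comap_apply _ Subtype.val_injective (fun s hs => MeasurableSet.subtype_image measurableSet_Icc hs) _ MeasurableSet.univ]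
    rw [Set.image_univ, Subtype.range_coe]
    exact hνu
  refine ⟨⟨Measure.comap (Subtype.val : I01 → ℝ) ν, ⟨hcm⟩⟩, ?_⟩
  intro x hx
  have h1 : ∫ y, kerC x hx y ∂(Measure.comap (Subtype.val : I01 → ℝ) ν) = ∫ y in I01, ker x y ∂ν :=
    integral_subtype_comap measurableSet_Icc (fun y => ker x y)
  show ∫ y, kerC x hx y ∂(Measure.comap (Subtype.val : I01 → ℝ) ν) = _
  rw [h1, hν, Measure.restrict_smul, integral_smul_measure, ENNReal.toReal_ofReal (by positivity)]
  have h2 : ∫ y in I01, ker x y ∂(mR K) = ∫ y, ker x y ∂(mR K) := by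
    rw [Measure.restrict_eq_self_of_ae_mem (mR_supp hK)]
  rw [h2, (mR_ker hK hx).2, smul_eq_mul]
  ring

lemma continuous_ker_int {x : ℝ} (hx : 0 < x) :
    Continuous (fun ρ : ProbabilityMeasure I01 => ∫ y, kerC x hx y ∂(ρ : Measure I01)) :=
  ProbabilityMeasure.continuous_iff_forall_continuousMap_continuous_integral.1 continuous_id (kerC x hx)

theorem exists_limit_rho {φ : ℝ → ℝ} (h : InG φ) (hpos : ∀ x, 0 < x → 0 < φ x) (h1 : φ 1 < 1) :
    ∃ ρ : ProbabilityMeasure I01, ∀ x (hx : 0 < x),
      ∫ y, kerC x hx y ∂(ρ : Measure I01) = (-Real.log (φ x)) / (-Real.log (φ 1)) := by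
  set ψ : ℝ → ℝ := fun x => (-Real.log (φ x)) / (-Real.log (φ 1)) with hψ
  have hm : 0 < -Real.log (φ 1) := by
    have := Real.log_neg (hpos 1 one_pos) h1; linarith
  set A : ({x : ℝ // 0 < x} × ℕ) → Set (ProbabilityMeasure I01) := fun i =>
    {ρ | |∫ y, kerC i.1.1 i.1.2 y ∂(ρ : Measure I01) - ψ i.1.1| ≤ 1 / ((i.2:ℝ) + 1)} with hA
  have hclosed : ∀ i, IsClosed (A i) := by
    intro i
    apply isClosed_le _ continuous_const
    exact ((continuous_ker_int i.1.2).sub continuous_const).abs
  have hfip : ∀ s : Finset ({x : ℝ // 0 < x} × ℕ), (⋂ i ∈ s, A i).Nonempty := by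
    intro s
    set F : Finset ℝ := insert 1 (s.image (fun i => i.1.1)) with hF
    have hFpos : ∀ x ∈ F, 0 < x := by
      intro x hx
      rw [hF, Finset.mem_insert] at hx
      rcases hx with hx | hx
      · rw [hx]; norm_num
      · rw [Finset.mem_image] at hx
        obtain ⟨i, _, rfl⟩ := hx
        exact i.1.2
    have hch : ∀ j : ℕ, ∃ K, PosL K ∧ ∀ x ∈ F, |φ x - GG K x| < 1 / ((j:ℝ) + 1) :=
      fun j => h F hFpos _ (by positivity)
    choose K hK hK1 using hch
    have hG : ∀ x ∈ F, Tendsto (fun j => GG (K j) x) atTop (𝓝 (φ x)) := by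
      intro x hx
      rw [tendsto_iff_norm_sub_tendsto_zero]
      apply squeeze_zero (fun j => norm_nonneg _) _ tendsto_one_div_add_atTop_nhds_zero_nat
      intro j
      rw [Real.norm_eq_abs, abs_sub_comm]
      exact (hK1 j x hx).le
    have hlG : ∀ x ∈ F, Tendsto (fun j => lG (K j) x) atTop (𝓝 (-Real.log (φ x))) := by
      intro x hx
      have := ((hG x hx).log (hpos x (hFpos x hx)).ne').neg
      refine this.congr (fun j => ?_)
      rw [GG_eq_exp (hK j) (hFpos x hx).le, Real.log_exp, neg_neg]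
    have h1F : (1:ℝ) ∈ F := by rw [hF]; exact Finset.mem_insert_self _ _
    have hl1 := hlG 1 h1F
    have hev1 : ∀ᶠ j in atTop, 0 < lG (K j) 1 := hl1.eventually_const_lt hm
    have hratio : ∀ x ∈ F, Tendsto (fun j => lG (K j) x / lG (K j) 1) atTop (𝓝 (ψ x)) := by
      intro x hx
      exact (hlG x hx).div hl1 hm.ne'
    have hev2 : ∀ᶠ j in atTop, ∀ i ∈ s, |lG (K j) i.1.1 / lG (K j) 1 - ψ i.1.1| ≤ 1 / ((i.2:ℝ) + 1) := by
      rw [Filter.eventually_all_finset]
      intro i hi
      have hiF : i.1.1 ∈ F := by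
        rw [hF]; exact Finset.mem_insert_of_mem (Finset.mem_image_of_mem _ hi)
      have := (Metric.tendsto_nhds.mp (hratio _ hiF)) (1 / ((i.2:ℝ) + 1)) (by positivity)
      filter_upwards [this] with j hj
      rw [Real.dist_eq] at hj
      exact hj.le
    obtain ⟨j, hj1, hj2⟩ := (hev1.and hev2).exists
    obtain ⟨ρ, hρ⟩ := exists_rho (hK j) hj1
    refine ⟨ρ, ?_⟩
    rw [Set.mem_iInter₂]
    intro i hi
    show |∫ y, kerC i.1.1 i.1.2 y ∂(ρ : Measure I01) - ψ i.1.1| ≤ 1 / ((i.2:ℝ) + 1)
    rw [hρ]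
    exact hj2 i hi
  obtain ⟨ρ, hρ⟩ := CompactSpace.iInter_nonempty hclosed hfip
  refine ⟨ρ, ?_⟩
  intro x hx
  rw [Set.mem_iInter] at hρ
  have h2 : ∀ n : ℕ, |∫ y, kerC x hx y ∂(ρ : Measure I01) - ψ x| ≤ 1 / ((n:ℝ) + 1) := fun n => hρ (⟨x, hx⟩, n)
  have h3 : |∫ y, kerC x hx y ∂(ρ : Measure I01) - ψ x| ≤ 0 :=
    ge_of_tendsto' tendsto_one_div_add_atTop_nhds_zero_nat h2
  have h4 := abs_nonpos_iff.mp h3
  exact sub_eq_zero.mp h4

theorem final_rep {φ : ℝ → ℝ} (h : InG φ) (hpos : ∀ x, 0 < x → 0 < φ x) (h1 : φ 1 < 1)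
    (hlim : Tendsto φ (𝓝[>] 0) (𝓝 1)) :
    ∃ a : ℝ, 0 ≤ a ∧ ∃ U : Measure ℝ, U (Set.Iic 0) = 0 ∧ ∀ l : ℝ, 0 < l →
      Integrable (fun t : ℝ => Real.log (1 + l / t)) U ∧
      φ l = Real.exp (-(a * l) - ∫ t, Real.log (1 + l / t) ∂U) := by
  obtain ⟨ρ, hρ⟩ := exists_limit_rho h hpos h1
  set m := -Real.log (φ 1) with hm
  have hm0 : 0 < m := by
    have := Real.log_neg (hpos 1 one_pos) h1; linarith
  -- push forward to ℝ
  set μ : Measure ℝ := Measure.map (Subtype.val : I01 → ℝ) (ρ : Measure I01) with hμ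
  have hμp : IsProbabilityMeasure μ := Measure.isProbabilityMeasure_map measurable_subtype_coe.aemeasurable
  have hsupp : ∀ᵐ y ∂μ, y ∈ I01 := by
    have hms : MeasurableSet {y : ℝ | y ∈ I01} := measurableSet_Icc
    rw [hμ, ae_map_iff measurable_subtype_coe.aemeasurable hms]
    exact Eventually.of_forall (fun y => y.2)
  have hker : ∀ x, 0 < x → ∫ y, ker x y ∂μ = (-Real.log (φ x)) / m := by
    intro x hx
    rw [hμ, integral_map measurable_subtype_coe.aemeasurable (ker_measurable x).aestronglyMeasurable]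
    exact hρ x hx
  have hkeri : ∀ x, 0 < x → Integrable (ker x) μ := by
    intro x hx
    rw [hμ, integrable_map_measure (ker_measurable x).aestronglyMeasurable measurable_subtype_coe.aemeasurable]
    have h2 : Integrable (fun y : I01 => kerC x hx y) (ρ : Measure I01) := by
      apply Integrable.mono' (integrable_const (‖kerC x hx‖)) (kerC x hx).continuous.aestronglyMeasurable
      exact Eventually.of_forall (fun y => (kerC x hx).norm_coe_le_norm y)
    exact h2
  -- no atom at 1
  have hatom : μ {1} = 0 := by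
    have hle : ∀ x, 0 < x → μ.real {1} ≤ (-Real.log (φ x)) / m := by
      intro x hx
      rw [← hker x hx]
      have e1 : μ.real {1} = ∫ y in ({1} : Set ℝ), ker x y ∂μ := by
        rw [integral_singleton, ker_one]; simp
      rw [e1]
      apply setIntegral_le_integral (hkeri x hx)
      filter_upwards [hsupp] with y hy
      exact ker_nonneg hx hy.1 hy.2
    have hl2 : Tendsto (fun x => (-Real.log (φ x)) / m) (𝓝[>] 0) (𝓝 0) := by
      have := ((hlim.log one_ne_zero).neg).div_const m
      simpa using this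
    have h3 : μ.real {1} ≤ 0 := by
      apply ge_of_tendsto hl2
      filter_upwards [self_mem_nhdsWithin] with x hx
      exact hle x hx
    have h4 : μ.real {1} = 0 := le_antisymm h3 measureReal_nonneg
    rw [measureReal_eq_zero_iff] at h4
    exact h4
  have hsupp2 : ∀ᵐ y ∂μ, y = 0 ∨ y ∈ Set.Ioo (0:ℝ) 1 := by
    have hne : ∀ᵐ y ∂μ, y ≠ 1 := by
      rw [ae_iff]; simpa using hatom
    filter_upwards [hsupp, hne] with y hy hy1
    rcases hy.1.eq_or_lt with h | h
    · left; exact h.symm
    · right; exact ⟨h, lt_of_le_of_ne hy.2 hy1⟩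
  -- the Thorin measure
  set W : Measure ℝ := (μ.restrict (Set.Ioo 0 1)).withDensity (fun y => ENNReal.ofReal (m / (-Real.log (1 - y)))) with hW
  set T : ℝ → ℝ := fun y => (1 - y) / y with hT
  have hTm : Measurable T := by rw [hT]; fun_prop
  set U : Measure ℝ := Measure.map T W with hU
  have hdm : Measurable (fun y : ℝ => ENNReal.ofReal (m / (-Real.log (1 - y)))) := by fun_prop
  have hmemIoo : ∀ᵐ y ∂W, y ∈ Set.Ioo (0:ℝ) 1 :=
    (withDensity_absolutelyContinuous _ _).ae_le (ae_restrict_mem measurableSet_Ioo)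
  refine ⟨m * μ.real {0}, by positivity, U, ?_, ?_⟩
  · rw [hU, Measure.map_apply hTm measurableSet_Iic]
    have : ∀ᵐ y ∂W, ¬ (T y ≤ 0) := by
      filter_upwards [hmemIoo] with y hy
      have h1 := hy.1
      have h2 : 0 < 1 - y := by linarith [hy.2]
      push Not
      show 0 < (1 - y) / y
      positivity
    rw [ae_iff] at this
    have e : T ⁻¹' Set.Iic 0 = {a | ¬¬ (T a ≤ 0)} := by
      ext y; simp
    rw [e]; exact this
  · intro l hl
    have hfm : Measurable (fun t : ℝ => Real.log (1 + l / t)) := by fun_prop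
    have hptw : ∀ y ∈ Set.Ioo (0:ℝ) 1, (m / (-Real.log (1 - y))) * Real.log (1 + l / T y) = m * ker l y := by
      intro y hy
      have h1 := hy.1
      have h2 : 0 < 1 - y := by linarith [hy.2]
      rw [ker_eq hl hy.1 hy.2]
      have e : l / T y = l * (y / (1 - y)) := by
        simp only [hT]; field_simp
      rw [e]; ring
    have hI1 : Integrable (fun y => (m / (-Real.log (1 - y))) * Real.log (1 + l / T y)) (μ.restrict (Set.Ioo 0 1)) := by
      have := ((hkeri l hl).const_mul m).restrict (s := Set.Ioo (0:ℝ) 1)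
      apply this.congr
      filter_upwards [ae_restrict_mem measurableSet_Ioo] with y hy
      exact (hptw y hy).symm
    have hdens : ∀ᵐ y ∂(μ.restrict (Set.Ioo 0 1)), (ENNReal.ofReal (m / (-Real.log (1 - y)))).toReal = m / (-Real.log (1 - y)) := by
      filter_upwards [ae_restrict_mem measurableSet_Ioo] with y hy
      have := log_one_sub_neg hy.1 hy.2
      rw [ENNReal.toReal_ofReal (by positivity)]
    have hUI : Integrable (fun t : ℝ => Real.log (1 + l / t)) U := by
      rw [hU, integrable_map_measure hfm.aestronglyMeasurable hTm.aemeasurable, hW,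
        integrable_withDensity_iff_integrable_smul' hdm (Eventually.of_forall (fun y => ENNReal.ofReal_lt_top))]
      apply hI1.congr
      filter_upwards [hdens] with y hy
      rw [hy]; rfl
    refine ⟨hUI, ?_⟩
    have hint : ∫ t, Real.log (1 + l / t) ∂U = m * ∫ y in Set.Ioo (0:ℝ) 1, ker l y ∂μ := by
      rw [hU, integral_map hTm.aemeasurable hfm.aestronglyMeasurable, hW,
        integral_withDensity_eq_integral_toReal_smul hdm (Eventually.of_forall (fun y => ENNReal.ofReal_lt_top)),
        ← integral_const_mul]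
      apply integral_congr_ae
      filter_upwards [hdens, ae_restrict_mem measurableSet_Ioo] with y hy hy2
      rw [hy, smul_eq_mul]
      exact hptw y hy2
    have hsplit : ∫ y, ker l y ∂μ = μ.real {0} * l + ∫ y in Set.Ioo (0:ℝ) 1, ker l y ∂μ := by
      have h5 := integral_add_compl (measurableSet_singleton (0:ℝ)) (hkeri l hl)
      rw [← h5]
      congr 1
      · rw [integral_singleton, ker_zero, smul_eq_mul]
      · apply setIntegral_congr_set
        filter_upwards [hsupp2] with y hy
        apply propext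
        constructor
        · intro hy2
          rcases hy with h | h
          · exact absurd h hy2
          · exact h
        · intro hy2 h0
          have : y = 0 := h0
          rw [this] at hy2
          exact lt_irrefl _ hy2.1
    have h6 := hker l hl
    rw [hsplit] at h6
    have h7 : -Real.log (φ l) = m * (μ.real {0} * l + ∫ y in Set.Ioo (0:ℝ) 1, ker l y ∂μ) := by
      rw [h6]; field_simp
    rw [hint]
    have h8 : -(m * μ.real {0} * l) - m * ∫ y in Set.Ioo (0:ℝ) 1, ker l y ∂μ = Real.log (φ l) := by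
      have : Real.log (φ l) = -(m * (μ.real {0} * l + ∫ y in Set.Ioo (0:ℝ) 1, ker l y ∂μ)) := by linarith
      rw [this]; ring
    rw [h8, Real.exp_log (hpos l hl)]

end H330GGC
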