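import Mathlib
open MeasureTheory Real
open scoped ENNReal

set_option maxHeartbeats 1000000

namespace H330GGC

/-- multiplicative Haar measure on `(0,∞)` -/
noncomputable def hh : Measure ℝ := Measure.map Real.exp volume

instance : SFinite hh := by unfold hh; infer_instance

lemma lintegral_hh {f : ℝ → ℝ≥0∞} (hf : Measurable f) :
    ∫⁻ x, f x ∂hh = ∫⁻ x, f (Real.exp x) := by
  unfold hh
  rw [lintegral_map hf Real.measurable_exp]

lemma hh_pos : ∀ᵐ x ∂hh, 0 < x := by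
  unfold hh
  rw [ae_map_iff Real.measurable_exp.aemeasurable measurableSet_Ioi]
  exact Filter.Eventually.of_forall (fun x => Real.exp_pos x)

lemma lintegral_hh_scale {f : ℝ → ℝ≥0∞} (hf : Measurable f) {c : ℝ} (hc : 0 < c) :
    ∫⁻ x, f (c * x) ∂hh = ∫⁻ x, f x ∂hh := by
  rw [lintegral_hh hf, lintegral_hh (by fun_prop)]
  have : ∀ x, f (c * Real.exp x) = (fun y => f (Real.exp y)) (x + Real.log c) := by
    intro x
    simp only
    rw [Real.exp_add, Real.exp_log hc, mul_comm]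
  simp_rw [this]
  exact lintegral_add_right_eq_self (μ := volume) (fun y => f (Real.exp y)) (Real.log c)

/-- the elimination identity for one pair of variables -/
lemma pair_elim (κ P Q R : ℝ) (hP : 0 < P) :
    ∫⁻ f, ∫⁻ f', ENNReal.ofReal (f ^ κ) * (ENNReal.ofReal (f' ^ κ) *
        ENNReal.ofReal (Real.exp (-(R * f * f' + f * P + f' * Q)))) ∂hh ∂hh
      = ∫⁻ z, ∫⁻ σ, ENNReal.ofReal (z ^ κ) * (ENNReal.ofReal (σ ^ κ) *
        ENNReal.ofReal (Real.exp (-(R * z * σ + z + σ * (P * Q))))) ∂hh ∂hh := by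
  have h1 : ∀ f : ℝ, ∫⁻ f', ENNReal.ofReal (f ^ κ) * (ENNReal.ofReal (f' ^ κ) *
        ENNReal.ofReal (Real.exp (-(R * f * f' + f * P + f' * Q)))) ∂hh
      = ∫⁻ σ, ENNReal.ofReal (f ^ κ) * (ENNReal.ofReal ((P * σ) ^ κ) *
        ENNReal.ofReal (Real.exp (-(R * f * (P * σ) + f * P + (P * σ) * Q)))) ∂hh := by
    intro f
    exact (lintegral_hh_scale (f := fun f' => ENNReal.ofReal (f ^ κ) * (ENNReal.ofReal (f' ^ κ) *
        ENNReal.ofReal (Real.exp (-(R * f * f' + f * P + f' * Q))))) (by fun_prop) hP).symm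
  simp_rw [h1]
  have hm : Measurable (fun z : ℝ => ∫⁻ σ, ENNReal.ofReal (z ^ κ) *
      (ENNReal.ofReal ((P * σ) ^ κ) *
        ENNReal.ofReal (Real.exp (-(R * z * (P * σ) + z * P + (P * σ) * Q)))) ∂hh) := by
    apply Measurable.lintegral_prod_right'
      (f := fun x : ℝ × ℝ => ENNReal.ofReal (x.1 ^ κ) *
      (ENNReal.ofReal ((P * x.2) ^ κ) *
        ENNReal.ofReal (Real.exp (-(R * x.1 * (P * x.2) + x.1 * P + (P * x.2) * Q)))))
    fun_prop
  rw [← lintegral_hh_scale hm (c := P⁻¹) (by positivity)]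
  apply lintegral_congr_ae
  filter_upwards [hh_pos] with z hz
  apply lintegral_congr_ae
  filter_upwards [hh_pos] with σ hσ
  have e1 : R * (P⁻¹ * z) * (P * σ) + P⁻¹ * z * P + P * σ * Q = R * z * σ + z + σ * (P * Q) := by
    field_simp
  rw [e1]
  have e2 : (P⁻¹ * z) ^ κ * (P * σ) ^ κ = z ^ κ * σ ^ κ := by
    rw [← Real.mul_rpow (by positivity) (by positivity), ← Real.mul_rpow (by positivity) (by positivity)]
    congr 1
    field_simp
  rw [← mul_assoc, ← mul_assoc, ← ENNReal.ofReal_mul (by positivity), e2,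
    ENNReal.ofReal_mul (by positivity), mul_assoc]

lemma swap4 {α β : Type*} [MeasurableSpace α] [MeasurableSpace β] (μ : Measure α) (ν : Measure β)
    [SFinite μ] [SFinite ν] (g : α → β → α → β → ℝ≥0∞)
    (hg : Measurable (fun x : α × β × α × β => g x.1 x.2.1 x.2.2.1 x.2.2.2)) :
    ∫⁻ a, ∫⁻ b, ∫⁻ a', ∫⁻ b', g a b a' b' ∂ν ∂μ ∂ν ∂μ =
      ∫⁻ b, ∫⁻ b', ∫⁻ a, ∫⁻ a', g a b a' b' ∂μ ∂μ ∂ν ∂ν := by
  -- swap inner two
  have h1 : ∀ a b, ∫⁻ a', ∫⁻ b', g a b a' b' ∂ν ∂μ = ∫⁻ b', ∫⁻ a', g a b a' b' ∂μ ∂ν := by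
    intro a b
    apply lintegral_lintegral_swap
    apply Measurable.aemeasurable
    exact hg.comp (by fun_prop : Measurable (fun x : α × β => (a, b, x.1, x.2)))
  simp_rw [h1]
  have m3 : Measurable (fun x : α × β × β => ∫⁻ a', g x.1 x.2.1 a' x.2.2 ∂μ) := by
    apply Measurable.lintegral_prod_right' (f := fun x : (α × β × β) × α => g x.1.1 x.1.2.1 x.2 x.1.2.2)
    exact hg.comp (by fun_prop : Measurable (fun x : (α × β × β) × α => (x.1.1, x.1.2.1, x.2, x.1.2.2)))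
  have m2 : Measurable (fun x : α × β => ∫⁻ b', ∫⁻ a', g x.1 x.2 a' b' ∂μ ∂ν) := by
    apply Measurable.lintegral_prod_right' (f := fun x : (α × β) × β => ∫⁻ a', g x.1.1 x.1.2 a' x.2 ∂μ)
    exact m3.comp (by fun_prop : Measurable (fun x : (α × β) × β => (x.1.1, x.1.2, x.2)))
  rw [lintegral_lintegral_swap m2.aemeasurable]
  congr 1
  ext b
  apply lintegral_lintegral_swap
  apply Measurable.aemeasurable
  exact m3.comp (by fun_prop : Measurable (fun x : α × β => (x.1, b, x.2)))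

/-- the (infinite) measure of the pair `(∑ b_j F_j, ∑ F_j)` -/
noncomputable def mL : List (ℝ × ℝ) → Measure (ℝ × ℝ)
  | [] => Measure.dirac (0, 0)
  | (b, κ) :: L => Measure.map (fun x : ℝ × (ℝ × ℝ) => (b * x.1 + x.2.1, x.1 + x.2.2))
      ((hh.withDensity (fun f => ENNReal.ofReal (f ^ κ))).prod (mL L))

instance instSFmL (L : List (ℝ × ℝ)) : SFinite (mL L) := by
  induction L with
  | nil => unfold mL; infer_instance
  | cons x L ih => obtain ⟨b, κ⟩ := x; unfold mL; infer_instance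

lemma lintegral_mL_cons (b κ : ℝ) (L : List (ℝ × ℝ)) {g : ℝ × ℝ → ℝ≥0∞} (hg : Measurable g) :
    ∫⁻ u, g u ∂(mL ((b, κ) :: L)) =
      ∫⁻ f, ∫⁻ u, ENNReal.ofReal (f ^ κ) * g (b * f + u.1, f + u.2) ∂(mL L) ∂hh := by
  rw [mL, lintegral_map hg (by fun_prop), lintegral_prod _ (by
    apply Measurable.aemeasurable; fun_prop)]
  rw [lintegral_withDensity_eq_lintegral_mul _ (by fun_prop) (by
    apply Measurable.lintegral_prod_right' (f := fun x : ℝ × (ℝ × ℝ) =>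
      g (b * x.1 + x.2.1, x.1 + x.2.2))
    fun_prop)]
  apply lintegral_congr
  intro f
  simp only [Pi.mul_apply]
  rw [lintegral_const_mul _ (by fun_prop)]

def PosL (L : List (ℝ × ℝ)) : Prop := ∀ x ∈ L, 0 < x.1 ∧ 0 < x.2

lemma mL_nonneg {L : List (ℝ × ℝ)} (hL : PosL L) : ∀ᵐ u ∂(mL L), 0 ≤ u.1 ∧ 0 ≤ u.2 := by
  induction L with
  | nil =>
    unfold mL
    rw [ae_dirac_iff]
    · simp
    · exact (measurableSet_le measurable_const measurable_fst).inter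
        (measurableSet_le measurable_const measurable_snd)
  | cons x L ih =>
    obtain ⟨b, κ⟩ := x
    have hb : 0 < b := (hL (b, κ) (by simp)).1
    have ih' := ih (fun y hy => hL y (by simp [hy]))
    unfold mL
    have hms : MeasurableSet {u : ℝ × ℝ | 0 ≤ u.1 ∧ 0 ≤ u.2} :=
      (measurableSet_le measurable_const measurable_fst).inter
        (measurableSet_le measurable_const measurable_snd)
    rw [ae_map_iff (by apply Measurable.aemeasurable; fun_prop) hms]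
    have h1 : ∀ᵐ x ∂((hh.withDensity (fun f => ENNReal.ofReal (f ^ κ))).prod (mL L)), 0 < x.1 := by
      have : ∀ᵐ f ∂(hh.withDensity (fun f => ENNReal.ofReal (f ^ κ))), 0 < f :=
        (withDensity_absolutelyContinuous _ _).ae_le hh_pos
      exact Measure.quasiMeasurePreserving_fst.ae this
    have h2 : ∀ᵐ x ∂((hh.withDensity (fun f => ENNReal.ofReal (f ^ κ))).prod (mL L)),
        0 ≤ x.2.1 ∧ 0 ≤ x.2.2 := by
      exact Measure.quasiMeasurePreserving_snd.ae ih'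
    filter_upwards [h1, h2] with x hx1 hx2
    constructor
    · have := mul_pos hb hx1
      show 0 ≤ b * x.1 + x.2.1
      linarith [hx2.1]
    · show 0 ≤ x.1 + x.2.2
      linarith [hx2.2]

/-- the state of the elimination: `(r, q, p, A, B)` -/
abbrev St := ℝ × ℝ × ℝ × ℝ × ℝ

def Ex (s : St) (c c' : ℝ) (u u' : ℝ × ℝ) : ℝ :=
  s.1 * u.1 * u'.1 + s.2.1 * (c' * u.1 + c * u'.1) + s.2.2.1 * (c * u.1 + c' * u'.1)
    + c * u.2 + c' * u'.2 + s.2.2.2.1 * (c * c') + s.2.2.2.2 * (c + c') ^ 2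

def upd (b : ℝ) (s : St) (σ : ℝ) : St :=
  (s.1 + σ * b ^ 2 * s.1 ^ 2,
   s.2.1 + σ * b ^ 2 * s.1 * s.2.1,
   s.2.2.1 + σ * b * s.1 * (b * s.2.2.1 + 1),
   s.2.2.2.1 + σ * (b * s.2.1 - (b * s.2.2.1 + 1)) ^ 2,
   s.2.2.2.2 + σ * (b * s.2.1) * (b * s.2.2.1 + 1))

def NonnegSt (s : St) : Prop := 0 ≤ s.1 ∧ 0 ≤ s.2.1 ∧ 0 ≤ s.2.2.1 ∧ 0 ≤ s.2.2.2.1 ∧ 0 ≤ s.2.2.2.2

lemma measurableSet_nonnegSt : MeasurableSet {s : St | NonnegSt s} := by
  unfold NonnegSt
  have e : {s : St | 0 ≤ s.1 ∧ 0 ≤ s.2.1 ∧ 0 ≤ s.2.2.1 ∧ 0 ≤ s.2.2.2.1 ∧ 0 ≤ s.2.2.2.2} =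
    {s : St | 0 ≤ s.1} ∩ ({s : St | 0 ≤ s.2.1} ∩ ({s : St | 0 ≤ s.2.2.1} ∩
      ({s : St | 0 ≤ s.2.2.2.1} ∩ {s : St | 0 ≤ s.2.2.2.2}))) := by
    ext s; simp
  rw [e]
  exact (measurableSet_le measurable_const (by fun_prop)).inter
    ((measurableSet_le measurable_const (by fun_prop)).inter
    ((measurableSet_le measurable_const (by fun_prop)).inter
    ((measurableSet_le measurable_const (by fun_prop)).inter
    (measurableSet_le measurable_const (by fun_prop)))))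

lemma Ex_measurable' : Measurable (fun x : St × (ℝ × ℝ) × (ℝ × ℝ) × (ℝ × ℝ) =>
    Ex x.1 x.2.1.1 x.2.1.2 x.2.2.1 x.2.2.2) := by
  unfold Ex
  fun_prop

/-- exponent after adding the variables `f, f'` -/
lemma Ex_cons (s : St) (c c' b f f' : ℝ) (u u' : ℝ × ℝ) :
    Ex s c c' (b * f + u.1, f + u.2) (b * f' + u'.1, f' + u'.2)
      = Ex s c c' u u' + ((s.1 * b ^ 2) * f * f'
        + f * (b * (s.1 * u'.1 + s.2.1 * c' + s.2.2.1 * c) + c)
        + f' * (b * (s.1 * u.1 + s.2.1 * c + s.2.2.1 * c') + c')) := by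
  unfold Ex
  simp only
  ring

lemma Ex_upd (s : St) (c c' b σ : ℝ) (u u' : ℝ × ℝ) :
    Ex (upd b s σ) c c' u u' = Ex s c c' u u' +
      σ * ((b * (s.1 * u'.1 + s.2.1 * c' + s.2.2.1 * c) + c) *
        (b * (s.1 * u.1 + s.2.1 * c + s.2.2.1 * c') + c')) := by
  unfold Ex upd
  simp only
  ring

lemma upd_nonneg {b σ : ℝ} {s : St} (hb : 0 < b) (hσ : 0 < σ) (hs : NonnegSt s) :
    NonnegSt (upd b s σ) := by
  obtain ⟨h1, h2, h3, h4, h5⟩ := hs
  refine ⟨?_, ?_, ?_, ?_, ?_⟩ <;> simp only [upd] <;> positivity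

lemma upd_measurable (b : ℝ) : Measurable (fun x : St × ℝ => upd b x.1 x.2) := by
  unfold upd
  fun_prop

/-- one step of the elimination for a fixed state -/
lemma step_fixed {b κ c c' : ℝ} (hb : 0 < b) (hc : 0 < c) (hc' : 0 < c') {s : St}
    (hs : NonnegSt s) (ν : Measure (ℝ × ℝ)) [SFinite ν] (hν : ∀ᵐ u ∂ν, 0 ≤ u.1 ∧ 0 ≤ u.2) :
    ∫⁻ f, ∫⁻ u, ∫⁻ f', ∫⁻ u', ENNReal.ofReal (f ^ κ) * (ENNReal.ofReal (f' ^ κ) *
        ENNReal.ofReal (Real.exp (-(Ex s c c' (b * f + u.1, f + u.2) (b * f' + u'.1, f' + u'.2)))))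
          ∂ν ∂hh ∂ν ∂hh
      = ∫⁻ z, ∫⁻ σ, ENNReal.ofReal (z ^ κ) * (ENNReal.ofReal (σ ^ κ) *
          ENNReal.ofReal (Real.exp (-((s.1 * b ^ 2) * z * σ + z)))) *
          ∫⁻ u, ∫⁻ u', ENNReal.ofReal (Real.exp (-(Ex (upd b s σ) c c' u u'))) ∂ν ∂ν ∂hh ∂hh := by
  rw [swap4 hh ν (fun f u f' u' => ENNReal.ofReal (f ^ κ) * (ENNReal.ofReal (f' ^ κ) *
        ENNReal.ofReal (Real.exp (-(Ex s c c' (b * f + u.1, f + u.2) (b * f' + u'.1, f' + u'.2))))))
        (by unfold Ex; fun_prop)]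
  -- pair elimination inside
  have h1 : ∀ᵐ u ∂ν, ∀ᵐ u' ∂ν, ∫⁻ f, ∫⁻ f', ENNReal.ofReal (f ^ κ) * (ENNReal.ofReal (f' ^ κ) *
        ENNReal.ofReal (Real.exp (-(Ex s c c' (b * f + u.1, f + u.2) (b * f' + u'.1, f' + u'.2)))))
          ∂hh ∂hh
      = ∫⁻ z, ∫⁻ σ, ENNReal.ofReal (z ^ κ) * (ENNReal.ofReal (σ ^ κ) *
          ENNReal.ofReal (Real.exp (-((s.1 * b ^ 2) * z * σ + z)))) *
          ENNReal.ofReal (Real.exp (-(Ex (upd b s σ) c c' u u'))) ∂hh ∂hh := by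
    filter_upwards [hν] with u hu
    filter_upwards [hν] with u' hu'
    set P := b * (s.1 * u'.1 + s.2.1 * c' + s.2.2.1 * c) + c with hPdef
    set Q := b * (s.1 * u.1 + s.2.1 * c + s.2.2.1 * c') + c' with hQdef
    have hP : 0 < P := by
      obtain ⟨h1, h2, h3, h4, h5⟩ := hs
      have := hu'.1
      positivity
    have key := pair_elim κ P Q (s.1 * b ^ 2) hP
    have hl : ∀ f f' : ℝ, ENNReal.ofReal (f ^ κ) * (ENNReal.ofReal (f' ^ κ) *
        ENNReal.ofReal (Real.exp (-(Ex s c c' (b * f + u.1, f + u.2) (b * f' + u'.1, f' + u'.2)))))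
        = ENNReal.ofReal (Real.exp (-(Ex s c c' u u'))) *
          (ENNReal.ofReal (f ^ κ) * (ENNReal.ofReal (f' ^ κ) *
        ENNReal.ofReal (Real.exp (-((s.1 * b ^ 2) * f * f' + f * P + f' * Q))))) := by
      intro f f'
      rw [Ex_cons, neg_add, Real.exp_add, ENNReal.ofReal_mul (by positivity)]
      ring
    simp_rw [hl]
    have hm1 : ∀ f : ℝ, Measurable (fun f' : ℝ => (ENNReal.ofReal (f ^ κ) * (ENNReal.ofReal (f' ^ κ) *
        ENNReal.ofReal (Real.exp (-((s.1 * b ^ 2) * f * f' + f * P + f' * Q)))))) := by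
      intro f; fun_prop
    simp_rw [fun f : ℝ => lintegral_const_mul (μ := hh) (ENNReal.ofReal (Real.exp (-(Ex s c c' u u')))) (hm1 f)]
    rw [lintegral_const_mul _ (by
      apply Measurable.lintegral_prod_right' (f := fun x : ℝ × ℝ =>
        (ENNReal.ofReal (x.1 ^ κ) * (ENNReal.ofReal (x.2 ^ κ) *
        ENNReal.ofReal (Real.exp (-((s.1 * b ^ 2) * x.1 * x.2 + x.1 * P + x.2 * Q))))))
      fun_prop), key]
    have hr : ∀ z σ : ℝ, ENNReal.ofReal (z ^ κ) * (ENNReal.ofReal (σ ^ κ) *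
          ENNReal.ofReal (Real.exp (-((s.1 * b ^ 2) * z * σ + z)))) *
          ENNReal.ofReal (Real.exp (-(Ex (upd b s σ) c c' u u')))
        = ENNReal.ofReal (Real.exp (-(Ex s c c' u u'))) *
          (ENNReal.ofReal (z ^ κ) * (ENNReal.ofReal (σ ^ κ) *
        ENNReal.ofReal (Real.exp (-((s.1 * b ^ 2) * z * σ + z + σ * (P * Q)))))) := by
      intro z σ
      rw [Ex_upd, ← hPdef, ← hQdef]
      rw [neg_add (Ex s c c' u u'), Real.exp_add, ENNReal.ofReal_mul (by positivity),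
        neg_add (s.1 * b ^ 2 * z * σ + z), Real.exp_add, ENNReal.ofReal_mul (by positivity)]
      ring
    simp_rw [hr]
    have hm2 : ∀ z : ℝ, Measurable (fun σ : ℝ => (ENNReal.ofReal (z ^ κ) * (ENNReal.ofReal (σ ^ κ) *
        ENNReal.ofReal (Real.exp (-((s.1 * b ^ 2) * z * σ + z + σ * (P * Q))))))) := by
      intro z; fun_prop
    simp_rw [fun z : ℝ => lintegral_const_mul (μ := hh) (ENNReal.ofReal (Real.exp (-(Ex s c c' u u')))) (hm2 z)]
    rw [lintegral_const_mul _ (by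
      apply Measurable.lintegral_prod_right' (f := fun x : ℝ × ℝ =>
        (ENNReal.ofReal (x.1 ^ κ) * (ENNReal.ofReal (x.2 ^ κ) *
        ENNReal.ofReal (Real.exp (-((s.1 * b ^ 2) * x.1 * x.2 + x.1 + x.2 * (P * Q)))))))
      fun_prop)]
  have h2 : ∫⁻ u, ∫⁻ u', ∫⁻ f, ∫⁻ f', ENNReal.ofReal (f ^ κ) * (ENNReal.ofReal (f' ^ κ) *
        ENNReal.ofReal (Real.exp (-(Ex s c c' (b * f + u.1, f + u.2) (b * f' + u'.1, f' + u'.2)))))
          ∂hh ∂hh ∂ν ∂ν
      = ∫⁻ u, ∫⁻ u', ∫⁻ z, ∫⁻ σ, ENNReal.ofReal (z ^ κ) * (ENNReal.ofReal (σ ^ κ) *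
          ENNReal.ofReal (Real.exp (-((s.1 * b ^ 2) * z * σ + z)))) *
          ENNReal.ofReal (Real.exp (-(Ex (upd b s σ) c c' u u'))) ∂hh ∂hh ∂ν ∂ν := by
    apply lintegral_congr_ae
    filter_upwards [h1] with u hu
    apply lintegral_congr_ae
    filter_upwards [hu] with u' hu'
    exact hu'
  rw [h2]
  have hmE : Measurable (fun x : ℝ × (ℝ × ℝ) × ℝ × (ℝ × ℝ) =>
      ENNReal.ofReal (x.1 ^ κ) * (ENNReal.ofReal (x.2.2.1 ^ κ) *
          ENNReal.ofReal (Real.exp (-((s.1 * b ^ 2) * x.1 * x.2.2.1 + x.1)))) *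
          ENNReal.ofReal (Real.exp (-(Ex (upd b s x.2.2.1) c c' x.2.1 x.2.2.2)))) := by
    unfold Ex upd
    fun_prop
  rw [← swap4 hh ν (fun z u σ u' => ENNReal.ofReal (z ^ κ) * (ENNReal.ofReal (σ ^ κ) *
          ENNReal.ofReal (Real.exp (-((s.1 * b ^ 2) * z * σ + z)))) *
          ENNReal.ofReal (Real.exp (-(Ex (upd b s σ) c c' u u')))) hmE]
  apply lintegral_congr
  intro z
  -- ∫ u ∫ σ ∫ u' → ∫ σ ∫ u ∫ u'
  rw [lintegral_lintegral_swap]
  · apply lintegral_congr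
    intro σ
    have : ∀ u : ℝ × ℝ, ∫⁻ u', ENNReal.ofReal (z ^ κ) * (ENNReal.ofReal (σ ^ κ) *
          ENNReal.ofReal (Real.exp (-((s.1 * b ^ 2) * z * σ + z)))) *
          ENNReal.ofReal (Real.exp (-(Ex (upd b s σ) c c' u u'))) ∂ν
        = ENNReal.ofReal (z ^ κ) * (ENNReal.ofReal (σ ^ κ) *
          ENNReal.ofReal (Real.exp (-((s.1 * b ^ 2) * z * σ + z)))) *
          ∫⁻ u', ENNReal.ofReal (Real.exp (-(Ex (upd b s σ) c c' u u'))) ∂ν := by
      intro u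
      rw [lintegral_const_mul _ (by unfold Ex; fun_prop)]
    simp_rw [this]
    rw [lintegral_const_mul _ (by
      apply Measurable.lintegral_prod_right' (f := fun x : (ℝ × ℝ) × (ℝ × ℝ) =>
        ENNReal.ofReal (Real.exp (-(Ex (upd b s σ) c c' x.1 x.2))))
      unfold Ex; fun_prop)]
  · apply Measurable.aemeasurable
    apply Measurable.lintegral_prod_right' (f := fun x : ((ℝ × ℝ) × ℝ) × (ℝ × ℝ) =>
      ENNReal.ofReal (z ^ κ) * (ENNReal.ofReal (x.1.2 ^ κ) *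
          ENNReal.ofReal (Real.exp (-((s.1 * b ^ 2) * z * x.1.2 + z)))) *
          ENNReal.ofReal (Real.exp (-(Ex (upd b s x.1.2) c c' x.1.1 x.2))))
    unfold Ex upd
    fun_prop

/-- the new state measure -/
noncomputable def Wm (M : Measure St) (b κ : ℝ) : Measure (St × ℝ × ℝ) :=
  (M.prod (hh.prod hh)).withDensity
      (fun x => ENNReal.ofReal (x.2.1 ^ κ) * (ENNReal.ofReal (x.2.2 ^ κ) *
          ENNReal.ofReal (Real.exp (-((x.1.1 * b ^ 2) * x.2.1 * x.2.2 + x.2.1)))))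

noncomputable def Mm (M : Measure St) (b κ : ℝ) : Measure St :=
  Measure.map (fun x : St × ℝ × ℝ => upd b x.1 x.2.2) (Wm M b κ)

lemma upd_meas2 (b : ℝ) : Measurable (fun x : St × ℝ × ℝ => upd b x.1 x.2.2) :=
  (upd_measurable b).comp (by fun_prop : Measurable (fun x : St × ℝ × ℝ => (x.1, x.2.2)))

lemma lintegral_Mm (M : Measure St) [SFinite M] (b κ : ℝ) {Φ : St → ℝ≥0∞} (hΦ : Measurable Φ) :
    ∫⁻ s, Φ s ∂(Mm M b κ) = ∫⁻ s, ∫⁻ z, ∫⁻ σ, ENNReal.ofReal (z ^ κ) * (ENNReal.ofReal (σ ^ κ) *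
          ENNReal.ofReal (Real.exp (-((s.1 * b ^ 2) * z * σ + z)))) * Φ (upd b s σ) ∂hh ∂hh ∂M := by
  have hΦu : Measurable (fun x : St × ℝ × ℝ => Φ (upd b x.1 x.2.2)) := hΦ.comp (upd_meas2 b)
  have hmF : Measurable (fun x : St × ℝ × ℝ => ENNReal.ofReal (x.2.1 ^ κ) * (ENNReal.ofReal (x.2.2 ^ κ) *
          ENNReal.ofReal (Real.exp (-((x.1.1 * b ^ 2) * x.2.1 * x.2.2 + x.2.1)))) *
          Φ (upd b x.1 x.2.2)) := by
    exact Measurable.mul (by fun_prop) hΦu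
  rw [Mm, lintegral_map hΦ (upd_meas2 b), Wm,
    lintegral_withDensity_eq_lintegral_mul _ (by fun_prop) hΦu]
  simp only [Pi.mul_apply]
  rw [lintegral_prod _ hmF.aemeasurable]
  apply lintegral_congr
  intro s
  rw [lintegral_prod]
  apply Measurable.aemeasurable
  exact hmF.comp (by fun_prop : Measurable (fun y : ℝ × ℝ => (s, y)))

instance (M : Measure St) [SFinite M] (b κ : ℝ) : SFinite (Mm M b κ) := by
  unfold Mm Wm; infer_instance

lemma Mm_nonneg (M : Measure St) [SFinite M] {b : ℝ} (hb : 0 < b) (κ : ℝ)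
    (hM : ∀ᵐ s ∂M, NonnegSt s) : ∀ᵐ s ∂(Mm M b κ), NonnegSt s := by
  rw [Mm, ae_map_iff (upd_meas2 b).aemeasurable measurableSet_nonnegSt]
  have h1 : ∀ᵐ x ∂(M.prod (hh.prod hh)), NonnegSt x.1 :=
    Measure.quasiMeasurePreserving_fst.ae hM
  have h2 : ∀ᵐ x ∂(M.prod (hh.prod hh)), 0 < x.2.2 := by
    have : ∀ᵐ y ∂(hh.prod hh), 0 < y.2 := Measure.quasiMeasurePreserving_snd.ae hh_pos
    exact Measure.quasiMeasurePreserving_snd.ae this
  apply (withDensity_absolutelyContinuous _ _).ae_le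
  filter_upwards [h1, h2] with x hx1 hx2
  exact upd_nonneg hb hx2 hx1

/-- the elimination theorem: the double integral against `mL L`, mixed over the state, is a mixture of
`exp(-(A c c' + B (c+c')^2))` -/
theorem elim (L : List (ℝ × ℝ)) (hL : PosL L) : ∀ (M : Measure St), SFinite M →
    (∀ᵐ s ∂M, NonnegSt s) →
    ∃ N : Measure (ℝ × ℝ), (∀ᵐ x ∂N, 0 ≤ x.1 ∧ 0 ≤ x.2) ∧ ∀ c c' : ℝ, 0 < c → 0 < c' →
      ∫⁻ s, ∫⁻ u, ∫⁻ u', ENNReal.ofReal (Real.exp (-(Ex s c c' u u'))) ∂(mL L) ∂(mL L) ∂M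
        = ∫⁻ x, ENNReal.ofReal (Real.exp (-(x.1 * (c * c') + x.2 * (c + c') ^ 2))) ∂N := by
  induction L with
  | nil =>
    intro M _ hM
    refine ⟨Measure.map (fun s : St => (s.2.2.2.1, s.2.2.2.2)) M, ?_, ?_⟩
    · have hms : MeasurableSet {u : ℝ × ℝ | 0 ≤ u.1 ∧ 0 ≤ u.2} :=
        (measurableSet_le measurable_const measurable_fst).inter
          (measurableSet_le measurable_const measurable_snd)
      rw [ae_map_iff (by apply Measurable.aemeasurable; fun_prop) hms]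
      filter_upwards [hM] with s hs
      exact ⟨hs.2.2.2.1, hs.2.2.2.2⟩
    · intro c c' hc hc'
      rw [lintegral_map (by fun_prop) (by fun_prop)]
      apply lintegral_congr
      intro s
      have h0 : Measurable (fun u' : ℝ × ℝ => ENNReal.ofReal (Real.exp (-(Ex s c c' (0, 0) u')))) := by
        unfold Ex; fun_prop
      have h1 : Measurable (fun u : ℝ × ℝ => ∫⁻ u', ENNReal.ofReal (Real.exp (-(Ex s c c' u u'))) ∂(mL [])) := by
        apply Measurable.lintegral_prod_right' (f := fun x : (ℝ × ℝ) × (ℝ × ℝ) =>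
          ENNReal.ofReal (Real.exp (-(Ex s c c' x.1 x.2))))
        unfold Ex; fun_prop
      have h2 : ∫⁻ u, ∫⁻ u', ENNReal.ofReal (Real.exp (-(Ex s c c' u u'))) ∂(mL []) ∂(mL [])
          = ∫⁻ u', ENNReal.ofReal (Real.exp (-(Ex s c c' (0, 0) u'))) ∂(mL []) := by
        conv_lhs => rw [mL]
        rw [lintegral_dirac' _ (by rw [mL] at h1; exact h1)]
        rw [mL]
      rw [h2, mL, lintegral_dirac' _ h0]
      unfold Ex
      simp
  | cons x L ih =>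
    obtain ⟨b, κ⟩ := x
    intro M hMs hM
    have hb : 0 < b := (hL (b, κ) (by simp)).1
    have hL' : PosL L := fun y hy => hL y (by simp [hy])
    obtain ⟨N, hN, hNe⟩ := ih hL' (Mm M b κ) inferInstance (Mm_nonneg M hb κ hM)
    refine ⟨N, hN, ?_⟩
    intro c c' hc hc'
    rw [← hNe c c' hc hc']
    -- rewrite the left side
    have hcons : ∀ s : St, ∫⁻ u, ∫⁻ u', ENNReal.ofReal (Real.exp (-(Ex s c c' u u')))
          ∂(mL ((b, κ) :: L)) ∂(mL ((b, κ) :: L))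
        = ∫⁻ f, ∫⁻ u, ∫⁻ f', ∫⁻ u', ENNReal.ofReal (f ^ κ) * (ENNReal.ofReal (f' ^ κ) *
        ENNReal.ofReal (Real.exp (-(Ex s c c' (b * f + u.1, f + u.2) (b * f' + u'.1, f' + u'.2)))))
          ∂(mL L) ∂hh ∂(mL L) ∂hh := by
      intro s
      have hm1 : Measurable (fun u : ℝ × ℝ => ∫⁻ u', ENNReal.ofReal (Real.exp (-(Ex s c c' u u')))
          ∂(mL ((b, κ) :: L))) := by
        apply Measurable.lintegral_prod_right' (f := fun x : (ℝ × ℝ) × (ℝ × ℝ) =>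
          ENNReal.ofReal (Real.exp (-(Ex s c c' x.1 x.2))))
        unfold Ex; fun_prop
      rw [lintegral_mL_cons b κ L hm1]
      apply lintegral_congr
      intro f
      apply lintegral_congr
      intro u
      have hm2 : Measurable (fun u' : ℝ × ℝ => ENNReal.ofReal (Real.exp (-(Ex s c c' (b * f + u.1, f + u.2) u')))) := by
        unfold Ex; fun_prop
      rw [lintegral_mL_cons b κ L hm2, ← lintegral_const_mul]
      · apply lintegral_congr
        intro f'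
        rw [← lintegral_const_mul]
        unfold Ex; fun_prop
      · apply Measurable.lintegral_prod_right' (f := fun x : ℝ × (ℝ × ℝ) => ENNReal.ofReal (x.1 ^ κ) *
          ENNReal.ofReal (Real.exp (-(Ex s c c' (b * f + u.1, f + u.2) (b * x.1 + x.2.1, x.1 + x.2.2)))))
        unfold Ex; fun_prop
    simp_rw [hcons]
    have hstep : ∫⁻ s, ∫⁻ f, ∫⁻ u, ∫⁻ f', ∫⁻ u', ENNReal.ofReal (f ^ κ) * (ENNReal.ofReal (f' ^ κ) *
        ENNReal.ofReal (Real.exp (-(Ex s c c' (b * f + u.1, f + u.2) (b * f' + u'.1, f' + u'.2)))))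
          ∂(mL L) ∂hh ∂(mL L) ∂hh ∂M
        = ∫⁻ s, ∫⁻ z, ∫⁻ σ, ENNReal.ofReal (z ^ κ) * (ENNReal.ofReal (σ ^ κ) *
          ENNReal.ofReal (Real.exp (-((s.1 * b ^ 2) * z * σ + z)))) *
          ∫⁻ u, ∫⁻ u', ENNReal.ofReal (Real.exp (-(Ex (upd b s σ) c c' u u'))) ∂(mL L) ∂(mL L) ∂hh ∂hh ∂M := by
      apply lintegral_congr_ae
      filter_upwards [hM] with s hs
      exact step_fixed hb hc hc' hs (mL L) (mL_nonneg hL')
    rw [hstep]
    -- right side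
    have hmE3 : Measurable (fun x : St × (ℝ × ℝ) × (ℝ × ℝ) =>
        ENNReal.ofReal (Real.exp (-(Ex x.1 c c' x.2.1 x.2.2)))) := by
      unfold Ex; fun_prop
    have hmE2 : Measurable (fun x : St × (ℝ × ℝ) =>
        ∫⁻ u', ENNReal.ofReal (Real.exp (-(Ex x.1 c c' x.2 u'))) ∂(mL L)) := by
      apply Measurable.lintegral_prod_right' (f := fun x : (St × (ℝ × ℝ)) × (ℝ × ℝ) =>
        ENNReal.ofReal (Real.exp (-(Ex x.1.1 c c' x.1.2 x.2))))
      unfold Ex; fun_prop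
    have hmE1 : Measurable (fun s : St =>
        ∫⁻ u, ∫⁻ u', ENNReal.ofReal (Real.exp (-(Ex s c c' u u'))) ∂(mL L) ∂(mL L)) := by
      exact Measurable.lintegral_prod_right' (f := fun x : St × (ℝ × ℝ) =>
        ∫⁻ u', ENNReal.ofReal (Real.exp (-(Ex x.1 c c' x.2 u'))) ∂(mL L)) hmE2
    exact (lintegral_Mm M b κ hmE1).symm

end H330GGC
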