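import Pool.Agent.H330R3.GGC.E
open MeasureTheory Real
open scoped ENNReal

set_option maxHeartbeats 1000000

namespace H330GGC

/-- `Γ(β) D^{-β}` as an integral against `hh` -/
lemma gamma_hh {β D : ℝ} (hβ : 0 < β) (hD : 0 < D) :
    ∫⁻ x, ENNReal.ofReal (x ^ β) * ENNReal.ofReal (Real.exp (-(x * D))) ∂hh
      = ENNReal.ofReal (Real.Gamma β * D ^ (-β)) := by
  have h1 : ∫⁻ x, ENNReal.ofReal (x ^ β) * ENNReal.ofReal (Real.exp (-(x * D))) ∂hh
      = ∫⁻ x in Set.Ioi (0:ℝ), ENNReal.ofReal (x ^ (β - 1) * Real.exp (-(D * x))) := by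
    rw [lintegral_hh (by fun_prop)]
    have h2 := lintegral_image_eq_lintegral_abs_deriv_mul (s := Set.univ) (f := Real.exp)
      (f' := Real.exp) MeasurableSet.univ (fun x _ => (Real.hasDerivAt_exp x).hasDerivWithinAt)
      Real.exp_injective.injOn
      (fun x => ENNReal.ofReal (x ^ (β - 1) * Real.exp (-(D * x))))
    rw [Set.image_univ, Real.range_exp] at h2
    rw [h2]
    simp only [Measure.restrict_univ]
    apply lintegral_congr
    intro x
    rw [← ENNReal.ofReal_mul (by positivity), ← ENNReal.ofReal_mul (by positivity)]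
    congr 1
    rw [abs_of_pos (Real.exp_pos x), ← mul_assoc, mul_comm (Real.exp x) D]
    congr 1
    · rw [← Real.exp_mul, ← Real.exp_mul, ← Real.exp_add]
      congr 1; ring
  rw [h1, ← ofReal_integral_eq_lintegral_ofReal]
  · rw [Real.integral_rpow_mul_exp_neg_mul_Ioi hβ hD, Real.rpow_neg hD.le, one_div,
      Real.inv_rpow hD.le, mul_comm]
  · have := integrableOn_rpow_mul_exp_neg_mul_rpow (p := 1) (s := β - 1) (b := D) (by linarith) one_pos hD
    simp only [Real.rpow_one, neg_mul] at this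
    exact this
  · filter_upwards [ae_restrict_mem measurableSet_Ioi] with x hx
    have : (0:ℝ) < x := hx
    show 0 ≤ x ^ (β - 1) * Real.exp (-(D * x))
    positivity

/-- `∏ Γ(β) (a Y + c)^{-β}` -/
noncomputable def PK (K : List (ℝ × ℝ)) (Y c : ℝ) : ℝ :=
  (K.map (fun x => Real.Gamma x.2 * (x.1 * Y + c) ^ (-x.2))).prod

lemma PK_nonneg {K : List (ℝ × ℝ)} (hK : PosL K) {Y c : ℝ} (hY : 0 ≤ Y) (hc : 0 < c) :
    0 ≤ PK K Y c := by
  induction K with
  | nil => simp [PK]
  | cons x K ih =>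
    have hx := hK x (by simp)
    have ih' := ih (fun y hy => hK y (by simp [hy]))
    have h1 : 0 < Real.Gamma x.2 := Real.Gamma_pos_of_pos hx.2
    have h2 : 0 < x.1 := hx.1
    unfold PK at ih' ⊢
    simp only [List.map_cons, List.prod_cons]
    positivity

lemma measurable_PK (K : List (ℝ × ℝ)) (c : ℝ) : Measurable (fun Y => PK K Y c) := by
  induction K with
  | nil => simp [PK]
  | cons x K ih =>
    unfold PK at ih ⊢
    simp only [List.map_cons, List.prod_cons]
    fun_prop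

lemma lintegral_mL_exp {K : List (ℝ × ℝ)} (hK : PosL K) {Y c : ℝ} (hY : 0 ≤ Y) (hc : 0 < c) :
    ∫⁻ w, ENNReal.ofReal (Real.exp (-(w.1 * Y + c * w.2))) ∂(mL K) = ENNReal.ofReal (PK K Y c) := by
  induction K with
  | nil =>
    rw [mL, lintegral_dirac' _ (by fun_prop)]
    simp [PK]
  | cons x K ih =>
    obtain ⟨a, β⟩ := x
    have hx := hK (a, β) (by simp)
    have ha : 0 < a := hx.1
    have hβ : 0 < β := hx.2
    have ih' := ih (fun y hy => hK y (by simp [hy]))
    rw [lintegral_mL_cons a β K (by fun_prop)]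
    have h1 : ∀ f : ℝ, ∫⁻ u, ENNReal.ofReal (f ^ β) *
        ENNReal.ofReal (Real.exp (-((a * f + u.1) * Y + c * (f + u.2)))) ∂(mL K)
        = ENNReal.ofReal (PK K Y c) * (ENNReal.ofReal (f ^ β) * ENNReal.ofReal (Real.exp (-(f * (a * Y + c))))) := by
      intro f
      rw [← ih', ← lintegral_mul_const _ (by fun_prop)]
      apply lintegral_congr
      intro u
      have : -((a * f + u.1) * Y + c * (f + u.2)) = -(u.1 * Y + c * u.2) + -(f * (a * Y + c)) := by ring
      rw [this, Real.exp_add, ENNReal.ofReal_mul (by positivity)]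
      ring
    simp_rw [h1]
    rw [lintegral_const_mul _ (by fun_prop), gamma_hh hβ (by positivity)]
    rw [← ENNReal.ofReal_mul (PK_nonneg (fun y hy => hK y (by simp [hy])) hY hc)]
    congr 1
    unfold PK
    simp only [List.map_cons, List.prod_cons]
    ring

/-- initial state measure for the list `K` -/
noncomputable def MK : List (ℝ × ℝ) → Measure St
  | [] => Measure.dirac (0, 0, 0, 0, 0)
  | (a, β) :: K => Measure.map (fun x : ℝ × St =>
      ((x.2.1 + x.1 * a ^ 2, x.2.2.1 + x.1 * a, x.2.2.2.1, x.2.2.2.2.1 + x.1, x.2.2.2.2.2) : St))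
      ((hh.withDensity (fun f => ENNReal.ofReal (Real.Gamma β * f ^ β))).prod (MK K))

instance instSFMK (K : List (ℝ × ℝ)) : SFinite (MK K) := by
  induction K with
  | nil => unfold MK; infer_instance
  | cons x K ih => obtain ⟨b, κ⟩ := x; unfold MK; infer_instance

lemma MK_nonneg {K : List (ℝ × ℝ)} (hK : PosL K) : ∀ᵐ s ∂(MK K), NonnegSt s := by
  induction K with
  | nil =>
    unfold MK
    rw [ae_dirac_iff]
    · simp [NonnegSt]
    · exact measurableSet_nonnegSt
  | cons x K ih =>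
    obtain ⟨a, β⟩ := x
    have ha : 0 < a := (hK (a, β) (by simp)).1
    have ih' := ih (fun y hy => hK y (by simp [hy]))
    rw [MK, ae_map_iff (by apply Measurable.aemeasurable; fun_prop) measurableSet_nonnegSt]
    have h1 : ∀ᵐ x ∂((hh.withDensity (fun f => ENNReal.ofReal (Real.Gamma β * f ^ β))).prod (MK K)), 0 < x.1 := by
      have : ∀ᵐ f ∂(hh.withDensity (fun f => ENNReal.ofReal (Real.Gamma β * f ^ β))), 0 < f :=
        (withDensity_absolutelyContinuous _ _).ae_le hh_pos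
      exact Measure.quasiMeasurePreserving_fst.ae this
    have h2 : ∀ᵐ x ∂((hh.withDensity (fun f => ENNReal.ofReal (Real.Gamma β * f ^ β))).prod (MK K)),
        NonnegSt x.2 := by
      exact Measure.quasiMeasurePreserving_snd.ae ih'
    filter_upwards [h1, h2] with x hx1 hx2
    obtain ⟨h1, h2, h3, h4, h5⟩ := hx2
    refine ⟨?_, ?_, ?_, ?_, ?_⟩ <;> simp only <;> positivity

lemma lintegral_MK_exp {K : List (ℝ × ℝ)} (hK : PosL K) {c c' : ℝ} (hc : 0 < c) (hc' : 0 < c')
    {u u' : ℝ × ℝ} (hu : 0 ≤ u.1) (hu' : 0 ≤ u'.1) :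
    ∫⁻ s, ENNReal.ofReal (Real.exp (-(Ex s c c' u u'))) ∂(MK K)
      = ENNReal.ofReal (PK K u.1 c) * ENNReal.ofReal (PK K u'.1 c') *
        ENNReal.ofReal (Real.exp (-(c * u.2 + c' * u'.2))) := by
  induction K with
  | nil =>
    rw [MK, lintegral_dirac' _ (by unfold Ex; fun_prop)]
    simp [PK, Ex]
  | cons x K ih =>
    obtain ⟨a, β⟩ := x
    have hx := hK (a, β) (by simp)
    have ha : 0 < a := hx.1
    have hβ : 0 < β := hx.2
    have hK' : PosL K := (fun y hy => hK y (by simp [hy]))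
    have ih' := ih hK'
    rw [MK, lintegral_map (by unfold Ex; fun_prop) (by fun_prop),
      lintegral_prod _ (by apply Measurable.aemeasurable; unfold Ex; fun_prop)]
    have h1 : ∀ f : ℝ, ∫⁻ s : St, ENNReal.ofReal (Real.exp (-(Ex
          (s.1 + f * a ^ 2, s.2.1 + f * a, s.2.2.1, s.2.2.2.1 + f, s.2.2.2.2) c c' u u'))) ∂(MK K)
        = (ENNReal.ofReal (PK K u.1 c) * ENNReal.ofReal (PK K u'.1 c') *
        ENNReal.ofReal (Real.exp (-(c * u.2 + c' * u'.2)))) *
          ENNReal.ofReal (Real.exp (-(f * ((a * u.1 + c) * (a * u'.1 + c'))))) := by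
      intro f
      rw [← ih', ← lintegral_mul_const _ (by unfold Ex; fun_prop)]
      apply lintegral_congr
      intro s
      rw [← ENNReal.ofReal_mul (by positivity), ← Real.exp_add]
      congr 2
      unfold Ex
      simp only
      ring
    have h2 : ∫⁻ f, ∫⁻ s : St, ENNReal.ofReal (Real.exp (-(Ex
          (s.1 + f * a ^ 2, s.2.1 + f * a, s.2.2.1, s.2.2.2.1 + f, s.2.2.2.2) c c' u u'))) ∂(MK K)
          ∂(hh.withDensity (fun f => ENNReal.ofReal (Real.Gamma β * f ^ β)))
        = (ENNReal.ofReal (PK K u.1 c) * ENNReal.ofReal (PK K u'.1 c') *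
        ENNReal.ofReal (Real.exp (-(c * u.2 + c' * u'.2)))) *
         (ENNReal.ofReal (Real.Gamma β) * ENNReal.ofReal (Real.Gamma β * ((a * u.1 + c) * (a * u'.1 + c')) ^ (-β))) := by
      simp_rw [h1]
      rw [lintegral_const_mul _ (by fun_prop),
        lintegral_withDensity_eq_lintegral_mul _ (by fun_prop) (by fun_prop)]
      simp only [Pi.mul_apply]
      rw [← gamma_hh hβ (by positivity)]
      congr 1
      rw [← lintegral_const_mul _ (by fun_prop)]
      apply lintegral_congr_ae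
      filter_upwards [hh_pos] with x hx
      rw [ENNReal.ofReal_mul (Real.Gamma_pos_of_pos hβ).le, mul_assoc]
    refine h2.trans ?_
    have hΓ := (Real.Gamma_pos_of_pos hβ)
    have hp1 := PK_nonneg hK' hu hc
    have hp2 := PK_nonneg hK' hu' hc'
    rw [← ENNReal.ofReal_mul hp1, ← ENNReal.ofReal_mul (by positivity), ← ENNReal.ofReal_mul hΓ.le,
      ← ENNReal.ofReal_mul (by positivity)]
    rw [← ENNReal.ofReal_mul (PK_nonneg hK hu hc), ← ENNReal.ofReal_mul
      (mul_nonneg (PK_nonneg hK hu hc) (PK_nonneg hK hu' hc'))]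
    congr 1
    have e1 : ((a * u.1 + c) * (a * u'.1 + c')) ^ (-β) = (a * u.1 + c) ^ (-β) * (a * u'.1 + c') ^ (-β) :=
      Real.mul_rpow (by positivity) (by positivity)
    rw [e1]
    unfold PK
    simp only [List.map_cons, List.prod_cons]
    ring

/-- The Laplace type function of two lists. -/
noncomputable def Psi (K L : List (ℝ × ℝ)) (c : ℝ) : ℝ≥0∞ :=
  ∫⁻ u, ENNReal.ofReal (PK K u.1 c) * ENNReal.ofReal (Real.exp (-(c * u.2))) ∂(mL L)

lemma Psi_mul (K L : List (ℝ × ℝ)) (hK : PosL K) (hL : PosL L) :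
    ∃ N : Measure (ℝ × ℝ), (∀ᵐ x ∂N, 0 ≤ x.1 ∧ 0 ≤ x.2) ∧ ∀ c c' : ℝ, 0 < c → 0 < c' →
      Psi K L c * Psi K L c' =
        ∫⁻ x, ENNReal.ofReal (Real.exp (-(x.1 * (c * c') + x.2 * (c + c') ^ 2))) ∂N := by
  obtain ⟨N, hN, hNe⟩ := elim L hL (MK K) inferInstance (MK_nonneg hK)
  refine ⟨N, hN, ?_⟩
  intro c c' hc hc'
  rw [← hNe c c' hc hc']
  have hm : ∀ c, Measurable (fun u : ℝ × ℝ => ENNReal.ofReal (PK K u.1 c) * ENNReal.ofReal (Real.exp (-(c * u.2)))) := by
    intro c
    have := (measurable_PK K c).comp (measurable_fst : Measurable (Prod.fst : ℝ × ℝ → ℝ))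
    have h2 : Measurable (fun u : ℝ × ℝ => PK K u.1 c) := this
    fun_prop
  unfold Psi
  rw [← lintegral_mul_const _ (hm c)]
  have hmE : Measurable (fun x : St × (ℝ × ℝ) × (ℝ × ℝ) =>
        ENNReal.ofReal (Real.exp (-(Ex x.1 c c' x.2.1 x.2.2)))) := by
      unfold Ex; fun_prop
  have hmE2 : Measurable (fun x : St × (ℝ × ℝ) =>
        ∫⁻ u', ENNReal.ofReal (Real.exp (-(Ex x.1 c c' x.2 u'))) ∂(mL L)) := by
      apply Measurable.lintegral_prod_right' (f := fun x : (St × (ℝ × ℝ)) × (ℝ × ℝ) =>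
        ENNReal.ofReal (Real.exp (-(Ex x.1.1 c c' x.1.2 x.2))))
      unfold Ex; fun_prop
  rw [lintegral_lintegral_swap hmE2.aemeasurable]
  apply lintegral_congr_ae
  filter_upwards [mL_nonneg hL] with u hu
  rw [← lintegral_const_mul _ (hm c')]
  rw [lintegral_lintegral_swap (by
    apply Measurable.aemeasurable
    unfold Ex; fun_prop)]
  apply lintegral_congr_ae
  filter_upwards [mL_nonneg hL] with u' hu'
  rw [lintegral_MK_exp hK hc hc' hu.1 hu'.1, neg_add, Real.exp_add, ENNReal.ofReal_mul (by positivity)]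
  ring

/-- the measure whose Laplace transform is `Psi` -/
noncomputable def varpi (K L : List (ℝ × ℝ)) : Measure ℝ :=
  Measure.map (fun x : (ℝ × ℝ) × (ℝ × ℝ) => x.1.2 + x.2.2)
    (((mL L).prod (mL K)).withDensity (fun x => ENNReal.ofReal (Real.exp (-(x.2.1 * x.1.1)))))

instance (K L : List (ℝ × ℝ)) : SFinite (varpi K L) := by unfold varpi; infer_instance

lemma varpi_nonneg {K L : List (ℝ × ℝ)} (hK : PosL K) (hL : PosL L) : ∀ᵐ t ∂(varpi K L), 0 ≤ t := by
  have hms : MeasurableSet {t : ℝ | 0 ≤ t} := measurableSet_Ici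
  rw [varpi, ae_map_iff (by apply Measurable.aemeasurable; fun_prop) hms]
  apply (withDensity_absolutelyContinuous _ _).ae_le
  have h1 : ∀ᵐ x ∂((mL L).prod (mL K)), 0 ≤ x.1.1 ∧ 0 ≤ x.1.2 :=
    Measure.quasiMeasurePreserving_fst.ae (mL_nonneg hL)
  have h2 : ∀ᵐ x ∂((mL L).prod (mL K)), 0 ≤ x.2.1 ∧ 0 ≤ x.2.2 :=
    Measure.quasiMeasurePreserving_snd.ae (mL_nonneg hK)
  filter_upwards [h1, h2] with x h1 h2
  linarith [h1.2, h2.2]

lemma Psi_eq_varpi {K L : List (ℝ × ℝ)} (hK : PosL K) (hL : PosL L) {c : ℝ} (hc : 0 < c) :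
    Psi K L c = ∫⁻ t, ENNReal.ofReal (Real.exp (-(c * t))) ∂(varpi K L) := by
  rw [varpi, lintegral_map (by fun_prop) (by fun_prop),
    lintegral_withDensity_eq_lintegral_mul _ (by fun_prop) (by fun_prop)]
  simp only [Pi.mul_apply]
  rw [lintegral_prod _ (by apply Measurable.aemeasurable; fun_prop), Psi]
  apply lintegral_congr_ae
  filter_upwards [mL_nonneg hL] with u hu
  rw [← lintegral_mL_exp hK hu.1 hc, ← lintegral_mul_const _ (by fun_prop)]
  apply lintegral_congr
  intro w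
  rw [← ENNReal.ofReal_mul (by positivity), ← ENNReal.ofReal_mul (by positivity), ← Real.exp_add,
    ← Real.exp_add]
  congr 2
  ring

/-- total exponent -/
noncomputable def kap (L : List (ℝ × ℝ)) : ℝ := (L.map Prod.snd).sum

lemma kap_cons (b κ : ℝ) (L : List (ℝ × ℝ)) : kap ((b, κ) :: L) = κ + kap L := by
  simp [kap]

lemma mL_scale (L : List (ℝ × ℝ)) {g : ℝ × ℝ → ℝ≥0∞} (hg : Measurable g) {c : ℝ} (hc : 0 < c) :
    ∫⁻ u, g (c * u.1, c * u.2) ∂(mL L) = ENNReal.ofReal (c ^ (-(kap L))) * ∫⁻ u, g u ∂(mL L) := by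
  induction L generalizing g with
  | nil =>
    rw [mL, lintegral_dirac' _ (by fun_prop), lintegral_dirac' _ hg]
    simp [kap]
  | cons x L ih =>
    obtain ⟨b, κ⟩ := x
    rw [lintegral_mL_cons b κ L (by fun_prop), lintegral_mL_cons b κ L hg]
    have hmB : Measurable (fun f : ℝ => ∫⁻ u, ENNReal.ofReal (f ^ κ) * g (b * f + u.1, f + u.2) ∂(mL L)) := by
      apply Measurable.lintegral_prod_right' (f := fun x : ℝ × (ℝ × ℝ) =>
        ENNReal.ofReal (x.1 ^ κ) * g (b * x.1 + x.2.1, x.1 + x.2.2))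
      fun_prop
    have h1 : ∫⁻ f, ∫⁻ u, ENNReal.ofReal (f ^ κ) * g (c * (b * f + u.1), c * (f + u.2)) ∂(mL L) ∂hh
        = ∫⁻ f, ENNReal.ofReal (c ^ (-(kap ((b, κ) :: L)))) *
          ((fun f : ℝ => ∫⁻ u, ENNReal.ofReal (f ^ κ) * g (b * f + u.1, f + u.2) ∂(mL L)) (c * f)) ∂hh := by
      apply lintegral_congr_ae
      filter_upwards [hh_pos] with f hf
      have hg2 : Measurable (fun u : ℝ × ℝ => g (b * (c * f) + u.1, c * f + u.2)) := by fun_prop
      have h2 := ih (g := fun u => g (b * (c * f) + u.1, c * f + u.2)) hg2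
      simp only at h2 ⊢
      rw [lintegral_const_mul _ (by fun_prop), lintegral_const_mul _ (by fun_prop)]
      have h3 : ∫⁻ u, g (c * (b * f + u.1), c * (f + u.2)) ∂(mL L)
          = ∫⁻ u, g (b * (c * f) + c * u.1, c * f + c * u.2) ∂(mL L) := by
        apply lintegral_congr
        intro u
        congr 2 <;> ring
      have e : ENNReal.ofReal (f ^ κ) * ENNReal.ofReal (c ^ (-(kap L))) =
          ENNReal.ofReal (c ^ (-(κ + kap L))) * ENNReal.ofReal ((c * f) ^ κ) := by
        rw [← ENNReal.ofReal_mul (by positivity), ← ENNReal.ofReal_mul (by positivity)]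
        congr 1
        rw [Real.mul_rpow hc.le hf.le, neg_add, Real.rpow_add hc, Real.rpow_neg hc.le κ]
        have : c ^ κ ≠ 0 := by positivity
        field_simp
      rw [h3, h2, kap_cons, ← mul_assoc, e, mul_assoc]
    rw [h1, lintegral_const_mul _ (by fun_prop), lintegral_hh_scale hmB hc]

/-- `∏ (1 + a x)^{-β}` -/
noncomputable def GG (K : List (ℝ × ℝ)) (x : ℝ) : ℝ :=
  (K.map (fun y => (1 + y.1 * x) ^ (-y.2))).prod

noncomputable def GamL (K : List (ℝ × ℝ)) : ℝ := (K.map (fun y => Real.Gamma y.2)).prod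

lemma GamL_pos {K : List (ℝ × ℝ)} (hK : PosL K) : 0 < GamL K := by
  induction K with
  | nil => simp [GamL]
  | cons x K ih =>
    have h1 : 0 < Real.Gamma x.2 := Real.Gamma_pos_of_pos (hK x (by simp)).2
    have ih' := ih (fun y hy => hK y (by simp [hy]))
    unfold GamL at ih' ⊢
    simp only [List.map_cons, List.prod_cons]
    positivity

lemma GG_pos {K : List (ℝ × ℝ)} (hK : PosL K) {x : ℝ} (hx : 0 ≤ x) : 0 < GG K x := by
  induction K with
  | nil => simp [GG]
  | cons y K ih =>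
    have h1 : 0 < y.1 := (hK y (by simp)).1
    have ih' := ih (fun y hy => hK y (by simp [hy]))
    unfold GG at ih' ⊢
    simp only [List.map_cons, List.prod_cons]
    positivity

lemma PK_eq {K : List (ℝ × ℝ)} (hK : PosL K) {Y c : ℝ} (hY : 0 ≤ Y) (hc : 0 < c) :
    PK K Y c = GamL K * c ^ (-(kap K)) * GG K (Y / c) := by
  induction K with
  | nil => simp [PK, GamL, kap, GG]
  | cons y K ih =>
    obtain ⟨a, β⟩ := y
    have ha : 0 < a := (hK (a, β) (by simp)).1
    have ih' := ih (fun y hy => hK y (by simp [hy]))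
    have e1 : (a * Y + c) ^ (-β) = c ^ (-β) * (1 + a * (Y / c)) ^ (-β) := by
      rw [← Real.mul_rpow hc.le (by positivity)]
      congr 1
      field_simp
      ring
    rw [kap_cons, neg_add, Real.rpow_add hc]
    unfold PK GamL GG at ih' ⊢
    simp only [List.map_cons, List.prod_cons]
    rw [ih', e1]
    ring

/-- law of `∑ b_j F_j` for independent standard gamma variables `F_j` with parameters `κ_j` -/
noncomputable def muL (L : List (ℝ × ℝ)) : Measure ℝ :=
  (ENNReal.ofReal (GamL L))⁻¹ • Measure.map Prod.fst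
    ((mL L).withDensity (fun u => ENNReal.ofReal (Real.exp (-u.2))))

lemma lintegral_muL (L : List (ℝ × ℝ)) {g : ℝ → ℝ≥0∞} (hg : Measurable g) :
    ∫⁻ y, g y ∂(muL L) = (ENNReal.ofReal (GamL L))⁻¹ *
      ∫⁻ u, g u.1 * ENNReal.ofReal (Real.exp (-u.2)) ∂(mL L) := by
  rw [muL, lintegral_smul_measure, lintegral_map hg measurable_fst,
    lintegral_withDensity_eq_lintegral_mul _ (by fun_prop) (by fun_prop)]
  simp only [Pi.mul_apply, smul_eq_mul]
  congr 1
  apply lintegral_congr
  intro u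
  ring

lemma lintegral_muL_exp {L : List (ℝ × ℝ)} (hL : PosL L) {x : ℝ} (hx : 0 ≤ x) :
    ∫⁻ y, ENNReal.ofReal (Real.exp (-(x * y))) ∂(muL L) = ENNReal.ofReal (GG L x) := by
  rw [lintegral_muL L (by fun_prop)]
  have h1 := lintegral_mL_exp hL hx one_pos
  have h2 : ∫⁻ u, ENNReal.ofReal (Real.exp (-(x * u.1))) * ENNReal.ofReal (Real.exp (-u.2)) ∂(mL L)
      = ENNReal.ofReal (PK L x 1) := by
    rw [← h1]
    apply lintegral_congr
    intro u
    rw [← ENNReal.ofReal_mul (by positivity), ← Real.exp_add]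
    congr 2; ring
  have hG := GamL_pos hL
  rw [h2, PK_eq hL hx one_pos, Real.one_rpow, mul_one, div_one, ENNReal.ofReal_mul hG.le, ← mul_assoc,
    ENNReal.inv_mul_cancel (by positivity) ENNReal.ofReal_ne_top, one_mul]

instance (L : List (ℝ × ℝ)) : SFinite (muL L) := by unfold muL; infer_instance

lemma muL_univ {L : List (ℝ × ℝ)} (hL : PosL L) : (muL L) Set.univ = 1 := by
  have := lintegral_muL_exp hL (le_refl (0:ℝ))
  simp only [zero_mul, neg_zero, Real.exp_zero, ENNReal.ofReal_one, lintegral_const, one_mul] at this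
  rw [this]
  have : GG L 0 = 1 := by
    unfold GG
    simp
  rw [this, ENNReal.ofReal_one]

lemma muL_nonneg {L : List (ℝ × ℝ)} (hL : PosL L) : ∀ᵐ y ∂(muL L), 0 ≤ y := by
  rw [muL]
  apply Measure.ae_smul_measure
  have hms : MeasurableSet {t : ℝ | 0 ≤ t} := measurableSet_Ici
  rw [ae_map_iff measurable_fst.aemeasurable hms]
  apply (withDensity_absolutelyContinuous _ _).ae_le
  filter_upwards [mL_nonneg hL] with u hu
  exact hu.1

lemma measurable_GG (K : List (ℝ × ℝ)) : Measurable (GG K) := by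
  unfold GG
  induction K with
  | nil => simp
  | cons x K ih =>
    simp only [List.map_cons, List.prod_cons]
    fun_prop

/-- the key relation between `Psi` and the Laplace transform of the product -/
lemma Psi_eq_phi {K L : List (ℝ × ℝ)} (hK : PosL K) (hL : PosL L) {c : ℝ} (hc : 0 < c) :
    Psi K L c = ENNReal.ofReal (GamL K * GamL L * c ^ (-(kap K + kap L))) *
      ∫⁻ y, ENNReal.ofReal (GG K (c⁻¹ ^ 2 * y)) ∂(muL L) := by
  have hGK := GamL_pos hK
  have hGL := GamL_pos hL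
  have hgm : Measurable (fun u : ℝ × ℝ => ENNReal.ofReal (GG K (c⁻¹ ^ 2 * u.1)) * ENNReal.ofReal (Real.exp (-u.2))) := by
    have := (measurable_GG K).comp (by fun_prop : Measurable (fun u : ℝ × ℝ => c⁻¹ ^ 2 * u.1))
    have h2 : Measurable (fun u : ℝ × ℝ => GG K (c⁻¹ ^ 2 * u.1)) := this
    fun_prop
  have h1 := mL_scale L hgm hc
  have h2 : Psi K L c = ∫⁻ u, ENNReal.ofReal (GamL K * c ^ (-(kap K))) *
      (ENNReal.ofReal (GG K (c⁻¹ ^ 2 * (c * u.1))) * ENNReal.ofReal (Real.exp (-(c * u.2)))) ∂(mL L) := by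
    unfold Psi
    apply lintegral_congr_ae
    filter_upwards [mL_nonneg hL] with u hu
    rw [PK_eq hK hu.1 hc, ENNReal.ofReal_mul (by positivity), mul_assoc]
    congr 3
    congr 1
    field_simp
  rw [h2, lintegral_const_mul _ (by
    have := (measurable_GG K).comp (by fun_prop : Measurable (fun u : ℝ × ℝ => c⁻¹ ^ 2 * (c * u.1)))
    have h2 : Measurable (fun u : ℝ × ℝ => GG K (c⁻¹ ^ 2 * (c * u.1))) := this
    fun_prop), h1, lintegral_muL L (by
    have := (measurable_GG K).comp (by fun_prop : Measurable (fun u : ℝ => c⁻¹ ^ 2 * u))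
    have h2 : Measurable (fun u : ℝ => GG K (c⁻¹ ^ 2 * u)) := this
    fun_prop)]
  rw [← mul_assoc, ← mul_assoc]
  congr 1
  rw [← ENNReal.ofReal_inv_of_pos hGL, ← ENNReal.ofReal_mul (by positivity),
    ← ENNReal.ofReal_mul (by positivity)]
  congr 1
  rw [neg_add, Real.rpow_add hc]
  field_simp

end H330GGC
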