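import Pool.Agent.H330R3.GGC.D1
import Pool.Agent.H330R3.GGC.D2
open MeasureTheory Real ProbabilityTheory Set Filter
open scoped ENNReal Topology

set_option maxHeartbeats 1000000

namespace H330GGC

theorem main_rep {a b s : ℝ} (ha : 0 < a) (hb : 0 < b) (hs : 1 ≤ s) :
    ∃ c : ℝ, 0 ≤ c ∧ ∃ U : Measure ℝ, U (Set.Iic 0) = 0 ∧ ∀ l : ℝ, 0 < l →
      Integrable (fun t : ℝ => Real.log (1 + l / t)) U ∧
      (∫ x in Set.Ioo (0:ℝ) 1, Real.exp (-(l * x ^ (-s))) * x ^ (a - 1) * (1 - x) ^ (b - 1)) =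
        (∫ x in Set.Ioo (0:ℝ) 1, x ^ (a - 1) * (1 - x) ^ (b - 1)) *
          Real.exp (-(c * l) - ∫ t, Real.log (1 + l / t) ∂U) := by
  have hs0 : 0 < s := by linarith
  have hg0 : 0 < 1 / s := by positivity
  have hg1 : 1 / s ≤ 1 := by rw [div_le_one hs0]; exact hs
  have hG := InG_beta hg0 hg1 ha hb
  have hB := beta_pos ha hb
  obtain ⟨hBi, hBe⟩ := beta_int ha hb
  have hBi' : Integrable (wB a b) (volume.restrict (Set.Ioo (0:ℝ) 1)) := hBi
  have hBe' : ∫ x in Set.Ioo (0:ℝ) 1, wB a b x = beta a b := hBe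
  have hwpos : ∀ y ∈ Set.Ioo (0:ℝ) 1, 0 < wB a b y := by
    intro y hy
    have h1 : 0 < 1 - y := by linarith [hy.2]
    have h2 := hy.1
    unfold wB; positivity
  have hwm : Measurable (wB a b) := by unfold wB; fun_prop
  simp only [one_div_one_div] at hG
  set φ : ℝ → ℝ := fun x => (∫ y in Set.Ioo (0:ℝ) 1, Real.exp (-(x * (y ^ s)⁻¹)) * wB a b y) / beta a b with hφ
  have hle : ∀ x : ℝ, 0 ≤ x → ∀ y ∈ Set.Ioo (0:ℝ) 1, Real.exp (-(x * (y ^ s)⁻¹)) * wB a b y ≤ Real.exp (-x) * wB a b y := by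
    intro x hx y hy
    apply mul_le_mul_of_nonneg_right _ (hwpos y hy).le
    rw [Real.exp_le_exp]
    have h4 : 0 < y ^ s := Real.rpow_pos_of_pos hy.1 _
    have h5 : y ^ s ≤ 1 := Real.rpow_le_one hy.1.le hy.2.le hs0.le
    have h6 : 1 ≤ (y ^ s)⁻¹ := (one_le_inv₀ h4).mpr h5
    nlinarith
  have hint : ∀ x : ℝ, 0 ≤ x → Integrable (fun y : ℝ => Real.exp (-(x * (y ^ s)⁻¹)) * wB a b y) (volume.restrict (Set.Ioo (0:ℝ) 1)) := by
    intro x hx
    apply Integrable.mono' hBi'
    · apply Measurable.aestronglyMeasurable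
      fun_prop
    · filter_upwards [ae_restrict_mem measurableSet_Ioo] with y hy
      have h0 := hwpos y hy
      rw [norm_mul, Real.norm_of_nonneg h0.le, Real.norm_of_nonneg (Real.exp_pos _).le]
      have h1 := hle x hx y hy
      have h2 : Real.exp (-x) ≤ 1 := Real.exp_le_one_iff.mpr (by linarith)
      nlinarith
  have hpos : ∀ x, 0 < x → 0 < φ x := by
    intro x hx
    apply div_pos _ hB
    rw [integral_pos_iff_support_of_nonneg_ae _ (hint x hx.le)]
    · have : Set.Ioo (0:ℝ) 1 ⊆ Function.support (fun y : ℝ => Real.exp (-(x * (y ^ s)⁻¹)) * wB a b y) := by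
        intro y hy
        have h0 := hwpos y hy
        rw [Function.mem_support]
        positivity
      calc (0:ℝ≥0∞) < volume.restrict (Set.Ioo (0:ℝ) 1) (Set.Ioo (0:ℝ) 1) := by
            rw [Measure.restrict_apply_self]; simp
        _ ≤ _ := measure_mono this
    · filter_upwards [ae_restrict_mem measurableSet_Ioo] with y hy
      have h0 := hwpos y hy
      simp only [Pi.zero_apply]
      positivity
  have h1 : φ 1 < 1 := by
    have h2 : φ 1 ≤ Real.exp (-1) := by
      simp only [hφ]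
      rw [div_le_iff₀ hB, ← hBe', ← integral_const_mul]
      apply setIntegral_mono_on (hint 1 zero_le_one) (hBi'.const_mul _) measurableSet_Ioo
      intro y hy
      exact hle 1 zero_le_one y hy
    have h3 : Real.exp (-1) < 1 := by rw [Real.exp_lt_one_iff]; norm_num
    linarith
  have hlim : Tendsto φ (𝓝[>] 0) (𝓝 1) := by
    have h3 : Tendsto (fun x => ∫ y in Set.Ioo (0:ℝ) 1, Real.exp (-(x * (y ^ s)⁻¹)) * wB a b y) (𝓝[>] 0)
        (𝓝 (∫ y in Set.Ioo (0:ℝ) 1, wB a b y)) := by
      apply tendsto_integral_filter_of_dominated_convergence (wB a b)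
      · filter_upwards with x
        apply Measurable.aestronglyMeasurable
        fun_prop
      · filter_upwards [self_mem_nhdsWithin] with x hx
        have hx0 : 0 < x := hx
        filter_upwards [ae_restrict_mem measurableSet_Ioo] with y hy
        have h0 := hwpos y hy
        rw [norm_mul, Real.norm_of_nonneg h0.le, Real.norm_of_nonneg (Real.exp_pos _).le]
        have h1 := hle x hx0.le y hy
        have h2 : Real.exp (-x) ≤ 1 := Real.exp_le_one_iff.mpr (by linarith)
        nlinarith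
      · exact hBi'
      · filter_upwards with y
        have h4 : Continuous (fun x : ℝ => Real.exp (-(x * (y ^ s)⁻¹)) * wB a b y) := by fun_prop
        have h5 := (h4.tendsto 0).mono_left (nhdsWithin_le_nhds (s := Set.Ioi (0:ℝ)))
        simpa using h5
    have h6 := h3.div_const (beta a b)
    rw [hBe', div_self hB.ne'] at h6
    exact h6
  obtain ⟨c, hc, U, hU, hrep⟩ := final_rep hG hpos h1 hlim
  refine ⟨c, hc, U, hU, fun l hl => ⟨(hrep l hl).1, ?_⟩⟩
  have h7 := (hrep l hl).2
  simp only [hφ] at h7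
  rw [hBe]
  rw [div_eq_iff hB.ne'] at h7
  rw [mul_comm (beta a b), ← h7]
  apply setIntegral_congr_fun measurableSet_Ioo
  intro y hy
  unfold wB
  simp only
  rw [Real.rpow_neg hy.1.le, mul_assoc]

end H330GGC
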